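import Pool.Agent.Y648.CX.Stm

set_option autoImplicit false

/-!
# The maximum of the form `f` along the path (helper248, job Y648-X4)
-/

namespace Pool.Agent.Y648.CS.V

open Matrix

namespace APL

/-! ### Duality -/

/-- normalised forms -/
def Nrm {K : ℕ} (V : Submodule ℝ (Fin K → ℝ)) (f g : Fin K → ℝ) : Prop :=
  ∀ y ∈ V, g ⬝ᵥ y = f ⬝ᵥ y

/-- the cost of a form -/
noncomputable def cst {K : ℕ} (m g : Fin K → ℝ) : ℝ := ∑ i, m i * max (g i) 0

theorem cap_pos {K : ℕ} {s : Fin K → ℝ} {t : ℝ} (ht : 0 < t) (i : Fin K) :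
    0 < cap s t i := by
  unfold cap
  split_ifs with h
  · exact one_pos
  · exact div_pos ht (lt_trans ht (not_le.1 h))

theorem weak {K : ℕ} {V : Submodule ℝ (Fin K → ℝ)} {s f g x : Fin K → ℝ} {t : ℝ}
    (hg : Nrm V f g) (hx : x ∈ Bx V s t) : f ⬝ᵥ x ≤ cst (cap s t) g := by
  rw [← hg x hx.1]
  refine Finset.sum_le_sum fun i _ => ?_
  have h1 := hx.2 i
  calc g i * x i ≤ max (g i) 0 * x i := mul_le_mul_of_nonneg_right (le_max_left _ _) h1.1
    _ ≤ max (g i) 0 * cap s t i := mul_le_mul_of_nonneg_left h1.2 (le_max_right _ _)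
    _ = _ := mul_comm _ _

theorem ele_smul {K : ℕ} {U : Submodule ℝ (Fin K → ℝ)} {C : Fin K → ℝ} (h : Ele U C) {c : ℝ}
    (hc : c ≠ 0) : Ele U (c • C) := by
  obtain ⟨h1, h2, h3⟩ := h
  refine ⟨U.smul_mem c h1, smul_ne_zero hc h2, fun D hD h => ?_⟩
  obtain ⟨l, hl⟩ := h3 D hD (fun i hi => h i (by rw [Pi.smul_apply, hi, smul_zero]))
  refine ⟨l / c, ?_⟩
  rw [smul_smul, div_mul_cancel₀ _ hc, hl]

theorem opt (hconf : S_CONF) (hdual : S_DUAL) (hmx : S_MX) {K : ℕ}
    {V : Submodule ℝ (Fin K → ℝ)} {s f : Fin K → ℝ} (hs : ∀ i, 0 ≤ s i) {t : ℝ} (ht : 0 < t)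
    (hpos : 0 < mx V s f t) :
    ∃ g, Ele (ann (ker1 V f)) g ∧ Nrm V f g ∧ cst (cap s t) g ≤ mx V s f t := by
  obtain ⟨⟨x0, hx0, hx0'⟩, hall, -, -⟩ := hmx K V s f hs t ht
  obtain ⟨x, hxV, hxm, h, hh, hopt⟩ := hdual K V (cap s t) f (fun i => cap_pos ht i)
  have hcost : cst (cap s t) h ≤ mx V s f t := by
    have h1 := hall x ⟨hxV, hxm⟩
    rw [hopt] at h1
    exact h1
  have hfx0 : 0 < f ⬝ᵥ x0 := by rw [hx0']; exact hpos
  have hhann : h ∈ ann (ker1 V f) := by
    intro u hu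
    rw [hh u hu.1]
    exact hu.2
  obtain ⟨C, hC, hCc, hsum⟩ := hconf K (ann (ker1 V f)) h hhann
  -- the multiples
  set lam : Fin K → ℝ := fun k => (C k ⬝ᵥ x0) / (f ⬝ᵥ x0) with hlam
  have hCann : ∀ k, C k ∈ ann (ker1 V f) := by
    intro k
    rcases hC k with h0 | h0
    · rw [h0]; exact Submodule.zero_mem _
    · exact h0.1
  have hmul : ∀ k, ∀ y ∈ V, C k ⬝ᵥ y = lam k * (f ⬝ᵥ y) := by
    intro k y hy
    have h1 : y - ((f ⬝ᵥ y) / (f ⬝ᵥ x0)) • x0 ∈ ker1 V f := by
      refine ⟨V.sub_mem hy (V.smul_mem _ hx0.1), ?_⟩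
      rw [dotProduct_sub, dotProduct_smul, smul_eq_mul, div_mul_cancel₀ _ hfx0.ne', sub_self]
    have h2 := hCann k _ h1
    rw [dotProduct_sub, dotProduct_smul, smul_eq_mul] at h2
    have h3 : C k ⬝ᵥ y = (f ⬝ᵥ y) / (f ⬝ᵥ x0) * (C k ⬝ᵥ x0) := by linarith
    rw [h3, hlam]
    ring
  have hlsum : ∑ k, lam k = 1 := by
    have h1 : h ⬝ᵥ x0 = ∑ k, (C k ⬝ᵥ x0) := by
      conv_lhs => rw [hsum]
      rw [sum_dotProduct]
    have h2 := hh x0 hx0.1
    rw [h1] at h2
    rw [hlam]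
    simp only
    rw [← Finset.sum_div, h2, div_self hfx0.ne']
  have hcsum : ∑ k, cst (cap s t) (C k) = cst (cap s t) h := by
    unfold cst
    rw [Finset.sum_comm]
    refine Finset.sum_congr rfl fun i _ => ?_
    rw [← Finset.mul_sum]
    congr 1
    have hi : h i = ∑ k, C k i := by
      conv_lhs => rw [hsum]
      rw [Finset.sum_apply]
    rcases lt_trichotomy (h i) 0 with h0 | h0 | h0
    · rw [max_eq_right h0.le]
      refine Finset.sum_eq_zero fun k _ => max_eq_right ?_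
      have := (hCc k i).1
      by_contra hc
      push Not at hc
      have := mul_neg_of_pos_of_neg hc h0
      linarith
    · rw [h0, max_self]
      refine Finset.sum_eq_zero fun k _ => ?_
      have := (hCc k i).2
      rw [h0, abs_zero] at this
      have h1 : C k i = 0 := abs_nonpos_iff.1 this
      rw [h1, max_self]
    · rw [max_eq_left h0.le, hi]
      refine Finset.sum_congr rfl fun k _ => max_eq_left ?_
      have := (hCc k i).1
      by_contra hc
      push Not at hc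
      have := mul_neg_of_neg_of_pos hc h0
      linarith
  have hcnn : ∀ k, 0 ≤ cst (cap s t) (C k) := fun k =>
    Finset.sum_nonneg fun i _ => mul_nonneg (cap_pos ht i).le (le_max_right _ _)
  obtain ⟨k, hk, hk'⟩ : ∃ k, 0 < lam k ∧ cst (cap s t) (C k) ≤ lam k * mx V s f t := by
    by_contra hc
    push Not at hc
    have h1 : ∀ k, lam k * mx V s f t ≤ cst (cap s t) (C k) := by
      intro k
      by_cases hk : 0 < lam k
      · exact (hc k hk).le
      · push Not at hk
        exact (mul_nonpos_of_nonpos_of_nonneg hk hpos.le).trans (hcnn k)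
    obtain ⟨k0, hk0⟩ : ∃ k, 0 < lam k := by
      by_contra hc2
      push Not at hc2
      have := Finset.sum_nonpos (fun k (_ : k ∈ Finset.univ) => hc2 k)
      rw [hlsum] at this
      linarith
    have h2 : ∑ k, lam k * mx V s f t < ∑ k, cst (cap s t) (C k) :=
      Finset.sum_lt_sum (fun k _ => h1 k) ⟨k0, Finset.mem_univ _, hc k0 hk0⟩
    rw [← Finset.sum_mul, hlsum, one_mul, hcsum] at h2
    linarith
  have hCk : Ele (ann (ker1 V f)) (C k) := by
    rcases hC k with h0 | h0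
    · exfalso
      have h1 : lam k = 0 := by rw [hlam]; simp [h0]
      rw [h1] at hk
      exact lt_irrefl _ hk
    · exact h0
  refine ⟨(lam k)⁻¹ • C k, ele_smul hCk (inv_ne_zero hk.ne'), fun y hy => ?_, ?_⟩
  · rw [smul_dotProduct, hmul k y hy, smul_eq_mul, ← mul_assoc, inv_mul_cancel₀ hk.ne', one_mul]
  · have h1 : cst (cap s t) ((lam k)⁻¹ • C k) = (lam k)⁻¹ * cst (cap s t) (C k) := by
      unfold cst
      rw [Finset.mul_sum]
      refine Finset.sum_congr rfl fun i _ => ?_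
      rw [Pi.smul_apply, smul_eq_mul]
      have h2 : max ((lam k)⁻¹ * C k i) 0 = (lam k)⁻¹ * max (C k i) 0 := by
        rw [mul_max_of_nonneg _ _ (inv_nonneg.2 hk.le), mul_zero]
      rw [h2]; ring
    rw [h1, inv_mul_le_iff₀ hk]
    exact hk'

/-! ### Classes -/

/-- within a class of forms, the maximum is near one function -/
theorem cls {X : Type} (P : X → Prop) (L : X → ℝ) (cost : X → ℝ → ℝ) (ψ M : ℝ → ℝ) (H a b : ℝ)
    (hH : 1 ≤ H) (h1 : ∀ g, P g → 0 < L g) (hψ : ∀ y, a ≤ y → y ≤ b → 0 < ψ y)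
    (h2 : ∀ g, P g → ∀ y, a ≤ y → y ≤ b → L g * ψ y ≤ cost g y ∧ cost g y ≤ H * (L g * ψ y))
    (h3 : ∀ g, P g → ∀ y, a ≤ y → y ≤ b → M y ≤ cost g y) :
    ∃ c : ℝ, ∀ y, a ≤ y → y ≤ b → ∀ g, P g → cost g y ≤ M y →
      |Real.logb 2 (M y) - (c + Real.logb 2 (ψ y))| ≤ Real.logb 2 H := by
  by_cases hex : ∃ y0, a ≤ y0 ∧ y0 ≤ b ∧ ∃ g0, P g0 ∧ cost g0 y0 ≤ M y0
  · obtain ⟨y0, hay0, hy0b, g0, hg0, hc0⟩ := hex
    refine ⟨Real.logb 2 (L g0), fun y hay hyb g hg hc => ?_⟩
    have hL0 := h1 g0 hg0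
    have hL := h1 g hg
    have hp := hψ y hay hyb
    have hp0 := hψ y0 hay0 hy0b
    have hH0 : 0 < H := lt_of_lt_of_le one_pos hH
    -- comparison of `L g0` and `L g`
    have h4 : L g0 ≤ H * L g := by
      have e1 := (h2 g0 hg0 y0 hay0 hy0b).1
      have e2 := h3 g hg y0 hay0 hy0b
      have e3 := (h2 g hg y0 hay0 hy0b).2
      have e4 : L g0 * ψ y0 ≤ (H * L g) * ψ y0 := by
        calc L g0 * ψ y0 ≤ cost g0 y0 := e1
          _ ≤ M y0 := hc0
          _ ≤ cost g y0 := e2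
          _ ≤ H * (L g * ψ y0) := e3
          _ = _ := by ring
      exact le_of_mul_le_mul_right e4 hp0
    have hup : M y ≤ H * (L g0 * ψ y) :=
      (h3 g0 hg0 y hay hyb).trans (h2 g0 hg0 y hay hyb).2
    have hlo : L g0 * ψ y ≤ H * M y := by
      calc L g0 * ψ y ≤ (H * L g) * ψ y := mul_le_mul_of_nonneg_right h4 hp.le
        _ = H * (L g * ψ y) := by ring
        _ ≤ H * M y := mul_le_mul_of_nonneg_left ((h2 g hg y hay hyb).1.trans hc) hH0.le
    have hM : 0 < M y := lt_of_lt_of_le (mul_pos hL hp) ((h2 g hg y hay hyb).1.trans hc)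
    rw [← Real.logb_mul hL0.ne' hp.ne', abs_le]
    constructor
    · have e := Real.logb_le_logb_of_le (b := 2) one_lt_two (mul_pos hL0 hp) hlo
      rw [Real.logb_mul hH0.ne' hM.ne'] at e
      linarith
    · have e := Real.logb_le_logb_of_le (b := 2) one_lt_two hM hup
      rw [Real.logb_mul hH0.ne' (mul_pos hL0 hp).ne'] at e
      linarith
  · refine ⟨0, fun y hay hyb g hg hc => ?_⟩
    exact absurd ⟨y, hay, hyb, g, hg, hc⟩ hex

/-- the function `log (1 + 2 ^ y / τ)` -/
theorem log_one_add {τ : ℝ} (hτ : 0 < τ) (y : ℝ) :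
    (|Real.logb 2 (1 + 2 ^ y / τ) - 0| ≤ 1) ∨
      |Real.logb 2 (1 + 2 ^ y / τ) - (y - Real.logb 2 τ)| ≤ 1 := by
  have h2 : (0 : ℝ) < 2 ^ y := Real.rpow_pos_of_pos two_pos y
  have hq : 0 < (2 : ℝ) ^ y / τ := div_pos h2 hτ
  have hlq : Real.logb 2 ((2 : ℝ) ^ y / τ) = y - Real.logb 2 τ := by
    rw [Real.logb_div h2.ne' hτ.ne', Real.logb_rpow two_pos (by norm_num)]
  have hl2 : Real.logb 2 2 = 1 := Real.logb_self_eq_one one_lt_two
  rcases le_total ((2 : ℝ) ^ y / τ) 1 with h | h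
  · left
    rw [sub_zero, abs_le]
    constructor
    · have := Real.logb_nonneg (b := 2) one_lt_two (x := 1 + 2 ^ y / τ) (by linarith)
      linarith
    · have := Real.logb_le_logb_of_le (b := 2) one_lt_two (x := 1 + 2 ^ y / τ) (y := 2)
        (by linarith) (by linarith)
      rwa [hl2] at this
  · right
    rw [← hlq, abs_le]
    constructor
    · have := Real.logb_le_logb_of_le (b := 2) one_lt_two hq
        (show (2 : ℝ) ^ y / τ ≤ 1 + 2 ^ y / τ by linarith)
      linarith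
    · have := Real.logb_le_logb_of_le (b := 2) one_lt_two (x := 1 + 2 ^ y / τ)
        (y := 2 * (2 ^ y / τ)) (by linarith) (by linarith)
      rw [Real.logb_mul two_ne_zero hq.ne', hl2] at this
      linarith

/-- a sum of nonnegative terms is comparable with its largest term -/
theorem exists_big {K : ℕ} (E : Finset (Fin K)) (w : Fin K → ℝ) (hw : ∀ i, 0 ≤ w i)
    (h : 0 < ∑ i ∈ E, w i) : ∃ j ∈ E, 0 < w j ∧ w j ≤ ∑ i ∈ E, w i ∧ ∑ i ∈ E, w i ≤ K * w j := by
  have hne : E.Nonempty := by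
    rw [Finset.nonempty_iff_ne_empty]
    rintro rfl
    simp at h
  obtain ⟨j, hj, hmax⟩ := E.exists_max_image w hne
  have h1 : ∑ i ∈ E, w i ≤ K * w j := by
    calc ∑ i ∈ E, w i ≤ ∑ i ∈ E, w j := Finset.sum_le_sum fun i hi => hmax i hi
      _ = E.card * w j := by rw [Finset.sum_const, nsmul_eq_mul]
      _ ≤ K * w j := by
        apply mul_le_mul_of_nonneg_right _ (hw j)
        have := Finset.card_le_univ E
        rw [Fintype.card_fin] at this
        exact_mod_cast this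
  refine ⟨j, hj, ?_, Finset.single_le_sum (fun i _ => hw i) hj, h1⟩
  by_contra hc
  have : w j = 0 := le_antisymm (not_lt.1 hc) (hw j)
  rw [this, mul_zero] at h1
  linarith

theorem PL.mono {a b δ δ' : ℝ} {N N' : ℕ} {f : ℝ → ℝ} (h : PL a b N δ f) (hN : N ≤ N')
    (hδ : δ ≤ δ') : PL a b N' δ' f := by
  obtain ⟨Z, hZ, h1⟩ := h
  refine ⟨Z, hZ.trans hN, fun y1 y2 ha hy hb hz => ?_⟩
  rcases h1 y1 y2 ha hy hb hz with h2 | h2
  · exact Or.inl fun y hy1 hy2 => (h2 y hy1 hy2).trans hδ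
  · exact Or.inr fun y hy1 hy2 => (h2 y hy1 hy2).trans hδ

/-- the cost in the linear range -/
theorem cst_split {K : ℕ} {s : Fin K → ℝ} {a b : ℝ} (hl : Lin s a b) {y : ℝ} (hay : a ≤ y)
    (hyb : y ≤ b) (g : Fin K → ℝ) :
    cst (cap s (2 ^ y)) g = ∑ i ∈ Finset.univ.filter (fun i => s i ≤ 2 ^ a), max (g i) 0 +
      2 ^ y * ∑ i ∈ Finset.univ.filter (fun i => ¬ s i ≤ 2 ^ a), max (g i) 0 / s i := by
  have h2a : (0 : ℝ) < 2 ^ a := Real.rpow_pos_of_pos two_pos a
  have hay' : (2 : ℝ) ^ a ≤ 2 ^ y := Real.rpow_le_rpow_of_exponent_le one_le_two hay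
  have hyb' : (2 : ℝ) ^ y ≤ 2 ^ b := Real.rpow_le_rpow_of_exponent_le one_le_two hyb
  unfold cst
  rw [← Finset.sum_filter_add_sum_filter_not Finset.univ (fun i => s i ≤ 2 ^ a), Finset.mul_sum]
  congr 1
  · refine Finset.sum_congr rfl fun i hi => ?_
    rw [Finset.mem_filter] at hi
    rw [cap, if_pos (hi.2.trans hay'), one_mul]
  · refine Finset.sum_congr rfl fun i hi => ?_
    rw [Finset.mem_filter] at hi
    have h1 : (2 : ℝ) ^ b ≤ s i := (hl i).resolve_left hi.2
    have h0 : 0 < s i := lt_trans h2a (not_le.1 hi.2)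
    have h3 : cap s (2 ^ y) i = 2 ^ y / s i := by
      unfold cap
      split_ifs with h
      · have : s i = 2 ^ y := le_antisymm h (hyb'.trans h1)
        rw [this, div_self (by rw [← this]; exact h0.ne')]
      · rfl
    rw [h3]; ring

end APL

open APL

theorem t_APL : S_CONF → S_DUAL → S_SELF → S_MX → S_SEL → S_APL := by
  intro hconf hdual hself hmx hsel
  refine ⟨40 * (Polynomial.X ^ 3 + 1) ^ 2 * (Polynomial.X + 1), ?_⟩
  intro K r V f s a b hs hab hl hfew hpos
  classical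
  obtain ⟨S, hS, hS'⟩ := hfew
  set E0 : Finset (Fin K) := Finset.univ.filter (fun i => s i ≤ 2 ^ a) with hE0
  set E1 : Finset (Fin K) := Finset.univ.filter (fun i => ¬ s i ≤ 2 ^ a) with hE1
  set Ag : (Fin K → ℝ) → ℝ := fun g => ∑ i ∈ E0, max (g i) 0 with hAg
  set Bg : (Fin K → ℝ) → ℝ := fun g => ∑ i ∈ E1, max (g i) 0 / s i with hBg
  have h2a : (0 : ℝ) < 2 ^ a := Real.rpow_pos_of_pos two_pos a
  have h2p : ∀ y : ℝ, (0 : ℝ) < 2 ^ y := fun y => Real.rpow_pos_of_pos two_pos y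
  have hs1 : ∀ i ∈ E1, 0 < s i := by
    intro i hi
    rw [hE1, Finset.mem_filter] at hi
    exact lt_trans h2a (not_le.1 hi.2)
  have hAnn : ∀ g, 0 ≤ Ag g := fun g => Finset.sum_nonneg fun i _ => le_max_right _ _
  have hBnn : ∀ g, 0 ≤ Bg g := fun g => Finset.sum_nonneg fun i hi =>
    div_nonneg (le_max_right _ _) (hs1 i hi).le
  set cost : (Fin K → ℝ) → ℝ → ℝ := fun g y => cst (cap s (2 ^ y)) g with hcost
  have hsplit : ∀ g y, a ≤ y → y ≤ b → cost g y = Ag g + 2 ^ y * Bg g := by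
    intro g y hay hyb
    exact cst_split hl hay hyb g
  set M : ℝ → ℝ := fun y => mx V s f (2 ^ y) with hM
  have hMpos : ∀ y, a ≤ y → 0 < M y := by
    intro y hay
    have h1 := (hmx K V s f hs (2 ^ a) h2a).2.2.2 (2 ^ y)
      (Real.rpow_le_rpow_of_exponent_le one_le_two hay)
    exact lt_of_lt_of_le hpos h1.1
  set GG : (Fin K → ℝ) → Prop := fun g => Ele (ann (ker1 V f)) g ∧ Nrm V f g with hGG
  have hweak : ∀ g, GG g → ∀ y, M y ≤ cost g y := by
    intro g hg y
    obtain ⟨⟨x, hx, hx'⟩, -⟩ := hmx K V s f hs (2 ^ y) (h2p y)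
    rw [hM]
    simp only
    rw [← hx']
    exact weak hg.2 hx
  -- the three kinds of classes
  obtain ⟨c0, hc0⟩ := cls (fun g => GG g ∧ Ag g = 0 ∧ 0 < Bg g) Bg cost (fun y => 2 ^ y) M 1 a b
    le_rfl (fun g hg => hg.2.2) (fun y _ _ => h2p y)
    (fun g hg y hay hyb => by
      rw [hsplit g y hay hyb, hg.2.1, zero_add, one_mul]
      exact ⟨by linarith [mul_comm (Bg g) ((2 : ℝ) ^ y)], by linarith [mul_comm (Bg g) ((2 : ℝ) ^ y)]⟩)
    (fun g hg y _ _ => hweak g hg.1 y)
  obtain ⟨c1, hc1⟩ := cls (fun g => GG g ∧ Bg g = 0 ∧ 0 < Ag g) Ag cost (fun y => 1) M 1 a b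
    le_rfl (fun g hg => hg.2.2) (fun y _ _ => one_pos)
    (fun g hg y hay hyb => by
      rw [hsplit g y hay hyb, hg.2.1]
      exact ⟨by linarith, by linarith⟩)
    (fun g hg y _ _ => hweak g hg.1 y)
  have hcl : ∀ (j l : Fin K) (σ : ℝ), ∃ c : ℝ, ∀ y, a ≤ y → y ≤ b → ∀ g,
      (GG g ∧ 0 < g j ∧ 0 < g l ∧ 0 < s l ∧ 0 < σ ∧ g j ≤ Ag g ∧ Ag g ≤ K * g j ∧
        g l / s l ≤ Bg g ∧ Bg g ≤ K * (g l / s l) ∧ σ ≤ g j / g l ∧ g j / g l ≤ 2 ^ r * σ) →
      cost g y ≤ M y →
      |Real.logb 2 (M y) - (c + Real.logb 2 (1 + 2 ^ y / (σ * s l)))| ≤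
        Real.logb 2 (K * 2 ^ r) := by
    intro j l σ
    by_cases hτ : 0 < s l ∧ 0 < σ
    swap
    · exact ⟨0, fun y _ _ g hg => absurd ⟨hg.2.2.2.1, hg.2.2.2.2.1⟩ hτ⟩
    obtain ⟨hsl, hσ⟩ := hτ
    have hτ : 0 < σ * s l := mul_pos hσ hsl
    have hK1 : (1 : ℝ) ≤ K := by
      have := j.pos
      exact_mod_cast this
    refine cls (fun g => GG g ∧ 0 < g j ∧ 0 < g l ∧ 0 < s l ∧ 0 < σ ∧ g j ≤ Ag g ∧
        Ag g ≤ K * g j ∧ g l / s l ≤ Bg g ∧ Bg g ≤ K * (g l / s l) ∧ σ ≤ g j / g l ∧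
        g j / g l ≤ 2 ^ r * σ) (fun g => g j / 2 ^ r) cost (fun y => 1 + 2 ^ y / (σ * s l)) M
        (K * 2 ^ r) a b ?_ ?_ ?_ ?_ ?_
    · have : (1 : ℝ) ≤ 2 ^ r := one_le_pow₀ one_le_two
      nlinarith
    · intro g hg
      exact div_pos hg.2.1 (by positivity)
    · intro y _ _
      have := h2p y
      positivity
    · rintro g ⟨-, hj, hgl, -, -, hA1, hA2, hB1, hB2, hr1, hr2⟩ y hay hyb
      have hy := h2p y
      have e1 : g j ≤ 2 ^ r * σ * g l := by rwa [div_le_iff₀ hgl] at hr2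
      have e2 : σ * g l ≤ g j := by rwa [le_div_iff₀ hgl] at hr1
      have e3 : g j / (2 ^ r * (σ * s l)) ≤ g l / s l := by
        rw [div_le_div_iff₀ (by positivity) hsl]
        nlinarith
      have e4 : g l / s l ≤ g j / (σ * s l) := by
        rw [div_le_div_iff₀ hsl (by positivity)]
        nlinarith
      have hr1 : (1 : ℝ) ≤ 2 ^ r := one_le_pow₀ one_le_two
      have e5 : g j / 2 ^ r ≤ g j := div_le_self hj.le hr1
      rw [hsplit g y hay hyb]
      constructor
      · calc g j / 2 ^ r * (1 + 2 ^ y / (σ * s l))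
            = g j / 2 ^ r + 2 ^ y * (g j / (2 ^ r * (σ * s l))) := by field_simp
          _ ≤ g j + 2 ^ y * (g l / s l) :=
            add_le_add e5 (mul_le_mul_of_nonneg_left e3 hy.le)
          _ ≤ Ag g + 2 ^ y * Bg g := add_le_add hA1 (mul_le_mul_of_nonneg_left hB1 hy.le)
      · calc Ag g + 2 ^ y * Bg g ≤ K * g j + 2 ^ y * (K * (g l / s l)) :=
            add_le_add hA2 (mul_le_mul_of_nonneg_left hB2 hy.le)
          _ ≤ K * g j + 2 ^ y * (K * (g j / (σ * s l))) := by
            gcongr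
          _ = K * 2 ^ r * (g j / 2 ^ r * (1 + 2 ^ y / (σ * s l))) := by field_simp
    · intro g hg y _ _
      exact hweak g hg.1 y
  choose c2 hc2 using hcl
  -- the lines
  set Lns : Finset (ℝ × Bool) := ({(c0, true), (c1, false)} : Finset (ℝ × Bool)) ∪
    Finset.univ.biUnion fun j : Fin K => Finset.univ.biUnion fun l : Fin K =>
      (S l j).biUnion fun σ =>
        ({(c2 j l σ, false), (c2 j l σ - Real.logb 2 (σ * s l), true)} : Finset (ℝ × Bool))
    with hLns
  have hcard : Lns.card ≤ 2 + K * (K * (r * 2)) := by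
    refine (Finset.card_union_le _ _).trans (add_le_add Finset.card_le_two ?_)
    refine (Finset.card_biUnion_le_card_mul _ _ (K * (r * 2)) fun j _ => ?_).trans ?_
    · refine (Finset.card_biUnion_le_card_mul _ _ (r * 2) fun l _ => ?_).trans ?_
      · refine (Finset.card_biUnion_le_card_mul _ _ 2 fun σ _ => Finset.card_le_two).trans ?_
        exact Nat.mul_le_mul_right _ (hS l j).1
      · rw [Finset.card_univ, Fintype.card_fin]
    · rw [Finset.card_univ, Fintype.card_fin]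
  have hnear : ∀ y, a ≤ y → y ≤ b → ∃ p ∈ Lns,
      |lmx V s f y - (p.1 + if p.2 then y else 0)| ≤ (r : ℝ) + K + 1 := by
    intro y hay hyb
    obtain ⟨g, hg1, hg2, hg3⟩ := opt hconf hdual hmx hs (h2p y) (hMpos y hay)
    have hgG : GG g := ⟨hg1, hg2⟩
    have hgc : cost g y ≤ M y := hg3
    have hδ : (0 : ℝ) ≤ (r : ℝ) + K + 1 := by positivity
    rcases (hAnn g).eq_or_lt with hA | hA
    · rcases (hBnn g).eq_or_lt with hB | hB
      · exfalso
        have h0 := hweak g hgG y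
        rw [hsplit g y hay hyb, ← hA, ← hB, mul_zero, add_zero] at h0
        exact absurd h0 (not_le.2 (hMpos y hay))
      · refine ⟨(c0, true), ?_, ?_⟩
        · rw [hLns]; simp
        · have h1 := hc0 y hay hyb g ⟨hgG, hA.symm, hB⟩ hgc
          rw [Real.logb_one, Real.logb_rpow two_pos (by norm_num)] at h1
          exact h1.trans hδ
    · rcases (hBnn g).eq_or_lt with hB | hB
      · refine ⟨(c1, false), ?_, ?_⟩
        · rw [hLns]; simp
        · have h1 := hc1 y hay hyb g ⟨hgG, hB.symm, hA⟩ hgc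
          rw [Real.logb_one] at h1
          exact h1.trans hδ
      · obtain ⟨j, hj, hj1, hj2, hj3⟩ := exists_big E0 (fun i => max (g i) 0)
          (fun i => le_max_right _ _) hA
        obtain ⟨l, hlE, hl1, hl2, hl3⟩ := exists_big E1 (fun i => max (g i) 0 / max (s i) 0)
          (fun i => div_nonneg (le_max_right _ _) (le_max_right _ _)) (by
            refine lt_of_lt_of_eq hB (Finset.sum_congr rfl fun i hi => ?_)
            rw [max_eq_left (hs1 i hi).le])
        have hsum : ∑ i ∈ E1, max (g i) 0 / max (s i) 0 = Bg g :=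
          Finset.sum_congr rfl fun i hi => by rw [max_eq_left (hs1 i hi).le]
        rw [hsum] at hl2 hl3
        have hsl := hs1 l hlE
        simp only [max_eq_left hsl.le] at hl1 hl2 hl3
        have hgj : 0 < g j := by
          by_contra hc
          simp only [max_eq_right (not_lt.1 hc)] at hj1
          exact lt_irrefl _ hj1
        have hgl : 0 < g l := by
          by_contra hc
          rw [max_eq_right (not_lt.1 hc), zero_div] at hl1
          exact lt_irrefl _ hl1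
        simp only [max_eq_left hgj.le] at hj1 hj2 hj3
        rw [max_eq_left hgl.le] at hl1 hl2 hl3
        have hjl : j ≠ l := by
          rintro rfl
          rw [hE0, Finset.mem_filter] at hj
          rw [hE1, Finset.mem_filter] at hlE
          exact hlE.2 hj.2
        obtain ⟨C, hC, hCj, hCl, hrat⟩ := hself K (ker1 V f) g hg1 j l hjl hgj.ne' hgl.ne'
        obtain ⟨σ, hσ, hσ1, hσ2⟩ := hS' C hC l j hCl hCj
        rw [← hrat, abs_of_pos (div_pos hgj hgl)] at hσ1 hσ2
        have hσ0 := (hS l j).2 σ hσ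
        have h1 := hc2 j l σ y hay hyb g ⟨hgG, hgj, hgl, hsl, hσ0, hj2, hj3, hl2, hl3, hσ1, hσ2⟩ hgc
        have hKr : Real.logb 2 (K * 2 ^ r) ≤ r + K := by
          have hK0 : (0 : ℝ) < K := by
            have := j.pos
            exact_mod_cast this
          rw [Real.logb_mul hK0.ne' (by positivity), Real.logb_pow,
            Real.logb_self_eq_one one_lt_two, mul_one]
          have h5 : Real.logb 2 (K : ℝ) ≤ K := by
            rw [Real.logb_le_iff_le_rpow one_lt_two hK0, Real.rpow_natCast]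
            exact_mod_cast Nat.lt_two_pow_self.le
          linarith
        rcases log_one_add (mul_pos hσ0 hsl) y with h6 | h6
        · refine ⟨(c2 j l σ, false), ?_, ?_⟩
          · rw [hLns]
            simp only [Finset.mem_union, Finset.mem_biUnion, Finset.mem_univ, true_and]
            exact Or.inr ⟨j, l, σ, hσ, by simp⟩
          · have h7 : lmx V s f y - (c2 j l σ + 0) =
                (Real.logb 2 (M y) - (c2 j l σ + Real.logb 2 (1 + 2 ^ y / (σ * s l)))) +
                (Real.logb 2 (1 + 2 ^ y / (σ * s l)) - 0) := by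
              rw [hM]; unfold lmx; ring
            simp only [Bool.false_eq_true, if_false]
            rw [h7]
            refine (abs_add_le _ _).trans ?_
            linarith
        · refine ⟨(c2 j l σ - Real.logb 2 (σ * s l), true), ?_, ?_⟩
          · rw [hLns]
            simp only [Finset.mem_union, Finset.mem_biUnion, Finset.mem_univ, true_and]
            exact Or.inr ⟨j, l, σ, hσ, by simp⟩
          · have h7 : lmx V s f y - (c2 j l σ - Real.logb 2 (σ * s l) + y) =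
                (Real.logb 2 (M y) - (c2 j l σ + Real.logb 2 (1 + 2 ^ y / (σ * s l)))) +
                (Real.logb 2 (1 + 2 ^ y / (σ * s l)) - (y - Real.logb 2 (σ * s l))) := by
              rw [hM]; unfold lmx; ring
            simp only [if_true]
            rw [h7]
            refine (abs_add_le _ _).trans ?_
            linarith
  -- monotonicity and the Lipschitz property
  have hlip : ∀ y y', a ≤ y → y ≤ y' → y' ≤ b →
      lmx V s f y ≤ lmx V s f y' ∧ lmx V s f y' - lmx V s f y ≤ y' - y := by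
    intro y y' hay hyy hyb
    have h1 := (hmx K V s f hs (2 ^ y) (h2p y)).2.2.2 (2 ^ y')
      (Real.rpow_le_rpow_of_exponent_le one_le_two hyy)
    have p1 := hMpos y hay
    have p2 := hMpos y' (hay.trans hyy)
    constructor
    · exact Real.logb_le_logb_of_le one_lt_two p1 h1.1
    · have h2 : (0 : ℝ) < 2 ^ y / 2 ^ y' := div_pos (h2p y) (h2p y')
      have h3 := Real.logb_le_logb_of_le (b := 2) one_lt_two (mul_pos h2 p2) h1.2.1
      rw [Real.logb_mul h2.ne' p2.ne', Real.logb_div (h2p y).ne' (h2p y').ne',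
        Real.logb_rpow two_pos (by norm_num), Real.logb_rpow two_pos (by norm_num)] at h3
      change Real.logb 2 (M y') - Real.logb 2 (M y) ≤ _
      linarith
  -- conclusion
  set k := Lns.card with hk
  let e := Lns.equivFin
  have hδ : (0 : ℝ) ≤ (r : ℝ) + K + 1 := by positivity
  have hPL := hsel a b ((r : ℝ) + K + 1) k (lmx V s f) (fun i => (e.symm i).1.1)
    (fun i => (e.symm i).1.2) hδ hlip (by
      intro y hay hyb
      obtain ⟨p, hp, hp'⟩ := hnear y hay hyb
      refine ⟨e ⟨p, hp⟩, ?_⟩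
      simp only [Equiv.symm_apply_apply]
      exact hp')
  have hev : (40 * (Polynomial.X ^ 3 + 1) ^ 2 * (Polynomial.X + 1) : Polynomial ℕ).eval (K + r) =
      40 * ((K + r) ^ 3 + 1) ^ 2 * ((K + r) + 1) := by
    simp
  have hk2 : k ≤ 2 * ((K + r) ^ 3 + 1) := by
    refine hcard.trans ?_
    have h1 : K * (K * r) ≤ (K + r) ^ 3 := by
      calc K * (K * r) ≤ (K + r) * ((K + r) * (K + r)) :=
            Nat.mul_le_mul (Nat.le_add_right _ _) (Nat.mul_le_mul (Nat.le_add_right _ _)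
              (Nat.le_add_left _ _))
        _ = (K + r) ^ 3 := by ring
    calc 2 + K * (K * (r * 2)) = 2 + 2 * (K * (K * r)) := by ring
      _ ≤ 2 + 2 * (K + r) ^ 3 := by omega
      _ = _ := by ring
  rw [hev]
  set n := K + r with hn
  set B := n ^ 3 + 1 with hB
  have hB1 : 1 ≤ B := by omega
  refine PL.mono hPL ?_ ?_
  · calc 2 * k * k ≤ 2 * (2 * B) * (2 * B) := by gcongr
      _ = 8 * B ^ 2 * 1 := by ring
      _ ≤ 40 * B ^ 2 * (n + 1) := by
        apply Nat.mul_le_mul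
        · omega
        · omega
  · have h1 : (20 : ℝ) * k * ((r : ℝ) + K + 1) ≤ 20 * (2 * B : ℕ) * ((n : ℝ) + 1) := by
      have h2 : (k : ℝ) ≤ (2 * B : ℕ) := by exact_mod_cast hk2
      have h3 : (r : ℝ) + K + 1 = n + 1 := by rw [hn]; push_cast; ring
      rw [h3]
      have h4 : (0 : ℝ) ≤ (n : ℝ) + 1 := by positivity
      gcongr
    refine h1.trans ?_
    have h5 : 20 * (2 * B) * (n + 1) ≤ 40 * B ^ 2 * (n + 1) := by
      apply Nat.mul_le_mul_right
      nlinarith
    exact_mod_cast h5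

end Pool.Agent.Y648.CS.V
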