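import Pool.Agent.Y648.CX.Stm

set_option autoImplicit false

/-!
Task X1 of project Y648, part 1: conformal decomposition (`S_CONF`).
-/

namespace Pool.Agent.Y648.CS.V

open Matrix

namespace Conf

variable {K : ℕ}

/-- The support. -/
noncomputable def supp (u : Fin K → ℝ) : Finset (Fin K) := Finset.univ.filter (fun i => u i ≠ 0)

lemma mem_supp (u : Fin K → ℝ) (i : Fin K) : i ∈ supp u ↔ u i ≠ 0 := by
  simp [supp]

lemma conf_trans {a b c : ℝ} (h1 : 0 ≤ a * b) (h2 : 0 ≤ b * c) (h3 : b = 0 → a = 0) :
    0 ≤ a * c := by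
  by_cases hb : b = 0
  · rw [h3 hb, zero_mul]
  · have h4 : 0 < b ^ 2 := by positivity
    have h5 : 0 ≤ (a * c) * b ^ 2 := by nlinarith
    by_contra h
    push Not at h
    nlinarith

/-- Moving along `-D` until a coordinate vanishes. -/
lemma move (u D : Fin K → ℝ) (i₁ : Fin K) (hi : 0 < D i₁ * u i₁)
    (hsub : ∀ i, u i = 0 → D i = 0) :
    ∃ l : ℝ, 0 < l ∧ (∀ i, 0 ≤ (u i - l * D i) * u i) ∧ (∃ i, u i ≠ 0 ∧ u i - l * D i = 0) := by
  classical
  set P : Finset (Fin K) := Finset.univ.filter (fun i => 0 < D i * u i) with hP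
  have hPne : P.Nonempty := ⟨i₁, by simp [hP, hi]⟩
  obtain ⟨i₀, hi₀, hmin⟩ := P.exists_min_image (fun i => u i / D i) hPne
  have h0 : 0 < D i₀ * u i₀ := by simpa [hP] using hi₀
  have hD0 : D i₀ ≠ 0 := by
    intro h
    rw [h, zero_mul] at h0
    exact lt_irrefl _ h0
  have hu0 : u i₀ ≠ 0 := by
    intro h
    rw [h, mul_zero] at h0
    exact lt_irrefl _ h0
  have hl : 0 < u i₀ / D i₀ := by
    have h1 : u i₀ / D i₀ = (D i₀ * u i₀) / (D i₀) ^ 2 := by field_simp
    rw [h1]
    positivity
  refine ⟨u i₀ / D i₀, hl, ?_, i₀, hu0, ?_⟩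
  · intro i
    by_cases hp : 0 < D i * u i
    · have h1 := hmin i (by simp [hP, hp])
      have hDi : D i ≠ 0 := by
        intro h
        rw [h, zero_mul] at hp
        exact lt_irrefl _ hp
      have h2 : (u i - u i₀ / D i₀ * D i) * u i = (D i * u i) * (u i / D i - u i₀ / D i₀) := by
        field_simp
      rw [h2]
      exact mul_nonneg hp.le (by linarith)
    · push Not at hp
      have h2 : (u i - u i₀ / D i₀ * D i) * u i = u i ^ 2 - (u i₀ / D i₀) * (D i * u i) := by ring
      rw [h2]
      have := mul_nonneg hl.le (neg_nonneg.2 hp)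
      nlinarith [sq_nonneg (u i)]
  · field_simp
    ring

/-- A conformal elementary vector. -/
lemma elem (U : Submodule ℝ (Fin K → ℝ)) : ∀ (n : ℕ) (u : Fin K → ℝ), (supp u).card ≤ n →
    u ∈ U → u ≠ 0 →
    ∃ v, Ele U v ∧ (∀ i, 0 ≤ v i * u i) ∧ (∀ i, u i = 0 → v i = 0) := by
  intro n
  induction n with
  | zero =>
    intro u hn _ hu0
    exfalso
    apply hu0
    funext i
    have : supp u = ∅ := Finset.card_eq_zero.1 (Nat.le_zero.1 hn)
    by_contra h
    have h2 : i ∈ supp u := (mem_supp u i).2 h
    rw [this] at h2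
    simp at h2
  | succ n ih =>
    intro u hn hu hu0
    by_cases hel : ∀ D ∈ U, (∀ i, u i = 0 → D i = 0) → ∃ l : ℝ, D = l • u
    · exact ⟨u, ⟨hu, hu0, hel⟩, fun i => mul_self_nonneg _, fun i h => h⟩
    · push Not at hel
      obtain ⟨D, hD, hsub, hne⟩ := hel
      -- choose the sign of D
      obtain ⟨E, hE, hEsub, hEne, i₁, hi₁⟩ : ∃ E ∈ U, (∀ i, u i = 0 → E i = 0) ∧
          (∀ l : ℝ, E ≠ l • u) ∧ ∃ i, 0 < E i * u i := by
        have hD0 : D ≠ 0 := by
          intro h
          apply hne 0
          rw [h, zero_smul]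
        obtain ⟨i, hi⟩ : ∃ i, D i ≠ 0 := by
          by_contra h
          push Not at h
          exact hD0 (funext h)
        have hui : u i ≠ 0 := fun h => hi (hsub i h)
        rcases lt_or_gt_of_ne (mul_ne_zero hi hui) with h | h
        · refine ⟨-D, U.neg_mem hD, fun j hj => ?_, fun l hl => ?_, i, ?_⟩
          · rw [Pi.neg_apply, hsub j hj, neg_zero]
          · apply hne (-l)
            rw [neg_smul, ← hl, neg_neg]
          · rw [Pi.neg_apply, neg_mul]
            linarith
        · exact ⟨D, hD, hsub, hne, i, h⟩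
      obtain ⟨l, hl, hconf, i₀, hi₀, hi₀'⟩ := move u E i₁ hi₁ hEsub
      set u' : Fin K → ℝ := u - l • E with hu'
      have hu'i : ∀ i, u' i = u i - l * E i := fun i => rfl
      have hu'U : u' ∈ U := U.sub_mem hu (U.smul_mem l hE)
      have hu'0 : u' ≠ 0 := by
        intro h
        apply hEne l⁻¹
        have h1 : u = l • E := sub_eq_zero.1 h
        rw [h1, smul_smul, inv_mul_cancel₀ hl.ne', one_smul]
      have hss : supp u' ⊂ supp u := by
        refine ⟨fun i hi => ?_, fun h => ?_⟩
        · rw [mem_supp] at hi ⊢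
          intro h
          apply hi
          rw [hu'i, h, hEsub i h, mul_zero, sub_zero]
        · have h1 := h ((mem_supp u i₀).2 hi₀)
          rw [mem_supp] at h1
          exact h1 hi₀'
      have hcard : (supp u').card ≤ n := by
        have := Finset.card_lt_card hss
        omega
      obtain ⟨v, hv, hv1, hv2⟩ := ih u' hcard hu'U hu'0
      refine ⟨v, hv, fun i => conf_trans (hv1 i) (hconf i) (hv2 i), fun i hi => hv2 i ?_⟩
      rw [hu'i, hi, hEsub i hi, mul_zero, sub_zero]

lemma decomp (U : Submodule ℝ (Fin K → ℝ)) : ∀ (n : ℕ) (u : Fin K → ℝ), (supp u).card ≤ n →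
    u ∈ U →
    ∃ C : Fin n → Fin K → ℝ, (∀ k, C k = 0 ∨ Ele U (C k)) ∧
      (∀ k i, 0 ≤ C k i * u i ∧ |C k i| ≤ |u i|) ∧ u = ∑ k, C k := by
  intro n
  induction n with
  | zero =>
    intro u hn hu
    refine ⟨fun _ _ => 0, fun k => k.elim0, fun k => k.elim0, ?_⟩
    rw [Finset.univ_eq_empty, Finset.sum_empty]
    funext i
    have : supp u = ∅ := Finset.card_eq_zero.1 (Nat.le_zero.1 hn)
    by_contra h
    have h2 : i ∈ supp u := (mem_supp u i).2 h
    rw [this] at h2
    simp at h2
  | succ n ih =>
    intro u hn hu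
    by_cases hu0 : u = 0
    · refine ⟨fun _ _ => 0, fun k => Or.inl rfl, fun k i => ?_, ?_⟩
      · simp
      · rw [hu0]
        symm
        apply Finset.sum_eq_zero
        intro k _
        rfl
    · obtain ⟨v, hv, hv1, hv2⟩ := elem U _ u le_rfl hu hu0
      obtain ⟨i₁, hi₁⟩ : ∃ i, v i ≠ 0 := by
        by_contra h
        push Not at h
        exact hv.2.1 (funext h)
      have hpos : 0 < v i₁ * u i₁ := by
        refine lt_of_le_of_ne (hv1 i₁) (Ne.symm (mul_ne_zero hi₁ fun h => hi₁ (hv2 i₁ h)))
      obtain ⟨l, hl, hconf, i₀, hi₀, hi₀'⟩ := move u v i₁ hpos hv2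
      set u' : Fin K → ℝ := u - l • v with hu'
      have hu'i : ∀ i, u' i = u i - l * v i := fun i => rfl
      have hu'U : u' ∈ U := U.sub_mem hu (U.smul_mem l hv.1)
      have hss : supp u' ⊂ supp u := by
        refine ⟨fun i hi => ?_, fun h => ?_⟩
        · rw [mem_supp] at hi ⊢
          intro h
          apply hi
          rw [hu'i, h, hv2 i h, mul_zero, sub_zero]
        · have h1 := h ((mem_supp u i₀).2 hi₀)
          rw [mem_supp] at h1
          exact h1 hi₀'
      have hcard : (supp u').card ≤ n := by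
        have := Finset.card_lt_card hss
        omega
      obtain ⟨C, hC1, hC2, hC3⟩ := ih u' hcard hu'U
      -- bounds between u' and u
      have hb1 : ∀ i, |u' i| ≤ |u i| := by
        intro i
        rw [← sq_le_sq]
        have h1 := hconf i
        rw [← hu'i] at h1
        have h2 := mul_nonneg hl.le (hv1 i)
        have h3 : u' i = u i - l * v i := hu'i i
        -- u'^2 = u' (u - l v) = u' u - l v u'
        have h4 : 0 ≤ (l * v i) * u' i := by
          have h5 : 0 ≤ u i * u' i := by linarith
          refine conf_trans (b := u i) ?_ h5 ?_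
          · linarith
          · intro h
            rw [hv2 i h, mul_zero]
        have h6 : u i ^ 2 = u' i ^ 2 + 2 * ((l * v i) * u' i) + (l * v i) ^ 2 := by
          rw [h3]
          ring
        have h7 := sq_nonneg (l * v i)
        linarith
      have hb2 : ∀ i, |l * v i| ≤ |u i| := by
        intro i
        rw [← sq_le_sq]
        have h1 := hconf i
        have h2 := mul_nonneg hl.le (hv1 i)
        have h4 : 0 ≤ (l * v i) * (u i - l * v i) := by
          have h5 : 0 ≤ u i * (u i - l * v i) := by linarith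
          refine conf_trans (b := u i) ?_ h5 ?_
          · linarith
          · intro h
            rw [hv2 i h, mul_zero]
        have h6 : u i ^ 2 = (u i - l * v i) ^ 2 + 2 * ((l * v i) * (u i - l * v i)) +
            (l * v i) ^ 2 := by
          ring
        have h7 := sq_nonneg (u i - l * v i)
        linarith
      refine ⟨Fin.cons (l • v) C, ?_, ?_, ?_⟩
      · intro k
        refine Fin.cases ?_ (fun k => ?_) k
        · right
          rw [Fin.cons_zero]
          refine ⟨U.smul_mem l hv.1, smul_ne_zero hl.ne' hv.2.1, fun D hD hsub => ?_⟩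
          obtain ⟨c, hc⟩ := hv.2.2 D hD (fun i hi => hsub i (by
            rw [Pi.smul_apply, hi, smul_zero]))
          refine ⟨c * l⁻¹, ?_⟩
          rw [hc, smul_smul, mul_assoc, inv_mul_cancel₀ hl.ne', mul_one]
        · rw [Fin.cons_succ]
          exact hC1 k
      · intro k i
        refine Fin.cases ?_ (fun k => ?_) k
        · rw [Fin.cons_zero, Pi.smul_apply, smul_eq_mul]
          refine ⟨?_, hb2 i⟩
          rw [mul_assoc]
          exact mul_nonneg hl.le (hv1 i)
        · rw [Fin.cons_succ]
          obtain ⟨h1, h2⟩ := hC2 k i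
          refine ⟨?_, h2.trans (hb1 i)⟩
          refine conf_trans h1 ?_ ?_
          · have := hconf i
            rwa [← hu'i] at this
          · intro h
            rw [h, abs_zero] at h2
            exact abs_eq_zero.1 (le_antisymm h2 (abs_nonneg _))
      · rw [Fin.sum_univ_succ, Fin.cons_zero]
        simp only [Fin.cons_succ]
        rw [← hC3, hu']
        abel

end Conf

theorem t_CONF : S_CONF := by
  intro K U u hu
  refine Conf.decomp U K u ?_ hu
  refine (Finset.card_le_univ _).trans ?_
  rw [Fintype.card_fin]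

end Pool.Agent.Y648.CS.V
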