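import Pool.Agent.Y648.CX.Stm

set_option autoImplicit false

/-!
# Scales of circuit ratios after adding one column, or after removing one column

A second case: the space `V` is a hyperplane in a space with few scales. Both cases lead to a
common statement.
-/

namespace Pool.Agent.Y648.CS.V

open Matrix Pool.Agent.NPC Pool.Agent.H558R2 Pool.Agent.H622R3.SM Pool.Agent.W920.FC

/-- The structure of the maxima of all coordinates, for `t ≥ 2 ^ y₀`. -/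
def Pie (N : ℕ) {K : ℕ} (V : Submodule ℝ (Fin K → ℝ)) (s : Fin K → ℝ) (y₀ : ℝ) : Prop :=
  ∃ (Z : Finset ℝ) (F : Fin K → ℝ → ℝ), Z.card ≤ N ∧
    (∀ y₁ y₂ : ℝ, y₁ ≤ y₂ → (∀ z ∈ Z, z < y₁ ∨ y₂ < z) → ∃ σ : Fin K → Bool,
      ∀ e y, y₁ ≤ y → y ≤ y₂ → F e y = F e y₁ + if σ e then y - y₁ else 0) ∧
    ∀ y, y₀ ≤ y → ∀ e, 0 < mx V s (Pi.single e 1) (2 ^ y) →
      F e y ≤ lmx V s (Pi.single e 1) y ∧
      lmx V s (Pi.single e 1) y ≤ F e y + (N : ℝ)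

/-- All coordinates on an interval where the capacities are linear, if `V` has few scales and
`d` is arbitrary: the maximum of a coordinate on the hyperplane `ker1 V d`. -/
def S_HPL : Prop := ∃ q : Polynomial ℕ, ∀ (K r : ℕ) (V : Submodule ℝ (Fin K → ℝ))
  (d s : Fin K → ℝ) (a b : ℝ) (e : Fin K), (∀ i, 0 ≤ s i) → a ≤ b → Lin s a b → FewE r V →
  0 < mx (ker1 V d) s (Pi.single e 1) (2 ^ a) →
  PL a b (q.eval (K + r)) ((q.eval (K + r) : ℕ) : ℝ) (lmx (ker1 V d) s (Pi.single e 1))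

/-- From intervals to all `t ≥ t₀`. -/
def S_GLU : Prop := ∃ q : Polynomial ℕ, ∀ (K N : ℕ) (V : Submodule ℝ (Fin K → ℝ))
  (s : Fin K → ℝ) (y₀ : ℝ), (∀ i, 0 ≤ s i) →
  (∀ (a b : ℝ) (e : Fin K), a ≤ b → Lin s a b → 0 < mx V s (Pi.single e 1) (2 ^ a) →
    PL a b N (N : ℝ) (lmx V s (Pi.single e 1))) →
  Pie (q.eval (K + N)) V s y₀

/-- The second case. -/
def S_PIB : Prop := ∃ q : Polynomial ℕ, ∀ (K r : ℕ) (V : Submodule ℝ (Fin K → ℝ))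
  (d s : Fin K → ℝ) (y₀ : ℝ), (∀ i, 0 ≤ s i) → FewE r V →
  Pie (q.eval (K + r)) (ker1 V d) s y₀

/-- The restriction of `Ls` to `X`, enumerated by `φ`. -/
def Res (Ls : Submodule ℝ (ℕ → ℝ)) (X : Finset ℕ) {K : ℕ} (φ : Fin K → ℕ)
    (V : Submodule ℝ (Fin K → ℝ)) : Prop :=
  Function.Injective φ ∧ (∀ c, c ∈ X ↔ ∃ i, φ i = c) ∧
  ∀ x : Fin K → ℝ, x ∈ V ↔ ∃ v ∈ Ls, ∀ i, x i = v (φ i)

/-- The structure of the bounds along the path, for `t ≥ t₀`: common part. -/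
def S_FSG : Prop := ∀ (Ls : Submodule ℝ (ℕ → ℝ)) (X : Finset ℕ) (q nu N K : ℕ) (φ : Fin K → ℕ)
  (V : Submodule ℝ (Fin K → ℝ)) (t₀ : ℝ), 0 < t₀ → SpC Ls X q nu → Res Ls X φ V →
  (∀ s : Fin K → ℝ, (∀ i, 0 ≤ s i) → Pie N V s (Real.logb 2 t₀)) →
  ∃ (Z : Finset ℝ) (F : ℕ → ℝ → ℝ), Z.card ≤ N ∧
    Kink (insert q (insert nu X)) q nu F Z ∧
    ∀ (t : ℝ) (w : ℕ → ℝ) (M ε : ℝ) (x : ℕ → ℝ), t₀ ≤ t → Wts X q nu t w → 0 < ε → ε ≤ 1 →
      1 ≤ M → Bds Ls X q nu t w M → Cen Ls X q nu t w ε x →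
      ∀ e ∈ insert q (insert nu X), F e (Real.logb 2 t) ≤ Real.logb 2 (w e) ∧
        Real.logb 2 (w e) ≤ F e (Real.logb 2 t) + (((N + K : ℕ) : ℝ) +
          Real.logb 2 ((1 + M) / ε))

/-- The two cases: the vectors in `Ls` orthogonal to `a` have few scales, or `Ls` is the set of
the vectors orthogonal to `a` in a space with few scales (all in the coordinates in `X`). -/
def ScG (r : ℕ) (Ls : Submodule ℝ (ℕ → ℝ)) (X : Finset ℕ) : Prop :=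
  (∃ a : ℕ → ℝ, ScA r Ls X a) ∨
  ∃ (Lt : Submodule ℝ (ℕ → ℝ)) (a : ℕ → ℝ), ScA r Lt X 0 ∧
    (∀ x ∈ Ls, ∑ c ∈ X, a c * x c = 0 ∧ ∃ y ∈ Lt, ∀ c ∈ X, y c = x c) ∧
    ∀ y ∈ Lt, ∑ c ∈ X, a c * y c = 0 → ∃ x ∈ Ls, ∀ c ∈ X, x c = y c

/-- The structure of the bounds along the path, for `t ≥ t₀`, in both cases. -/
def S_FSC : Prop := ∃ p : Polynomial ℕ, ∀ (Ls : Submodule ℝ (ℕ → ℝ)) (X : Finset ℕ)
  (q nu r K : ℕ) (t₀ : ℝ), 0 < t₀ → SpC Ls X q nu → X.card + 2 ≤ K →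
  ScG r Ls X →
  ∃ (Z : Finset ℝ) (F : ℕ → ℝ → ℝ), Z.card ≤ p.eval (K + r) ∧
    Kink (insert q (insert nu X)) q nu F Z ∧
    ∀ (t : ℝ) (w : ℕ → ℝ) (M ε : ℝ) (x : ℕ → ℝ), t₀ ≤ t → Wts X q nu t w → 0 < ε → ε ≤ 1 →
      1 ≤ M → Bds Ls X q nu t w M → Cen Ls X q nu t w ε x →
      ∀ e ∈ insert q (insert nu X), F e (Real.logb 2 t) ≤ Real.logb 2 (w e) ∧
        Real.logb 2 (w e) ≤ F e (Real.logb 2 t) + (((p.eval (K + r) : ℕ) : ℝ) +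
          Real.logb 2 ((1 + M) / ε))

/-- The number of steps. -/
def S_CUTG : Prop := ∃ q : Polynomial ℕ, ∀ (m n p r : ℕ) (g : Reg → ℝ) (drop : List Bool)
  (T : ℕ → ℝ) (M : ℕ), ScG r (Lsp m n p g drop) (Xc m drop) →
  (∀ i < M, Cut m n p g drop (T i) (T (i + 1))) → M < q.eval (m + n + r)

/-! ### The result -/

/-- The left kernel of `A`. -/
def lker {m n : ℕ} (A : Matrix (Fin m) (Fin n) ℝ) : Submodule ℝ (Fin m → ℝ) :=
  LinearMap.ker (Matrix.vecMulLinear A)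

/-- `L` is a subspace of `L'` of codimension at most one. -/
def Hyp {m : ℕ} (L L' : Submodule ℝ (Fin m → ℝ)) : Prop :=
  L ≤ L' ∧ Module.finrank ℝ L' ≤ Module.finrank ℝ L + 1

/-- A space with few scales which contains the left kernel, or is contained in it, with codimension
at most one. -/
def NearE (r : ℕ) {m n : ℕ} (A : Matrix (Fin m) (Fin n) ℝ) : Prop :=
  ∃ L : Submodule ℝ (Fin m → ℝ), (Hyp L (lker A) ∨ Hyp (lker A) L) ∧ FewE r L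

/-- The scales in the two phases. -/
def S_SCG : Prop := ∀ (r m n : ℕ) (A : Matrix (Fin m) (Fin n) ℝ) (b : Fin m → ℝ),
  NearE r A →
  ScG (r + 1) (Lsp m n 0 (start A b) (dr0 m)) (Xc m (dr0 m)) ∧
  ∀ B : List Bool, ScG (r + 1) (Lsp m n 1 (start A b) (dr1 m B)) (Xc m (dr1 m B))

/-- There are at most `2 ^ m` supports of elementary vectors. -/
def S_TOTG : Prop := ∀ (m : ℕ) (L : Submodule ℝ (Fin m → ℝ)), FewE (2 ^ m) L

/-- The main theorem. -/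
def S_MAING : Prop := PolyControl W.algW ∧ OracleFree W.algW ∧
  ∃ p : Polynomial ℕ, ∀ m n : ℕ, 1 ≤ m → 1 ≤ n →
  ∀ (A : Matrix (Fin m) (Fin n) ℝ) (b : Fin m → ℝ) (r : ℕ), NearE r A →
  ∃ ans nums steps,
    run ∅ (W.algW m n) (p.eval (m + n + r)) [] (start A b) = some (ans, nums, steps) ∧
    (ans = true ↔ ∃ x : Fin n → ℝ, b ≤ A.mulVec x) ∧ steps ≤ p.eval (m + n + r) ∧
    ∀ (A' : Matrix (Fin m) (Fin n) ℚ) (b' : Fin m → ℚ), (∀ i j, ((A' i j : ℚ) : ℝ) = A i j) →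
      (∀ i, ((b' i : ℚ) : ℝ) = b i) →
      ∀ v ∈ nums, ∃ q : ℚ, (q : ℝ) = v ∧ bitLength q ≤ p.eval (inputLength A' b' + r)

end Pool.Agent.Y648.CS.V
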