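import Pool.Agent.Y648.CX.T_CUTA
import Pool.Agent.Y648.CX.StmB

set_option autoImplicit false

/-!
# The number of steps, both cases
-/

namespace Pool.Agent.Y648.CS.V

open Pool.Agent.NPC Pool.Agent.H558R2 Pool.Agent.H622R3.SM Pool.Agent.W920.FC
open TCUTC

theorem t_CUTG : S_LSP → S_GRD → S_GRV → S_CNT → S_FSC → S_CUTG := by
  intro hLSP hGRD hGRV hCNT hFSA
  obtain ⟨pF, hpF⟩ := hFSA
  obtain ⟨pp, hpp⟩ : ∃ pp : Polynomial ℕ, pp = pF.comp (2 * Polynomial.X + 2) := ⟨_, rfl⟩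
  refine ⟨2 * pp + (2 * pp + 1) * ((Polynomial.X + 4) ^ 2 * (2 * (2 * (Polynomial.X + 4) *
    (pp + 17 * (Polynomial.X + 4)) + 2 * (Polynomial.X + 4) ^ 2 +
      1024 * (Polynomial.X + 4) ^ 2) + 2)) + 1, ?_⟩
  intro m n p r g drop T M hSc hcut
  rcases Nat.eq_zero_or_pos M with rfl | hM
  · rw [Polynomial.eval_add, Polynomial.eval_one]
    omega
  have hTpos : ∀ i < M, 0 < T (i + 1) ∧ 2 * T (i + 1) ≤ T i := by
    intro i hi
    obtain ⟨w, β, x, _, _, _, _, h1, h2, _⟩ := hcut i hi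
    exact ⟨h1, h2⟩
  have hTM : 0 < T M := by
    have h1 := (hTpos (M - 1) (by omega)).1
    have h2 : M - 1 + 1 = M := by omega
    rwa [h2] at h1
  have hTge : ∀ j ≤ M, T M ≤ T (M - j) := by
    intro j
    induction j with
    | zero => intro _; exact le_rfl
    | succ j ih =>
      intro hj
      have h1 := ih (by omega)
      obtain ⟨h2, h3⟩ := hTpos (M - (j + 1)) (by omega)
      have h4 : M - (j + 1) + 1 = M - j := by omega
      rw [h4] at h2 h3
      linarith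
  have hTge' : ∀ i < M, T M ≤ T i := by
    intro i hi
    have h1 := hTge (M - i) (by omega)
    have h2 : M - (M - i) = i := by omega
    rwa [h2] at h1
  obtain ⟨l1, l2, l3, l4, l5, l6, l7⟩ := hLSP m n p g drop
  obtain ⟨Z, F, z1, z2, z3⟩ := hpF (Lsp m n p g drop) (Xc m drop) (m + m) (m + m + 1)
    r (m + m + 2) (T M) hTM l1 l3 hSc
  have hch : ∀ i, ∃ (w : ℕ → ℝ) (β : Fin (n + 2) → ℕ) (x : ℕ → ℝ), i < M →
      Wts (Xc m drop) (m + m) (m + m + 1) (T i) w ∧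
      Bds (Lsp m n p g drop) (Xc m drop) (m + m) (m + m + 1) (T i) w (MR m n) ∧
      Cen (Lsp m n p g drop) (Xc m drop) (m + m) (m + m + 1) (T i) w (epR m n) x ∧
      Greedy (cl m n p g) (un m n) (Acs m drop) w β ∧ 0 < T (i + 1) ∧ 2 * T (i + 1) ≤ T i ∧
      ∀ σ : ℕ → Bool, σ (m + m + 1) = false → σ (m + m) = true →
        ∃ k, β k ∈ Acs m drop ∧ ∃ c ∈ Acs m drop, (∀ l, β l ≠ c) ∧ σ (β k) ≠ σ c ∧
        (|cdet (cl m n p g) β| * w (β k) ≤
            2 ^ cC m n * (|cdet (cl m n p g) (Function.update β k c)| * w c) ∨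
          (σ (β k) = true ∧ σ c = false ∧ |cdet (cl m n p g) β| * w (β k) * (T (i + 1) / T i) ≤
            2 ^ cC m n * (|cdet (cl m n p g) (Function.update β k c)| * w c))) := by
    intro i
    by_cases hi : i < M
    · obtain ⟨w, β, x, h⟩ := hcut i hi
      exact ⟨w, β, x, fun _ => h⟩
    · exact ⟨fun _ => 0, fun _ => 0, fun _ => 0, fun h => absurd h hi⟩
  choose w β x h using hch
  have hep : 0 < epR m n := by unfold epR; positivity
  have hep1 : epR m n ≤ 1 := by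
    unfold epR
    exact pow_le_one₀ (by norm_num) (by norm_num)
  have hMR : 1 ≤ MR m n := by
    unfold MR
    exact one_le_pow₀ (by norm_num)
  obtain ⟨P, hP⟩ : ∃ P : ℕ, P = pF.eval (m + m + 2 + r) := ⟨_, rfl⟩
  obtain ⟨C, hCd⟩ : ∃ C : ℝ, C = ((P : ℕ) : ℝ) + Real.logb 2 ((1 + MR m n) / epR m n) :=
    ⟨_, rfl⟩
  have hC0 : 0 ≤ C := by
    have h1 : 0 ≤ Real.logb 2 ((1 + MR m n) / epR m n) := by
      refine Real.logb_nonneg (by norm_num) ?_
      rw [le_div_iff₀ hep]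
      nlinarith
    rw [hCd]
    positivity
  have hcore := core hGRD hGRV hCNT (cl m n p g) (un m n) (Acs m drop) l4 (m + m) (m + m + 1)
    Z F z2 C hC0 (cC m n) M T w β (by
      intro i hi
      obtain ⟨h1, h2, h3, h4, h5, h6, h7⟩ := h i hi
      refine ⟨?_, h4, ?_, h5, h6, h7⟩
      · intro c hc
        obtain ⟨_, _, _, t1, t2, t3, t4⟩ := h1
        rcases Finset.mem_insert.1 hc with rfl | hc
        · rw [t3]; exact t1
        · rcases Finset.mem_insert.1 hc with rfl | hc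
          · rw [t4]; exact one_pos
          · exact t2 c hc
      · rw [hCd, hP]
        exact z3 (T i) (w i) (MR m n) (epR m n) (x i) (hTge' i hi) h1 hep hep1 hMR h2 h3)
  obtain ⟨s, hs⟩ : ∃ s : ℝ, s = (m : ℝ) + n + r + 4 := ⟨_, rfl⟩
  have hm0 : (0 : ℝ) ≤ m := Nat.cast_nonneg _
  have hn0 : (0 : ℝ) ≤ n := Nat.cast_nonneg _
  have hr0 : (0 : ℝ) ≤ r := Nat.cast_nonneg _
  have hcC : (cC m n : ℝ) ≤ 1024 * s ^ 2 := by
    have h1 : (cC m n : ℝ) = 64 * ((cD m n : ℝ) * (cD m n : ℝ)) := by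
      unfold cC
      push_cast
      rfl
    have h2 : ((cD m n : ℕ) : ℝ) ≤ 4 * s := by
      have h1 : cD m n = 4 * m + n + 12 := by unfold cD cK; omega
      rw [h1, hs]
      push_cast
      linarith
    have h3 : (0 : ℝ) ≤ (cD m n : ℝ) := Nat.cast_nonneg _
    rw [h1]
    generalize (cD m n : ℝ) = d at h2 h3
    nlinarith
  have hc0 : (0 : ℝ) ≤ (cC m n : ℝ) := Nat.cast_nonneg _
  have hD0 : 0 ≤ Real.logb 2 (((n + 2).factorial : ℝ) * 2 ^ ((n + 2) * (n + 2))) := by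
    refine Real.logb_nonneg (by norm_num) ?_
    have h1 : (1 : ℝ) ≤ (n + 2).factorial := by
      exact_mod_cast Nat.one_le_iff_ne_zero.2 (n + 2).factorial_ne_zero
    have h2 : (1 : ℝ) ≤ 2 ^ ((n + 2) * (n + 2)) := one_le_pow₀ (by norm_num)
    exact one_le_mul_of_one_le_of_one_le h1 h2
  obtain ⟨Q, hQ⟩ : ∃ Q : ℕ, Q = pp.eval (m + n + r) := ⟨_, rfl⟩
  have hPQ : P ≤ Q := by
    rw [hP, hQ, hpp, Polynomial.eval_comp]
    refine pe_mono pF ?_
    simp only [Polynomial.eval_add, Polynomial.eval_mul, Polynomial.eval_X,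
      Polynomial.eval_ofNat]
    omega
  have hPQ' : (P : ℝ) ≤ (Q : ℝ) := by exact_mod_cast hPQ
  have hZb : (Z.card : ℝ) ≤ (Q : ℝ) := by
    have h1 : Z.card ≤ Q := (hP ▸ z1).trans hPQ
    exact_mod_cast h1
  generalize (cC m n : ℝ) = c₁ at hcC hc0 hcore
  have hnum := totalV s (Q : ℝ) Z.card ((n + 2 : ℕ) : ℝ) C _ c₁ (by linarith)
    (Nat.cast_nonneg _) (Nat.cast_nonneg _) hC0 hD0 hc0 (by push_cast; linarith)
    (by
      have := q_leV m n r s hs
      rw [hCd]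
      linarith) (by
      refine D_le (n + 2) s ?_
      push_cast
      linarith) hcC hZb
  have hfin := hcore.trans_lt hnum
  have hq : (((2 * pp + (2 * pp + 1) * ((Polynomial.X + 4) ^ 2 * (2 * (2 * (Polynomial.X + 4) *
    (pp + 17 * (Polynomial.X + 4)) + 2 * (Polynomial.X + 4) ^ 2 +
      1024 * (Polynomial.X + 4) ^ 2) + 2)) + 1 : Polynomial ℕ).eval (m + n + r) : ℕ) : ℝ) =
      2 * (Q : ℝ) + (2 * (Q : ℝ) + 1) * (s ^ 2 * (2 * (2 * s * ((Q : ℝ) + 17 * s) + 2 * s ^ 2 +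
        1024 * s ^ 2) + 2)) + 1 := by
    simp only [Polynomial.eval_mul, Polynomial.eval_pow, Polynomial.eval_add,
      Polynomial.eval_X, Polynomial.eval_ofNat, Polynomial.eval_one]
    rw [hs, hQ]
    push_cast
    ring
  rw [← hq] at hfin
  exact_mod_cast hfin

end Pool.Agent.Y648.CS.V
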