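import Pool.Agent.Y648.CX.T_NNEG

set_option autoImplicit false

/-!
# Duality for the maximum on a box
-/

namespace Pool.Agent.Y648.CS.V

open Matrix

theorem t_DUAL : S_DUAL := by
  intro K V m f hm
  -- the maximum
  have hcomp : IsCompact {x : Fin K → ℝ | x ∈ V ∧ ∀ i, 0 ≤ x i ∧ x i ≤ m i} := by
    have h1 : {x : Fin K → ℝ | x ∈ V ∧ ∀ i, 0 ≤ x i ∧ x i ≤ m i} =
        (V : Set (Fin K → ℝ)) ∩ Set.Icc 0 m := by
      ext x
      simp only [Set.mem_ofPred_eq, Set.mem_inter_iff, SetLike.mem_coe, Set.mem_Icc, Pi.le_def,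
        Pi.zero_apply, forall_and]
    rw [h1]
    exact isCompact_Icc.inter_left (Submodule.closed_of_finiteDimensional V)
  obtain ⟨x, hx, hmax⟩ := hcomp.exists_isMaxOn
    ⟨0, V.zero_mem, fun i => ⟨le_refl _, (hm i).le⟩⟩
    (f := fun x => f ⬝ᵥ x) (by fun_prop)
  have hmax' : ∀ y ∈ V, (∀ i, 0 ≤ y i ∧ y i ≤ m i) → f ⬝ᵥ y ≤ f ⬝ᵥ x := by
    intro y hy hy'
    exact hmax (Set.mem_ofPred_eq ▸ ⟨hy, hy'⟩)
  refine ⟨x, hx.1, hx.2, ?_⟩
  -- duality
  set X : (V × ℝ) →ₗ[ℝ] (Fin K → ℝ) := V.subtype ∘ₗ LinearMap.fst ℝ V ℝ with hX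
  set T : (V × ℝ) →ₗ[ℝ] ℝ := LinearMap.snd ℝ V ℝ with hT
  obtain ⟨w, hw, hf⟩ := nneg_farkas (U := V × ℝ) ((K + K) + 1)
    (Fin.snoc (Fin.append (fun i => -((LinearMap.proj i : (Fin K → ℝ) →ₗ[ℝ] ℝ) ∘ₗ X))
      (fun i => (LinearMap.proj i : (Fin K → ℝ) →ₗ[ℝ] ℝ) ∘ₗ X - m i • T)) (-T))
    (nneg_dot f ∘ₗ X - (f ⬝ᵥ x) • T) (by
      intro p hp
      have h1 : ∀ i, 0 ≤ (p.1 : Fin K → ℝ) i := by
        intro i
        have := hp (Fin.castSucc (Fin.castAdd K i))
        rw [Fin.snoc_castSucc, Fin.append_left] at this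
        simp only [LinearMap.neg_apply, LinearMap.comp_apply, hX, Submodule.subtype_apply,
          LinearMap.fst_apply, LinearMap.proj_apply] at this
        linarith
      have h2 : ∀ i, (p.1 : Fin K → ℝ) i ≤ m i * p.2 := by
        intro i
        have := hp (Fin.castSucc (Fin.natAdd K i))
        rw [Fin.snoc_castSucc, Fin.append_right] at this
        simp only [LinearMap.sub_apply, LinearMap.smul_apply, smul_eq_mul, LinearMap.comp_apply,
          hX, hT, Submodule.subtype_apply, LinearMap.fst_apply, LinearMap.snd_apply,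
          LinearMap.proj_apply] at this
        linarith
      have h3 : 0 ≤ p.2 := by
        have := hp (Fin.last _)
        rw [Fin.snoc_last] at this
        simp only [LinearMap.neg_apply, hT, LinearMap.snd_apply] at this
        linarith
      simp only [LinearMap.sub_apply, LinearMap.smul_apply, smul_eq_mul, LinearMap.comp_apply,
        hX, hT, Submodule.subtype_apply, LinearMap.fst_apply, LinearMap.snd_apply, nneg_dot_apply]
      rcases h3.eq_or_lt with h0 | h0
      · have h4 : (p.1 : Fin K → ℝ) = 0 := by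
          funext i
          have := h2 i
          rw [← h0, mul_zero] at this
          exact le_antisymm this (h1 i)
        rw [h4, ← h0, dotProduct_zero, mul_zero, sub_zero]
      · have h4 := hmax' ((p.2)⁻¹ • (p.1 : Fin K → ℝ)) (V.smul_mem _ p.1.2) (by
          intro i
          rw [Pi.smul_apply, smul_eq_mul]
          refine ⟨mul_nonneg (inv_nonneg.2 h3) (h1 i), ?_⟩
          rw [inv_mul_le_iff₀ h0, mul_comm]
          exact h2 i)
        rw [dotProduct_smul, smul_eq_mul, inv_mul_le_iff₀ h0] at h4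
        linarith)
  -- the coefficients
  have key : ∀ p : V × ℝ, f ⬝ᵥ (p.1 : Fin K → ℝ) - f ⬝ᵥ x * p.2 =
      ∑ i, w (Fin.castSucc (Fin.castAdd K i)) * (-(p.1 : Fin K → ℝ) i) +
      ∑ i, w (Fin.castSucc (Fin.natAdd K i)) * ((p.1 : Fin K → ℝ) i - m i * p.2) +
      w (Fin.last _) * (-p.2) := by
    intro p
    have h1 := hf p
    rw [Fin.sum_univ_castSucc, Fin.sum_univ_add] at h1
    simpa only [Fin.snoc_castSucc, Fin.snoc_last, Fin.append_left, Fin.append_right,
      LinearMap.sub_apply, LinearMap.neg_apply, LinearMap.smul_apply, smul_eq_mul,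
      LinearMap.comp_apply, hX, hT, Submodule.subtype_apply, LinearMap.fst_apply,
      LinearMap.snd_apply, LinearMap.proj_apply, nneg_dot_apply] using h1
  set g : Fin K → ℝ := fun i => w (Fin.castSucc (Fin.natAdd K i)) -
    w (Fin.castSucc (Fin.castAdd K i)) with hg
  have hgf : ∀ y ∈ V, g ⬝ᵥ y = f ⬝ᵥ y := by
    intro y hy
    have h1 := key (⟨y, hy⟩, 0)
    simp only [mul_zero, sub_zero, neg_zero, add_zero] at h1
    rw [h1, dotProduct, ← Finset.sum_add_distrib]
    refine Finset.sum_congr rfl fun i _ => ?_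
    rw [hg]
    ring
  refine ⟨g, hgf, ?_⟩
  have h2 : ∑ i, m i * max (g i) 0 ≤ f ⬝ᵥ x := by
    have h1 := key (0, 1)
    simp only [ZeroMemClass.coe_zero, dotProduct_zero, Pi.zero_apply, neg_zero, mul_zero,
      Finset.sum_const_zero, zero_add, mul_one, zero_sub, mul_neg] at h1
    have h3 : ∑ i, m i * max (g i) 0 ≤ ∑ i, w (Fin.castSucc (Fin.natAdd K i)) * m i := by
      refine Finset.sum_le_sum fun i _ => ?_
      rw [mul_comm (w _)]
      refine mul_le_mul_of_nonneg_left ?_ (hm i).le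
      refine max_le ?_ (hw _)
      rw [hg]
      have := hw (Fin.castSucc (Fin.castAdd K i))
      simp only
      linarith
    have h4 := hw (Fin.last (K + K))
    rw [Finset.sum_neg_distrib] at h1
    linarith
  have h3 : f ⬝ᵥ x ≤ ∑ i, m i * max (g i) 0 := by
    rw [← hgf x hx.1, dotProduct]
    refine Finset.sum_le_sum fun i _ => ?_
    have h4 := hx.2 i
    calc g i * x i ≤ max (g i) 0 * x i := mul_le_mul_of_nonneg_right (le_max_left _ _) h4.1
      _ ≤ max (g i) 0 * m i := mul_le_mul_of_nonneg_left h4.2 (le_max_right _ _)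
      _ = m i * max (g i) 0 := mul_comm _ _
  exact le_antisymm h3 h2

end Pool.Agent.Y648.CS.V
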