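import Pool.Agent.Y648.CS.Ut
import Pool.Agent.Y648.CX.StmB

set_option autoImplicit false

/-!
# The structure of the bounds along the path, both cases
-/

namespace Pool.Agent.Y648.CS.V

open Pool.Agent.NPC Pool.Agent.H558R2 Pool.Agent.H622R3.SM Pool.Agent.W920.FC

namespace TFSC

/-- the restriction of a space of sequences -/
def resV {K : ℕ} (Ls : Submodule ℝ (ℕ → ℝ)) (φ : Fin K → ℕ) : Submodule ℝ (Fin K → ℝ) :=
  Ls.map (LinearMap.funLeft ℝ ℝ φ)

theorem mem_resV {K : ℕ} (Ls : Submodule ℝ (ℕ → ℝ)) (φ : Fin K → ℕ) (x : Fin K → ℝ) :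
    x ∈ resV Ls φ ↔ ∃ v ∈ Ls, ∀ i, x i = v (φ i) := by
  unfold resV
  rw [Submodule.mem_map]
  constructor
  · rintro ⟨v, hv, rfl⟩
    exact ⟨v, hv, fun i => rfl⟩
  · rintro ⟨v, hv, h⟩
    exact ⟨v, hv, funext fun i => (h i).symm⟩

theorem sum_phi {K : ℕ} {X : Finset ℕ} {φ : Fin K → ℕ} (hφ : Function.Injective φ)
    (hX : ∀ c, c ∈ X ↔ ∃ i, φ i = c) (g : ℕ → ℝ) : ∑ i, g (φ i) = ∑ c ∈ X, g c := by
  have h1 : X = Finset.univ.image φ := by
    ext c
    rw [hX]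
    simp
  rw [h1, Finset.sum_image (fun a _ b _ h => hφ h)]

theorem ker1_zero {K : ℕ} (V : Submodule ℝ (Fin K → ℝ)) : ker1 V (fun _ => 0) = V := by
  ext x
  constructor
  · exact fun h => h.1
  · intro h
    refine ⟨h, ?_⟩
    simp [dotProduct]

/-- few scales of the restriction -/
theorem few {K r : ℕ} {Ls : Submodule ℝ (ℕ → ℝ)} {X : Finset ℕ} {φ : Fin K → ℕ} {a : ℕ → ℝ}
    (hφ : Function.Injective φ) (hX : ∀ c, c ∈ X ↔ ∃ i, φ i = c) (h : ScA r Ls X a) :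
    FewE r (ker1 (resV Ls φ) (fun i => a (φ i))) := by
  have hm : ∀ i, φ i ∈ X := fun i => (hX _).2 ⟨i, rfl⟩
  choose S hS1 hS2 hS3 using fun i j : Fin K => h (φ i) (hm i) (φ j) (hm j)
  refine ⟨S, fun i j => ⟨hS1 i j, hS2 i j⟩, ?_⟩
  intro C hC i j hi hj
  obtain ⟨⟨hCV, hCa⟩, hC0, hCm⟩ := hC
  obtain ⟨v, hv, hvC⟩ := (mem_resV _ _ _).1 hCV
  have hE : ElA Ls X a v := by
    refine ⟨hv, ?_, ⟨φ i, hm i, by rw [← hvC]; exact hi⟩, ?_⟩
    · rw [← sum_phi hφ hX (fun c => a c * v c)]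
      have : ∑ i, a (φ i) * v (φ i) = (fun i => a (φ i)) ⬝ᵥ C := by
        unfold dotProduct
        exact Finset.sum_congr rfl fun i _ => by rw [hvC i]
      rw [this]
      exact hCa
    · intro z hz hza hz0
      obtain ⟨l, hl⟩ := hCm (fun i => z (φ i)) ⟨(mem_resV _ _ _).2 ⟨z, hz, fun _ => rfl⟩, by
        rw [← sum_phi hφ hX (fun c => a c * z c)] at hza
        exact hza⟩ (fun i hi => hz0 _ (hm i) (by rw [← hvC]; exact hi))
      refine ⟨l, fun c hc => ?_⟩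
      obtain ⟨i, rfl⟩ := (hX c).1 hc
      have h1 := congrFun hl i
      rw [Pi.smul_apply, smul_eq_mul, hvC i] at h1
      exact h1
  have h2 := hS3 i j v hE (by rw [← hvC]; exact hi) (by rw [← hvC]; exact hj)
  rw [← hvC, ← hvC] at h2
  exact h2

end TFSC

open TFSC

theorem t_FSC : S_FSG → S_PIE → S_PIB → S_FSC := by
  intro hFSG hPIE hPIB
  obtain ⟨q₁, h₁⟩ := hPIE
  obtain ⟨q₂, h₂⟩ := hPIB
  refine ⟨q₁ + q₂ + Polynomial.X, ?_⟩
  intro Ls X q nu r K t₀ ht₀ hSp hK hSc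
  obtain ⟨φ, hφd⟩ : ∃ φ : Fin X.card → ℕ, φ = fun i => ((X.equivFin.symm i : X) : ℕ) := ⟨_, rfl⟩
  have hφ : Function.Injective φ := by
    rw [hφd]
    intro i j hij
    exact X.equivFin.symm.injective (Subtype.ext hij)
  have hX : ∀ c, c ∈ X ↔ ∃ i, φ i = c := by
    intro c
    rw [hφd]
    constructor
    · intro hc
      exact ⟨X.equivFin ⟨c, hc⟩, by simp⟩
    · rintro ⟨i, rfl⟩
      exact (X.equivFin.symm i).2
  obtain ⟨N, hN, hPie⟩ : ∃ N : ℕ, N ≤ (q₁ + q₂).eval (K + r) ∧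
      ∀ s : Fin X.card → ℝ, (∀ i, 0 ≤ s i) → Pie N (resV Ls φ) s (Real.logb 2 t₀) := by
    rcases hSc with ⟨a, ha⟩ | ⟨Lt, a, ha, hL1, hL2⟩
    · refine ⟨q₁.eval (X.card + r), ?_, fun s hs => ?_⟩
      · rw [Polynomial.eval_add]
        exact (pe_mono q₁ (by omega)).trans (Nat.le_add_right _ _)
      · exact h₁ X.card r (resV Ls φ) (fun i => a (φ i)) s _ hs (few hφ hX ha)
    · refine ⟨q₂.eval (X.card + r), ?_, fun s hs => ?_⟩
      · rw [Polynomial.eval_add]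
        exact (pe_mono q₂ (by omega)).trans (Nat.le_add_left _ _)
      · have hf := few hφ hX ha
        have e1 : (fun i => (0 : ℕ → ℝ) (φ i)) = fun _ => 0 := rfl
        rw [e1, ker1_zero] at hf
        have h3 := h₂ X.card r (resV Lt φ) (fun i => a (φ i)) s (Real.logb 2 t₀) hs hf
        have e2 : ker1 (resV Lt φ) (fun i => a (φ i)) = resV Ls φ := by
          ext x
          constructor
          · rintro ⟨hx1, hx2⟩
            obtain ⟨y, hy, hyx⟩ := (mem_resV _ _ _).1 hx1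
            obtain ⟨x', hx', hxy⟩ := hL2 y hy (by
              rw [← sum_phi hφ hX (fun c => a c * y c)]
              have : ∑ i, a (φ i) * y (φ i) = (fun i => a (φ i)) ⬝ᵥ x := by
                unfold dotProduct
                exact Finset.sum_congr rfl fun i _ => by rw [hyx i]
              rw [this]
              exact hx2)
            refine (mem_resV _ _ _).2 ⟨x', hx', fun i => ?_⟩
            rw [hyx, hxy _ ((hX _).2 ⟨i, rfl⟩)]
          · intro hx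
            obtain ⟨v, hv, hvx⟩ := (mem_resV _ _ _).1 hx
            obtain ⟨g1, y, hy, hyv⟩ := hL1 v hv
            refine ⟨(mem_resV _ _ _).2 ⟨y, hy, fun i => ?_⟩, ?_⟩
            · rw [hvx, hyv _ ((hX _).2 ⟨i, rfl⟩)]
            · rw [← sum_phi hφ hX (fun c => a c * v c)] at g1
              have : ∑ i, a (φ i) * v (φ i) = (fun i => a (φ i)) ⬝ᵥ x := by
                unfold dotProduct
                exact Finset.sum_congr rfl fun i _ => by rw [hvx i]
              rw [← this]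
              exact g1
        rw [e2] at h3
        exact h3
  obtain ⟨Z, F, z1, z2, z3⟩ := hFSG Ls X q nu N X.card φ (resV Ls φ) t₀ ht₀ hSp
    ⟨hφ, hX, mem_resV Ls φ⟩ hPie
  have hNK : N + X.card ≤ (q₁ + q₂ + Polynomial.X).eval (K + r) := by
    rw [Polynomial.eval_add, Polynomial.eval_X]
    omega
  refine ⟨Z, F, by omega, z2, ?_⟩
  intro t w M ε x g1 g2 g3 g4 g5 g6 g7 e he
  obtain ⟨u1, u2⟩ := z3 t w M ε x g1 g2 g3 g4 g5 g6 g7 e he
  refine ⟨u1, u2.trans ?_⟩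
  have h3 : ((N + X.card : ℕ) : ℝ) ≤ (((q₁ + q₂ + Polynomial.X).eval (K + r) : ℕ) : ℝ) := by
    exact_mod_cast hNK
  linarith

end Pool.Agent.Y648.CS.V
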