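import Pool.Agent.Y648.CX.Stm

set_option autoImplicit false

/-!
# The maxima of all coordinates: all pieces together
-/

namespace Pool.Agent.Y648.CS.V

open Matrix


namespace TPIE

/-- No point of the set lies strictly between. -/
def Gap (Z : Finset ℝ) (u v : ℝ) : Prop := ∀ z ∈ Z, z ≤ u ∨ v ≤ z

/-- On all gaps above `y₀` the function has one slope. -/
def Good (Z : Finset ℝ) (y₀ D : ℝ) (g : ℝ → ℝ) : Prop :=
  ∀ u v, y₀ ≤ u → u ≤ v → Gap Z u v → SS u v D g

theorem Good.mono {Z Z' : Finset ℝ} {y₀ D : ℝ} {g : ℝ → ℝ} (h : Good Z y₀ D g) (hZ : Z ⊆ Z') :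
    Good Z' y₀ D g :=
  fun u v h1 h2 h3 => h u v h1 h2 fun z hz => h3 z (hZ hz)

/-- Enclosing gap. -/
theorem enclose {E : Finset ℝ} {y₀ B u v : ℝ} (h0 : y₀ ∈ E) (hB : B ∈ E) (hu : y₀ ≤ u)
    (_huv : u ≤ v) (hv : v ≤ B) (hg : Gap E u v) :
    ∃ u' ∈ E, ∃ v' ∈ E, y₀ ≤ u' ∧ u' ≤ u ∧ v ≤ v' ∧ v' ≤ B ∧ Gap E u' v' := by
  have hne1 : (E.filter (fun z => z ≤ u)).Nonempty := ⟨y₀, Finset.mem_filter.2 ⟨h0, hu⟩⟩
  have hne2 : (E.filter (fun z => v ≤ z)).Nonempty := ⟨B, Finset.mem_filter.2 ⟨hB, hv⟩⟩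
  refine ⟨(E.filter (fun z => z ≤ u)).max' hne1, ?_, (E.filter (fun z => v ≤ z)).min' hne2, ?_,
    ?_, ?_, ?_, ?_, ?_⟩
  · exact (Finset.mem_filter.1 (Finset.max'_mem _ hne1)).1
  · exact (Finset.mem_filter.1 (Finset.min'_mem _ hne2)).1
  · exact Finset.le_max' _ _ (Finset.mem_filter.2 ⟨h0, hu⟩)
  · exact (Finset.mem_filter.1 (Finset.max'_mem _ hne1)).2
  · exact (Finset.mem_filter.1 (Finset.min'_mem _ hne2)).2
  · exact Finset.min'_le _ _ (Finset.mem_filter.2 ⟨hB, hv⟩)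
  · intro z hz
    rcases hg z hz with h | h
    · exact Or.inl (Finset.le_max' _ _ (Finset.mem_filter.2 ⟨hz, h⟩))
    · exact Or.inr (Finset.min'_le _ _ (Finset.mem_filter.2 ⟨hz, h⟩))

/-- From open pieces to closed pieces. -/
theorem extend {E : Finset ℝ} {y₀ B δ : ℝ} {N : ℕ} {g : ℝ → ℝ} (h0 : y₀ ∈ E) (hB : B ∈ E)
    (hδ : 0 ≤ δ)
    (hg : ∀ y y', y₀ ≤ y → y ≤ y' → g y ≤ g y' ∧ g y' - g y ≤ y' - y)
    (hc : ∀ y, B ≤ y → g y = g B)
    (hPL : ∀ u ∈ E, ∀ v ∈ E, y₀ ≤ u → u ≤ v → v ≤ B → Gap E u v → PL u v N δ g) :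
    ∃ E' : Finset ℝ, E ⊆ E' ∧ E'.card ≤ E.card + E.card * E.card * (3 * N) ∧
      Good E' y₀ (2 * δ + 1) g := by
  classical
  have hch : ∀ p : ℝ × ℝ, ∃ Z : Finset ℝ, Z.card ≤ N ∧ (p.1 ∈ E → p.2 ∈ E → y₀ ≤ p.1 →
      p.1 ≤ p.2 → p.2 ≤ B → Gap E p.1 p.2 → ∀ y₁ y₂, p.1 ≤ y₁ → y₁ ≤ y₂ → y₂ ≤ p.2 →
      (∀ z ∈ Z, z < y₁ ∨ y₂ < z) → (∀ y, y₁ ≤ y → y ≤ y₂ → |g y - g y₁| ≤ δ) ∨
      ∀ y, y₁ ≤ y → y ≤ y₂ → |g y - g y₁ - (y - y₁)| ≤ δ) := by
    intro p
    by_cases h : p.1 ∈ E ∧ p.2 ∈ E ∧ y₀ ≤ p.1 ∧ p.1 ≤ p.2 ∧ p.2 ≤ B ∧ Gap E p.1 p.2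
    · obtain ⟨Z, hZ1, hZ2⟩ := hPL p.1 h.1 p.2 h.2.1 h.2.2.1 h.2.2.2.1 h.2.2.2.2.1 h.2.2.2.2.2
      exact ⟨Z, hZ1, fun _ _ _ _ _ _ => hZ2⟩
    · exact ⟨∅, by simp, fun h1 h2 h3 h4 h5 h6 => absurd ⟨h1, h2, h3, h4, h5, h6⟩ h⟩
  choose Z hZc hZ using hch
  refine ⟨E ∪ (E ×ˢ E).biUnion (fun p => Z p ∪ ((Z p).image (· + 1) ∪ (Z p).image (· - 1))),
    Finset.subset_union_left, ?_, ?_⟩
  · refine (Finset.card_union_le _ _).trans (Nat.add_le_add_left ?_ _)
    refine Finset.card_biUnion_le.trans ?_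
    rw [← Finset.card_product]
    refine (Finset.sum_le_card_nsmul _ _ (3 * N) ?_).trans (by simp)
    intro p _
    have h1 := Finset.card_union_le (Z p) ((Z p).image (· + 1) ∪ (Z p).image (· - 1))
    have h2 := Finset.card_union_le ((Z p).image (· + 1)) ((Z p).image (· - 1))
    have h3 : ((Z p).image (· + 1)).card ≤ (Z p).card := Finset.card_image_le
    have h4 : ((Z p).image (· - 1)).card ≤ (Z p).card := Finset.card_image_le
    have h5 := hZc p
    omega
  · intro u v hu huv hgap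
    have hgE : Gap E u v := fun z hz => hgap z (Finset.mem_union_left _ hz)
    rcases hgE B hB with hBu | hvB
    · left
      intro y y' h1 h2 h3
      rw [hc y (hBu.trans h1), hc y' (hBu.trans (h1.trans h2)), sub_self, abs_zero]
      linarith
    by_cases h1 : v - u ≤ 1
    · left
      intro y y' h2 h3 h4
      have h5 := hg y y' (hu.trans h2) h3
      rw [abs_of_nonneg (by linarith [h5.1])]
      linarith [h5.2]
    · push Not at h1
      obtain ⟨u', hu'E, v', hv'E, a1, a2, a3, a4, a5⟩ := enclose h0 hB hu huv hvB hgE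
      have hno : ∀ z ∈ Z (u', v'), z < u ∨ v < z := by
        intro z hz
        have key : ∀ w ∈ Z (u', v') ∪ ((Z (u', v')).image (· + 1) ∪ (Z (u', v')).image (· - 1)),
            w ≤ u ∨ v ≤ w := by
          intro w hw
          apply hgap
          apply Finset.mem_union_right
          rw [Finset.mem_biUnion]
          exact ⟨(u', v'), Finset.mem_product.2 ⟨hu'E, hv'E⟩, hw⟩
        have k1 := key z (Finset.mem_union_left _ hz)
        have k2 := key (z + 1) (Finset.mem_union_right _ (Finset.mem_union_left _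
          (Finset.mem_image_of_mem _ hz)))
        have k3 := key (z - 1) (Finset.mem_union_right _ (Finset.mem_union_right _
          (Finset.mem_image_of_mem _ hz)))
        rcases k1 with k1 | k1
        · rcases k2 with k2 | k2
          · left; linarith
          · left
            rcases lt_or_eq_of_le k1 with h | h
            · exact h
            · exfalso; linarith
        · rcases k3 with k3 | k3
          · right
            rcases lt_or_eq_of_le k1 with h | h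
            · exact h
            · exfalso; linarith
          · right; linarith
      rcases hZ (u', v') hu'E hv'E a1 (a2.trans (huv.trans a3)) a4 a5 u v a2 huv a3 hno with h | h
      · left
        intro y y' b1 b2 b3
        have c1 := abs_le.1 (h y b1 (b2.trans b3))
        have c2 := abs_le.1 (h y' (b1.trans b2) b3)
        rw [abs_le]
        constructor <;> linarith [c1.1, c1.2, c2.1, c2.2]
      · right
        intro y y' b1 b2 b3
        have c1 := abs_le.1 (h y b1 (b2.trans b3))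
        have c2 := abs_le.1 (h y' (b1.trans b2) b3)
        rw [abs_le]
        constructor <;> linarith [c1.1, c1.2, c2.1, c2.2]

/-! ### Properties of the maxima -/

theorem pos_iff (hMX : S_MX) {K : ℕ} (V : Submodule ℝ (Fin K → ℝ)) (s h : Fin K → ℝ)
    (hs : ∀ i, 0 ≤ s i) (y y' : ℝ) (hp : 0 < mx V s h (2 ^ y)) : 0 < mx V s h (2 ^ y') := by
  rcases le_total y y' with hy | hy
  · have h1 := (hMX K V s h hs (2 ^ y) (by positivity)).2.2.2 (2 ^ y')
      (Real.rpow_le_rpow_of_exponent_le (by norm_num) hy)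
    exact lt_of_lt_of_le hp h1.1
  · have h1 := (hMX K V s h hs (2 ^ y') (by positivity)).2.2.2 (2 ^ y)
      (Real.rpow_le_rpow_of_exponent_le (by norm_num) hy)
    refine lt_of_lt_of_le ?_ h1.2.1
    have : (0 : ℝ) < 2 ^ y' / 2 ^ y := by positivity
    exact mul_pos this hp

theorem lmx_lip (hMX : S_MX) {K : ℕ} (V : Submodule ℝ (Fin K → ℝ)) (s h : Fin K → ℝ)
    (hs : ∀ i, 0 ≤ s i) (y₀ : ℝ) (hp : 0 < mx V s h (2 ^ y₀)) (y y' : ℝ) (hy : y ≤ y') :
    lmx V s h y ≤ lmx V s h y' ∧ lmx V s h y' - lmx V s h y ≤ y' - y := by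
  have hy1 := pos_iff hMX V s h hs y₀ y hp
  have hy2 := pos_iff hMX V s h hs y₀ y' hp
  have h1 := (hMX K V s h hs (2 ^ y) (by positivity)).2.2.2 (2 ^ y')
      (Real.rpow_le_rpow_of_exponent_le (by norm_num) hy)
  constructor
  · unfold lmx
    exact (Real.logb_le_logb (by norm_num) hy1 hy2).2 h1.1
  · unfold lmx
    have h2 := h1.2.1
    rw [← Real.rpow_sub (by norm_num)] at h2
    have h3 : (0 : ℝ) < 2 ^ (y - y') := by positivity
    have h4 := (Real.logb_le_logb (b := 2) (by norm_num) (mul_pos h3 hy2) hy1).2 h2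
    rw [Real.logb_mul h3.ne' hy2.ne', Real.logb_rpow (by norm_num) (by norm_num)] at h4
    linarith

theorem lmx_const {K : ℕ} (V : Submodule ℝ (Fin K → ℝ)) (s h : Fin K → ℝ) (B y : ℝ)
    (hB : ∀ i, s i ≤ 2 ^ B) (hy : B ≤ y) : lmx V s h y = lmx V s h B := by
  have h1 : cap s (2 ^ y) = cap s (2 ^ B) := by
    funext i
    unfold cap
    rw [if_pos (hB i), if_pos ((hB i).trans (Real.rpow_le_rpow_of_exponent_le (by norm_num) hy))]
  unfold lmx mx Bx
  rw [h1]

/-- The breakpoints of the capacities. -/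
theorem breaks {K : ℕ} (s : Fin K → ℝ) (y₀ : ℝ) :
    ∃ (E : Finset ℝ) (B : ℝ), y₀ ∈ E ∧ B ∈ E ∧ E.card ≤ K + 2 ∧ (∀ i, s i ≤ 2 ^ B) ∧
      ∀ u v, Gap E u v → Lin s u v := by
  classical
  refine ⟨insert y₀ (insert (|y₀| + ∑ i, |Real.logb 2 (s i)|)
    (Finset.univ.image (fun i => Real.logb 2 (s i)))), |y₀| + ∑ i, |Real.logb 2 (s i)|,
    by simp, by simp, ?_, ?_, ?_⟩
  · have h1 := Finset.card_insert_le y₀ (insert (|y₀| + ∑ i, |Real.logb 2 (s i)|)
      (Finset.univ.image (fun i => Real.logb 2 (s i))))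
    have h2 := Finset.card_insert_le (|y₀| + ∑ i, |Real.logb 2 (s i)|)
      (Finset.univ.image (fun i => Real.logb 2 (s i)))
    have h3 : (Finset.univ.image (fun i => Real.logb 2 (s i))).card ≤ (Finset.univ : Finset (Fin K)).card :=
      Finset.card_image_le
    rw [Finset.card_univ, Fintype.card_fin] at h3
    omega
  · intro i
    rcases le_or_gt (s i) 0 with h | h
    · exact h.trans (by positivity)
    · have h1 : Real.logb 2 (s i) ≤ |y₀| + ∑ i, |Real.logb 2 (s i)| := by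
        have h2 : |Real.logb 2 (s i)| ≤ ∑ i, |Real.logb 2 (s i)| :=
          Finset.single_le_sum (f := fun i => |Real.logb 2 (s i)|) (fun j _ => abs_nonneg _)
            (Finset.mem_univ i)
        linarith [le_abs_self (Real.logb 2 (s i)), abs_nonneg y₀]
      exact (Real.logb_le_iff_le_rpow (by norm_num) h).1 h1
  · intro u v hg i
    rcases le_or_gt (s i) 0 with h | h
    · exact Or.inl (h.trans (by positivity))
    · rcases hg (Real.logb 2 (s i)) (by simp) with h1 | h1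
      · exact Or.inl ((Real.logb_le_iff_le_rpow (by norm_num) h).1 h1)
      · exact Or.inr ((Real.le_logb_iff_rpow_le (by norm_num) h).1 h1)

theorem ker1_neg {K : ℕ} (V : Submodule ℝ (Fin K → ℝ)) (f : Fin K → ℝ) :
    ker1 V (-f) = ker1 V f := by
  ext x
  show (x ∈ V ∧ (-f) ⬝ᵥ x = 0) ↔ (x ∈ V ∧ f ⬝ᵥ x = 0)
  rw [neg_dotProduct, neg_eq_zero]

/-! ### The pieces of the two forms -/

theorem formPieces (hMX : S_MX) {q : Polynomial ℕ} (hq : ∀ (K r : ℕ)
    (V : Submodule ℝ (Fin K → ℝ)) (f s : Fin K → ℝ) (a b : ℝ), (∀ i, 0 ≤ s i) → a ≤ b →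
    Lin s a b → FewE r (ker1 V f) → 0 < mx V s f (2 ^ a) →
    PL a b (q.eval (K + r)) ((q.eval (K + r) : ℕ) : ℝ) (lmx V s f))
    {K r : ℕ} (V : Submodule ℝ (Fin K → ℝ)) (f s : Fin K → ℝ) (y₀ B : ℝ) (E : Finset ℝ)
    (hs : ∀ i, 0 ≤ s i) (hf : FewE r (ker1 V f)) (h0 : y₀ ∈ E) (hB : B ∈ E)
    (hBs : ∀ i, s i ≤ 2 ^ B) (hE : ∀ u v, Gap E u v → Lin s u v) :
    ∃ E' : Finset ℝ, E ⊆ E' ∧ E'.card ≤ E.card + E.card * E.card * (3 * q.eval (K + r)) ∧
      (0 < mx V s f (2 ^ y₀) → Good E' y₀ (2 * ((q.eval (K + r) : ℕ) : ℝ) + 1) (lmx V s f)) := by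
  by_cases hp : 0 < mx V s f (2 ^ y₀)
  · obtain ⟨E', h1, h2, h3⟩ := extend (E := E) (y₀ := y₀) (B := B)
      (δ := ((q.eval (K + r) : ℕ) : ℝ)) (N := q.eval (K + r)) (g := lmx V s f) h0 hB
      (Nat.cast_nonneg _) (fun y y' _ hy => lmx_lip hMX V s f hs y₀ hp y y' hy)
      (fun y hy => lmx_const V s f B y hBs hy)
      (fun u _ v _ _ huv _ hgap => hq K r V f s u v hs huv (hE u v hgap) hf
        (pos_iff hMX V s f hs y₀ u hp))
    exact ⟨E', h1, h2, fun _ => h3⟩
  · exact ⟨E, Finset.Subset.refl _, Nat.le_add_right _ _, fun h => absurd h hp⟩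

/-! ### The functions -/

/-- The slope to the right of a point. -/
theorem slope {Z : Finset ℝ} {y₀ D : ℝ} {g : ℝ → ℝ} (hG : Good Z y₀ D g) (u : ℝ) (hu : y₀ ≤ u) :
    ∃ σ : Bool, ∀ y, u ≤ y → Gap Z u y → |g y - g u - (if σ then y - u else 0)| ≤ D := by
  by_cases h : ∀ y, u ≤ y → Gap Z u y → |g y - g u - (y - u)| ≤ D
  · exact ⟨true, by simpa using h⟩
  · push Not at h
    obtain ⟨v₀, hv0, hgap0, hlt⟩ := h
    refine ⟨false, ?_⟩
    intro y hy hgap
    have hmax : Gap Z u (max y v₀) := by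
      rcases le_total y v₀ with h1 | h1
      · rw [max_eq_right h1]; exact hgap0
      · rw [max_eq_left h1]; exact hgap
    have h2 := hG u (max y v₀) hu (hy.trans (le_max_left _ _)) hmax
    rcases h2 with h2 | h2
    · simpa using h2 u y le_rfl hy (le_max_left _ _)
    · exact absurd (h2 u v₀ le_rfl hv0 (le_max_right _ _)) (not_le.2 hlt)

/-- The function with the given pieces. -/
theorem pieceFun {K : ℕ} (Z : Finset ℝ) (y₀ D : ℝ) (h0 : y₀ ∈ Z) (g : Fin K → ℝ → ℝ)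
    (P : Fin K → Prop) (hG : ∀ e, P e → Good Z y₀ D (g e)) :
    ∃ F : Fin K → ℝ → ℝ,
      (∀ y₁ y₂ : ℝ, y₁ ≤ y₂ → (∀ z ∈ Z, z < y₁ ∨ y₂ < z) → ∃ σ : Fin K → Bool,
        ∀ e y, y₁ ≤ y → y ≤ y₂ → F e y = F e y₁ + if σ e then y - y₁ else 0) ∧
      ∀ y, y₀ ≤ y → ∀ e, P e → F e y ≤ g e y ∧ g e y ≤ F e y + 2 * D := by
  classical
  have hσ : ∀ (e : Fin K) (u : ℝ), ∃ σ : Bool, P e → y₀ ≤ u → ∀ y, u ≤ y → Gap Z u y →
      |g e y - g e u - (if σ then y - u else 0)| ≤ D := by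
    intro e u
    by_cases h : P e ∧ y₀ ≤ u
    · obtain ⟨σ, h1⟩ := slope (hG e h.1) u h.2
      exact ⟨σ, fun _ _ => h1⟩
    · exact ⟨true, fun h1 h2 => absurd ⟨h1, h2⟩ h⟩
  choose σ hσ using hσ
  -- the last point below
  let L : ℝ → Finset ℝ := fun y => Z.filter (fun z => z ≤ y)
  let F : Fin K → ℝ → ℝ := fun e y => if h : (L y).Nonempty then
    g e ((L y).max' h) - D + (if σ e ((L y).max' h) then y - (L y).max' h else 0) else 0
  refine ⟨F, ?_, ?_⟩
  · intro y₁ y₂ hy hno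
    have hL : ∀ y, y₁ ≤ y → y ≤ y₂ → L y = L y₁ := by
      intro y h1 h2
      ext z
      simp only [L, Finset.mem_filter]
      constructor
      · rintro ⟨h3, h4⟩
        refine ⟨h3, ?_⟩
        rcases hno z h3 with h5 | h5
        · exact h5.le
        · linarith
      · rintro ⟨h3, h4⟩
        exact ⟨h3, h4.trans h1⟩
    by_cases hne : (L y₁).Nonempty
    · refine ⟨fun e => σ e ((L y₁).max' hne), ?_⟩
      intro e y h1 h2
      have e1 : F e y₁ = g e ((L y₁).max' hne) - D +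
          (if σ e ((L y₁).max' hne) then y₁ - (L y₁).max' hne else 0) := dif_pos hne
      have e2 : F e y = g e ((L y₁).max' hne) - D +
          (if σ e ((L y₁).max' hne) then y - (L y₁).max' hne else 0) := by
        simp only [F, hL y h1 h2]
        exact dif_pos hne
      rw [e1, e2]
      split_ifs <;> ring
    · refine ⟨fun _ => false, ?_⟩
      intro e y h1 h2
      have e1 : F e y₁ = 0 := dif_neg hne
      have e2 : F e y = 0 := by
        simp only [F, hL y h1 h2]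
        exact dif_neg hne
      rw [e1, e2]
      simp
  · intro y hy e he
    have hne : (L y).Nonempty := ⟨y₀, Finset.mem_filter.2 ⟨h0, hy⟩⟩
    have hm := Finset.mem_filter.1 (Finset.max'_mem (L y) hne)
    have hu0 : y₀ ≤ (L y).max' hne := Finset.le_max' _ _ (Finset.mem_filter.2 ⟨h0, hy⟩)
    have hgap : Gap Z ((L y).max' hne) y := by
      intro z hz
      rcases le_total z y with h | h
      · exact Or.inl (Finset.le_max' _ _ (Finset.mem_filter.2 ⟨hz, h⟩))
      · exact Or.inr h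
    have h1 := abs_le.1 (hσ e ((L y).max' hne) he hu0 y hm.2 hgap)
    have e1 : F e y = g e ((L y).max' hne) - D +
          (if σ e ((L y).max' hne) then y - (L y).max' hne else 0) := dif_pos hne
    rw [e1]
    constructor <;> linarith [h1.1, h1.2]

end TPIE

open TPIE Polynomial in
theorem t_PIE : S_MX → S_APL → S_ZPL → S_PIE := by
  classical
  rintro hMX ⟨q1, hq1⟩ ⟨q2, hq2⟩
  let P2 : Polynomial ℕ := 2 * ((X + 2) + (X + 2) * (X + 2) * (3 * q1))
  let P3 : Polynomial ℕ := P2 + X * (P2 + P2 * P2 * (3 * q2))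
  let Q : Polynomial ℕ := P3 + 2 * (2 * q2.comp (X + (2 * q1 + 1)) + 1)
  refine ⟨Q, ?_⟩
  intro K r V f s y₀ hs hf
  obtain ⟨E, B, h0, hB, hEc, hBs, hE⟩ := breaks s y₀
  obtain ⟨E1, hE1, hE1c, hG1⟩ := formPieces hMX hq1 V f s y₀ B E hs hf h0 hB hBs hE
  obtain ⟨E2, hE2, hE2c, hG2⟩ := formPieces hMX hq1 (r := r) V (-f) s y₀ B E hs
    (by rw [ker1_neg]; exact hf) h0 hB hBs hE
  have hP2 : (E1 ∪ E2).card ≤ P2.eval (K + r) := by
    have h1 : E.card ≤ K + r + 2 := by omega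
    have h2 : E.card + E.card * E.card * (3 * q1.eval (K + r)) ≤
        (K + r + 2) + (K + r + 2) * (K + r + 2) * (3 * q1.eval (K + r)) := by gcongr
    have h3 : P2.eval (K + r) = 2 * ((K + r + 2) + (K + r + 2) * (K + r + 2) *
        (3 * q1.eval (K + r))) := by
      simp [P2]
    rw [h3]
    have h4 := Finset.card_union_le E1 E2
    omega
  -- the second step
  have hstep : ∀ e : Fin K, ∃ E' : Finset ℝ, E'.card ≤ P2.eval (K + r) +
      P2.eval (K + r) * P2.eval (K + r) * (3 * q2.eval (K + r)) ∧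
      (0 < mx V s (Pi.single e 1) (2 ^ y₀) →
        Good E' y₀ (2 * ((q2.eval (K + r + (2 * q1.eval (K + r) + 1)) : ℕ) : ℝ) + 1)
          (lmx V s (Pi.single e 1))) := by
    intro e
    by_cases hp : 0 < mx V s (Pi.single e 1) (2 ^ y₀)
    · obtain ⟨E', h1, h2, h3⟩ := extend (E := E1 ∪ E2) (y₀ := y₀) (B := B)
        (δ := ((q2.eval (K + r + (2 * q1.eval (K + r) + 1)) : ℕ) : ℝ))
        (N := q2.eval (K + r)) (g := lmx V s (Pi.single e 1))
        (Finset.mem_union_left _ (hE1 h0)) (Finset.mem_union_left _ (hE1 hB))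
        (Nat.cast_nonneg _) (fun y y' _ hy => lmx_lip hMX V s _ hs y₀ hp y y' hy)
        (fun y hy => lmx_const V s _ B y hBs hy)
        (fun u _ v _ hu huv _ hgap => by
          refine hq2 K r (2 * q1.eval (K + r) + 1) V f s u v e hs huv
            (hE u v fun z hz => hgap z (Finset.mem_union_left _ (hE1 hz))) hf ?_ ?_
            (pos_iff hMX V s _ hs y₀ u hp)
          · intro hpf
            have := hG1 (pos_iff hMX V s _ hs u y₀ hpf) u v hu huv
              (fun z hz => hgap z (Finset.mem_union_left _ hz))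
            push_cast
            exact this
          · intro hpf
            have := hG2 (pos_iff hMX V s _ hs u y₀ hpf) u v hu huv
              (fun z hz => hgap z (Finset.mem_union_right _ hz))
            push_cast
            exact this)
      refine ⟨E', h2.trans ?_, fun _ => h3⟩
      gcongr
    · exact ⟨∅, by simp, fun h => absurd h hp⟩
  choose E3 hE3c hE3 using hstep
  obtain ⟨F, hF1, hF2⟩ := pieceFun (E1 ∪ E2 ∪ Finset.univ.biUnion E3) y₀
    (2 * ((q2.eval (K + r + (2 * q1.eval (K + r) + 1)) : ℕ) : ℝ) + 1)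
    (Finset.mem_union_left _ (Finset.mem_union_left _ (hE1 h0)))
    (fun e => lmx V s (Pi.single e 1)) (fun e => 0 < mx V s (Pi.single e 1) (2 ^ y₀))
    (fun e he => (hE3 e he).mono (fun z hz => Finset.mem_union_right _
      (Finset.mem_biUnion.2 ⟨e, Finset.mem_univ e, hz⟩)))
  have hQ : Q.eval (K + r) = P3.eval (K + r) +
      2 * (2 * q2.eval (K + r + (2 * q1.eval (K + r) + 1)) + 1) := by
    simp [Q, Polynomial.eval_comp]
  refine ⟨E1 ∪ E2 ∪ Finset.univ.biUnion E3, F, ?_, hF1, ?_⟩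
  · rw [hQ]
    refine le_trans ?_ (Nat.le_add_right _ _)
    have h1 : P3.eval (K + r) = P2.eval (K + r) + (K + r) * (P2.eval (K + r) +
        P2.eval (K + r) * P2.eval (K + r) * (3 * q2.eval (K + r))) := by
      simp [P3]
    rw [h1]
    refine (Finset.card_union_le _ _).trans (Nat.add_le_add hP2 ?_)
    refine Finset.card_biUnion_le.trans ?_
    refine (Finset.sum_le_card_nsmul _ _ (P2.eval (K + r) +
        P2.eval (K + r) * P2.eval (K + r) * (3 * q2.eval (K + r))) (fun e _ => hE3c e)).trans ?_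
    rw [Finset.card_univ, Fintype.card_fin, smul_eq_mul]
    gcongr
    omega
  · intro y hy e he
    obtain ⟨h1, h2⟩ := hF2 y hy e (pos_iff hMX V s _ hs y y₀ he)
    refine ⟨h1, h2.trans ?_⟩
    rw [hQ]
    push_cast
    have h3 : (0 : ℝ) ≤ ((P3.eval (K + r) : ℕ) : ℝ) := Nat.cast_nonneg _
    linarith

end Pool.Agent.Y648.CS.V
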