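import Pool.Agent.Y648.CX.StmB
import Pool.Agent.Y648.CX.T_PIE

set_option autoImplicit false

/-!
# From intervals to all `t ≥ t₀`
-/

namespace Pool.Agent.Y648.CS.V

open Matrix

theorem Pie.mono' {N N' K : ℕ} {V : Submodule ℝ (Fin K → ℝ)} {s : Fin K → ℝ} {y₀ : ℝ}
    (h : Pie N V s y₀) (hN : N ≤ N') : Pie N' V s y₀ := by
  obtain ⟨Z, F, h1, h2, h3⟩ := h
  refine ⟨Z, F, h1.trans hN, h2, fun y hy e he => ?_⟩
  obtain ⟨a1, a2⟩ := h3 y hy e he
  refine ⟨a1, a2.trans ?_⟩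
  have : (N : ℝ) ≤ N' := by exact_mod_cast hN
  linarith

theorem poly_mono' (q : Polynomial ℕ) {a b : ℕ} (h : a ≤ b) : q.eval a ≤ q.eval b := by
  rw [Polynomial.eval_eq_sum_range, Polynomial.eval_eq_sum_range]
  exact Finset.sum_le_sum fun i _ => Nat.mul_le_mul_left _ (Nat.pow_le_pow_left h i)

open TPIE Polynomial in
theorem t_GLU : S_MX → S_GLU := by
  classical
  intro hMX
  let P : Polynomial ℕ := (X + 2) + X * ((X + 2) + (X + 2) * (X + 2) * (3 * X))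
  let Q : Polynomial ℕ := P + 2 * (2 * X + 1)
  refine ⟨Q, ?_⟩
  intro K N V s y₀ hs hPL
  obtain ⟨E, B, h0, hB, hEc, hBs, hE⟩ := breaks s y₀
  obtain ⟨M, hM⟩ : ∃ M : ℕ, M = K + N := ⟨_, rfl⟩
  have hKM : K ≤ M := by omega
  have hNM : N ≤ M := by omega
  have hstep : ∀ e : Fin K, ∃ E' : Finset ℝ, E'.card ≤ (M + 2) + (M + 2) * (M + 2) * (3 * M) ∧
      (0 < mx V s (Pi.single e 1) (2 ^ y₀) → Good E' y₀ (2 * (N : ℝ) + 1)
        (lmx V s (Pi.single e 1))) := by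
    intro e
    by_cases hp : 0 < mx V s (Pi.single e 1) (2 ^ y₀)
    · obtain ⟨E', h1, h2, h3⟩ := extend (E := E) (y₀ := y₀) (B := B)
        (δ := (N : ℝ)) (N := N) (g := lmx V s (Pi.single e 1)) h0 hB
        (Nat.cast_nonneg _) (fun y y' _ hy => lmx_lip hMX V s _ hs y₀ hp y y' hy)
        (fun y hy => lmx_const V s _ B y hBs hy)
        (fun u _ v _ _ huv _ hgap => hPL u v e huv (hE u v hgap)
          (pos_iff hMX V s _ hs y₀ u hp))
      refine ⟨E', h2.trans ?_, fun _ => h3⟩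
      have h4 : E.card ≤ M + 2 := by omega
      gcongr
    · exact ⟨∅, by simp, fun h => absurd h hp⟩
  choose E3 hE3c hE3 using hstep
  obtain ⟨F, hF1, hF2⟩ := pieceFun (E ∪ Finset.univ.biUnion E3) y₀
    (2 * (N : ℝ) + 1) (Finset.mem_union_left _ h0)
    (fun e => lmx V s (Pi.single e 1)) (fun e => 0 < mx V s (Pi.single e 1) (2 ^ y₀))
    (fun e he => (hE3 e he).mono (fun z hz => Finset.mem_union_right _
      (Finset.mem_biUnion.2 ⟨e, Finset.mem_univ e, hz⟩)))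
  have hP : P.eval M = (M + 2) + M * ((M + 2) + (M + 2) * (M + 2) * (3 * M)) := by
    simp [P]
  have hQ : Q.eval M = P.eval M + 2 * (2 * M + 1) := by
    simp [Q]
  rw [← hM]
  refine ⟨E ∪ Finset.univ.biUnion E3, F, ?_, hF1, ?_⟩
  · rw [hQ]
    refine le_trans ?_ (Nat.le_add_right _ _)
    rw [hP]
    refine (Finset.card_union_le _ _).trans (Nat.add_le_add (by omega) ?_)
    refine Finset.card_biUnion_le.trans ?_
    refine (Finset.sum_le_card_nsmul _ _ ((M + 2) + (M + 2) * (M + 2) * (3 * M))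
      (fun e _ => hE3c e)).trans ?_
    rw [Finset.card_univ, Fintype.card_fin, smul_eq_mul]
    exact Nat.mul_le_mul_right _ hKM
  · intro y hy e he
    obtain ⟨h1, h2⟩ := hF2 y hy e (pos_iff hMX V s _ hs y y₀ he)
    refine ⟨h1, h2.trans ?_⟩
    rw [hQ]
    push_cast
    have h3 : (0 : ℝ) ≤ ((P.eval M : ℕ) : ℝ) := Nat.cast_nonneg _
    have h4 : (N : ℝ) ≤ M := by exact_mod_cast hNM
    linarith

open Polynomial in
theorem t_PIB : S_HPL → S_GLU → S_PIB := by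
  rintro ⟨q1, hq1⟩ ⟨q2, hq2⟩
  refine ⟨q2.comp (X + q1), ?_⟩
  intro K r V d s y₀ hs hV
  have h1 := hq2 K (q1.eval (K + r)) (ker1 V d) s y₀ hs
    (fun a b e hab hL hp => hq1 K r V d s a b e hs hab hL hV hp)
  refine h1.mono' ?_
  rw [Polynomial.eval_comp, Polynomial.eval_add, Polynomial.eval_X]
  exact poly_mono' q2 (by omega)

end Pool.Agent.Y648.CS.V
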