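import Pool.Agent.Y648.CX.StmB

set_option autoImplicit false

/-!
# Maxima of coordinates on a hyperplane of a space with few scales
-/

namespace Pool.Agent.Y648.CS.V

open Matrix Pool.Agent.NPC Pool.Agent.H558R2 Pool.Agent.H622R3.SM Pool.Agent.W920.FC

namespace HPL

variable {K : ℕ}

/-- The vector `C` belongs to the class `v` with respect to the unit `u`. -/
def Cl (E0 E1 : Finset (Fin K)) (s : Fin K → ℝ) (R : ℝ) (v : ℝ × ℝ) (u : ℝ) (C : Fin K → ℝ) :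
    Prop :=
  0 ≤ v.1 ∧ 0 ≤ v.2 ∧ (∀ i ∈ E0, C i ≤ R * u * v.1) ∧ (∀ i ∈ E1, s i * C i ≤ R * u * v.2) ∧
  (v.1 = 0 ∨ ∃ j ∈ E0, u * v.1 ≤ C j) ∧ (v.2 = 0 ∨ ∃ l ∈ E1, u * v.2 ≤ s l * C l)

/-- Possible sizes. -/
noncomputable def Fs (S : Fin K → Fin K → Finset ℝ) (E : Finset (Fin K)) (g : Fin K → ℝ)
    (e : Fin K) : Finset ℝ :=
  insert 0 (E.biUnion fun i => (S i e).image fun x => g i * x)

theorem card_Fs (S : Fin K → Fin K → Finset ℝ) (r : ℕ) (hS : ∀ i j, (S i j).card ≤ r)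
    (E : Finset (Fin K)) (g : Fin K → ℝ) (e : Fin K) : (Fs S E g e).card ≤ 1 + K * r := by
  unfold Fs
  refine (Finset.card_insert_le _ _).trans ?_
  have h1 : (E.biUnion fun i => (S i e).image fun x => g i * x).card ≤ E.card * r :=
    Finset.card_biUnion_le_card_mul _ _ _ fun i _ => (Finset.card_image_le).trans (hS i e)
  have h2 : E.card ≤ K := by
    have := Finset.card_le_univ E
    simpa using this
  have h3 : E.card * r ≤ K * r := Nat.mul_le_mul_right _ h2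
  omega

/-- The few scales. -/
def Few (U : Submodule ℝ (Fin K → ℝ)) (r : ℕ) (S : Fin K → Fin K → Finset ℝ) : Prop :=
  (∀ i j, (S i j).card ≤ r ∧ ∀ s ∈ S i j, 0 < s) ∧
    ∀ C, Ele U C → ∀ i j, C i ≠ 0 → C j ≠ 0 → ∃ s ∈ S i j, s ≤ |C i / C j| ∧
      |C i / C j| ≤ 2 ^ r * s

theorem exists_val {U : Submodule ℝ (Fin K → ℝ)} {r : ℕ} {S : Fin K → Fin K → Finset ℝ}
    (hF : Few U r S) (E : Finset (Fin K)) (g : Fin K → ℝ) (hg : ∀ i ∈ E, 0 < g i) (e : Fin K)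
    (C : Fin K → ℝ) (hC : Ele U C) (h0 : ∀ i, 0 ≤ C i) (he : 0 < C e) :
    ∃ v ∈ Fs S E g e, 0 ≤ v ∧ (∀ i ∈ E, g i * C i ≤ 2 ^ r * C e * v) ∧
      (v = 0 ∨ ∃ j ∈ E, C e * v ≤ g j * C j) := by
  by_cases h : ∃ i ∈ E, 0 < C i
  · obtain ⟨i₀, hi₀, hpos⟩ := h
    obtain ⟨j, hj, hmax⟩ := Finset.exists_max_image E (fun i => g i * C i) ⟨i₀, hi₀⟩
    have h1 : 0 < g j * C j := lt_of_lt_of_le (mul_pos (hg i₀ hi₀) hpos) (hmax i₀ hi₀)
    have hCj : 0 < C j := (pos_iff_pos_of_mul_pos h1).1 (hg j hj)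
    obtain ⟨σ, hσ, hσ1, hσ2⟩ := hF.2 C hC j e hCj.ne' he.ne'
    have hσ0 : 0 < σ := (hF.1 j e).2 σ hσ
    rw [abs_of_pos (div_pos hCj he)] at hσ1 hσ2
    rw [le_div_iff₀ he] at hσ1
    rw [div_le_iff₀ he] at hσ2
    have hgj := hg j hj
    refine ⟨g j * σ, ?_, by positivity, ?_, Or.inr ⟨j, hj, ?_⟩⟩
    · unfold Fs
      rw [Finset.mem_insert, Finset.mem_biUnion]
      exact Or.inr ⟨j, hj, Finset.mem_image_of_mem _ hσ⟩
    · intro i hi
      calc g i * C i ≤ g j * C j := hmax i hi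
        _ ≤ g j * (2 ^ r * σ * C e) := mul_le_mul_of_nonneg_left hσ2 hgj.le
        _ = 2 ^ r * C e * (g j * σ) := by ring
    · calc C e * (g j * σ) = g j * (σ * C e) := by ring
        _ ≤ g j * C j := mul_le_mul_of_nonneg_left hσ1 hgj.le
  · push Not at h
    refine ⟨0, ?_, le_rfl, ?_, Or.inl rfl⟩
    · unfold Fs
      exact Finset.mem_insert_self _ _
    · intro i hi
      have : C i = 0 := le_antisymm (h i hi) (h0 i)
      rw [this]; simp

/-- The classes of the first vector. -/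
noncomputable def F1 (S : Fin K → Fin K → Finset ℝ) (E0 E1 : Finset (Fin K)) (s : Fin K → ℝ)
    (e : Fin K) : Finset (ℝ × ℝ) := Fs S E0 (fun _ => 1) e ×ˢ Fs S E1 s e

/-- The classes of the second vector. -/
noncomputable def F2 (S : Fin K → Fin K → Finset ℝ) (E1 : Finset (Fin K)) (s : Fin K → ℝ) :
    Finset (ℝ × ℝ) :=
  insert (0, 1) ((Finset.univ.biUnion fun j => Fs S E1 s j).image fun w => ((1 : ℝ), w))

theorem card_F1 (S : Fin K → Fin K → Finset ℝ) (r : ℕ) (hS : ∀ i j, (S i j).card ≤ r)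
    (E0 E1 : Finset (Fin K)) (s : Fin K → ℝ) (e : Fin K) :
    (F1 S E0 E1 s e).card ≤ (1 + K * r) * (1 + K * r) := by
  unfold F1
  rw [Finset.card_product]
  exact Nat.mul_le_mul (card_Fs S r hS _ _ _) (card_Fs S r hS _ _ _)

theorem card_F2 (S : Fin K → Fin K → Finset ℝ) (r : ℕ) (hS : ∀ i j, (S i j).card ≤ r)
    (E1 : Finset (Fin K)) (s : Fin K → ℝ) : (F2 S E1 s).card ≤ 1 + K * (1 + K * r) := by
  unfold F2
  refine (Finset.card_insert_le _ _).trans ?_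
  have h1 := (Finset.card_image_le (s := Finset.univ.biUnion fun j => Fs S E1 s j)
    (f := fun w => ((1 : ℝ), w)))
  have h2 : (Finset.univ.biUnion fun j => Fs S E1 s j).card ≤
      (Finset.univ : Finset (Fin K)).card * (1 + K * r) :=
    Finset.card_biUnion_le_card_mul _ _ _ fun j _ => card_Fs S r hS _ _ _
  rw [Finset.card_univ, Fintype.card_fin] at h2
  omega

theorem exists_F1 {U : Submodule ℝ (Fin K → ℝ)} {r : ℕ} {S : Fin K → Fin K → Finset ℝ}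
    (hF : Few U r S) (E0 E1 : Finset (Fin K)) (s : Fin K → ℝ) (hs : ∀ i ∈ E1, 0 < s i)
    (e : Fin K) (C : Fin K → ℝ) (hC : Ele U C) (h0 : ∀ i, 0 ≤ C i) (he : 0 < C e) :
    ∃ v ∈ F1 S E0 E1 s e, Cl E0 E1 s (2 ^ r) v (C e) C := by
  obtain ⟨v0, hv0, h1, h2, h3⟩ := exists_val hF E0 (fun _ => 1) (fun _ _ => one_pos) e C hC h0 he
  obtain ⟨v1, hv1, h4, h5, h6⟩ := exists_val hF E1 s hs e C hC h0 he
  refine ⟨(v0, v1), Finset.mem_product.2 ⟨hv0, hv1⟩, h1, h4, ?_, h5, ?_, h6⟩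
  · intro i hi
    have := h2 i hi
    rwa [one_mul] at this
  · rcases h3 with h3 | ⟨j, hj, h3⟩
    · exact Or.inl h3
    · rw [one_mul] at h3
      exact Or.inr ⟨j, hj, h3⟩

theorem exists_F2 {U : Submodule ℝ (Fin K → ℝ)} {r : ℕ} {S : Fin K → Fin K → Finset ℝ}
    (hF : Few U r S) (E0 E1 : Finset (Fin K)) (s : Fin K → ℝ) (hs : ∀ i ∈ E1, 0 < s i)
    (hE : ∀ i, i ∈ E0 ∨ i ∈ E1) (C : Fin K → ℝ) (hC : Ele U C) (h0 : ∀ i, 0 ≤ C i) :
    ∃ w ∈ F2 S E1 s, ∃ μ : ℝ, 0 < μ ∧ Cl E0 E1 s (2 ^ r) w μ C := by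
  have hr : (1 : ℝ) ≤ 2 ^ r := one_le_pow₀ (by norm_num)
  by_cases h : ∃ i ∈ E0, 0 < C i
  · obtain ⟨i₀, hi₀, hpos⟩ := h
    obtain ⟨j, hj, hmax⟩ := Finset.exists_max_image E0 C ⟨i₀, hi₀⟩
    have hCj : 0 < C j := lt_of_lt_of_le hpos (hmax i₀ hi₀)
    obtain ⟨w, hw, h1, h2, h3⟩ := exists_val hF E1 s hs j C hC h0 hCj
    refine ⟨(1, w), ?_, C j, hCj, zero_le_one, h1, ?_, h2, Or.inr ⟨j, hj, ?_⟩, h3⟩
    · unfold F2
      rw [Finset.mem_insert]
      exact Or.inr (Finset.mem_image_of_mem _ (Finset.mem_biUnion.2 ⟨j, Finset.mem_univ _, hw⟩))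
    · intro i hi
      have := hmax i hi
      simp only [mul_one]
      nlinarith
    · simp only [mul_one]; exact le_rfl
  · push Not at h
    -- all coordinates are in `E1`
    obtain ⟨i₀, hi₀⟩ : ∃ i, C i ≠ 0 := by
      by_contra hc
      push Not at hc
      exact hC.2.1 (funext hc)
    have hi₀p : 0 < C i₀ := lt_of_le_of_ne (h0 i₀) (Ne.symm hi₀)
    have hi₀1 : i₀ ∈ E1 := by
      rcases hE i₀ with h' | h'
      · exact absurd (h i₀ h') (not_le.2 hi₀p)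
      · exact h'
    obtain ⟨l, hl, hmax⟩ := Finset.exists_max_image E1 (fun i => s i * C i) ⟨i₀, hi₀1⟩
    have hpos : 0 < s l * C l := lt_of_lt_of_le (mul_pos (hs i₀ hi₀1) hi₀p) (hmax i₀ hi₀1)
    refine ⟨(0, 1), Finset.mem_insert_self _ _, s l * C l, hpos, le_rfl, zero_le_one, ?_, ?_,
      Or.inl rfl, Or.inr ⟨l, hl, ?_⟩⟩
    · intro i hi
      simp only [mul_zero]
      exact h i hi
    · intro i hi
      have := hmax i hi
      simp only [mul_one]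
      nlinarith
    · simp only [mul_one]; exact le_rfl

/-- The vector of bounds at `t`. -/
def Caps (E0 E1 : Finset (Fin K)) (s : Fin K → ℝ) (t : ℝ) (m : Fin K → ℝ) : Prop :=
  (∀ i ∈ E0, m i = 1) ∧ ∀ i ∈ E1, m i = t / s i

/-- From a class to the bounds. -/
theorem le_caps {E0 E1 : Finset (Fin K)} {s : Fin K → ℝ} (hs : ∀ i ∈ E1, 0 < s i)
    (hE : ∀ i, i ∈ E0 ∨ i ∈ E1) {t : ℝ} (ht : 0 < t) {m : Fin K → ℝ} (hm : Caps E0 E1 s t m)
    {R : ℝ} {v : ℝ × ℝ} {u : ℝ} {C : Fin K → ℝ} (hC : Cl E0 E1 s R v u C) {l : ℝ} (hl : 0 ≤ l)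
    (h1 : l * (R * u) * max v.1 (v.2 / t) ≤ 1) (hRu : 0 ≤ R * u) (i : Fin K) :
    l * C i ≤ m i := by
  obtain ⟨-, -, hc0, hc1, -, -⟩ := hC
  have hlR : 0 ≤ l * (R * u) := mul_nonneg hl hRu
  rcases hE i with hi | hi
  · rw [hm.1 i hi]
    calc l * C i ≤ l * (R * u * v.1) := mul_le_mul_of_nonneg_left (hc0 i hi) hl
      _ = l * (R * u) * v.1 := by ring
      _ ≤ l * (R * u) * max v.1 (v.2 / t) := mul_le_mul_of_nonneg_left (le_max_left _ _) hlR
      _ ≤ 1 := h1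
  · rw [hm.2 i hi, le_div_iff₀ (hs i hi)]
    calc l * C i * s i = l * (s i * C i) := by ring
      _ ≤ l * (R * u * v.2) := mul_le_mul_of_nonneg_left (hc1 i hi) hl
      _ = l * (R * u) * (v.2 / t) * t := by field_simp
      _ ≤ l * (R * u) * max v.1 (v.2 / t) * t := by
          refine mul_le_mul_of_nonneg_right ?_ ht.le
          exact mul_le_mul_of_nonneg_left (le_max_right _ _) hlR
      _ ≤ 1 * t := mul_le_mul_of_nonneg_right h1 ht.le
      _ = t := one_mul t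

/-- From the bounds to a class. -/
theorem caps_le {E0 E1 : Finset (Fin K)} {s : Fin K → ℝ} (hs : ∀ i ∈ E1, 0 < s i)
    {t : ℝ} (ht : 0 < t) {m : Fin K → ℝ} (hm : Caps E0 E1 s t m)
    {R : ℝ} {v : ℝ × ℝ} {u : ℝ} {C : Fin K → ℝ} (hC : Cl E0 E1 s R v u C)
    (hle : ∀ i, C i ≤ m i) : u * max v.1 (v.2 / t) ≤ 1 := by
  obtain ⟨-, -, -, -, h0, h1⟩ := hC
  rcases max_choice v.1 (v.2 / t) with h | h
  · rw [h]
    rcases h0 with h0 | ⟨j, hj, h0⟩
    · rw [h0, mul_zero]; exact zero_le_one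
    · have := hle j
      rw [hm.1 j hj] at this
      exact h0.trans this
  · rw [h]
    rcases h1 with h1 | ⟨l, hl, h1⟩
    · rw [h1, zero_div, mul_zero]; exact zero_le_one
    · have := hle l
      rw [hm.2 l hl, le_div_iff₀ (hs l hl)] at this
      rw [← mul_div_assoc, div_le_one ht]
      linarith

/-- A class of a vector with a positive coordinate is not zero. -/
theorem cl_pos {E0 E1 : Finset (Fin K)} {s : Fin K → ℝ} (hs : ∀ i ∈ E1, 0 < s i)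
    (hE : ∀ i, i ∈ E0 ∨ i ∈ E1) {t : ℝ} (ht : 0 < t)
    {R : ℝ} {v : ℝ × ℝ} {u : ℝ} {C : Fin K → ℝ} (hC : Cl E0 E1 s R v u C) (e : Fin K)
    (he : 0 < C e) : 0 < max v.1 (v.2 / t) := by
  obtain ⟨h1, h2, hc0, hc1, -, -⟩ := hC
  rcases hE e with h | h
  · have h3 := hc0 e h
    have h4 : v.1 ≠ 0 := by
      intro h0
      rw [h0, mul_zero] at h3
      linarith
    exact lt_max_of_lt_left (lt_of_le_of_ne h1 (Ne.symm h4))
  · have h3 := hc1 e h
    have h4 : v.2 ≠ 0 := by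
      intro h0
      rw [h0, mul_zero] at h3
      have := mul_pos (hs e h) he
      linarith
    exact lt_max_of_lt_right (div_pos (lt_of_le_of_ne h2 (Ne.symm h4)) ht)

/-- The possible values of the parameter for a pair of classes. -/
def Ns (V : Submodule ℝ (Fin K → ℝ)) (E0 E1 : Finset (Fin K)) (s : Fin K → ℝ) (R : ℝ)
    (e : Fin K) (d : Fin K → ℝ) (v w : ℝ × ℝ) : Set ℝ :=
  {ν | ∃ C1 ∈ V, ∃ C2 ∈ V, (∀ i, 0 ≤ C1 i) ∧ (∀ i, 0 ≤ C2 i) ∧ 0 < C1 e ∧ 0 < d ⬝ᵥ C1 ∧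
    d ⬝ᵥ C2 < 0 ∧ Cl E0 E1 s R v (C1 e) C1 ∧ ∃ μ : ℝ, 0 < μ ∧ Cl E0 E1 s R w μ C2 ∧
    ν = (d ⬝ᵥ C1 / (-(d ⬝ᵥ C2))) * μ / C1 e}

theorem lower {V : Submodule ℝ (Fin K → ℝ)} {E0 E1 : Finset (Fin K)} {s : Fin K → ℝ} {R : ℝ}
    (hR : 0 < R) {e : Fin K} {d : Fin K → ℝ} {v w : ℝ × ℝ} (hs : ∀ i ∈ E1, 0 < s i)
    (hE : ∀ i, i ∈ E0 ∨ i ∈ E1) {t : ℝ} (ht : 0 < t) {m : Fin K → ℝ} (hm : Caps E0 E1 s t m)
    {z : ℝ} (hz : ∀ x ∈ V, d ⬝ᵥ x = 0 → (∀ i, 0 ≤ x i ∧ x i ≤ m i) → x e ≤ z) {ν : ℝ}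
    (hν : ν ∈ Ns V E0 E1 s R e d v w) :
    1 ≤ 2 * R * z * max v.1 (v.2 / t) ∨ 1 ≤ 2 * R * z * (ν * max w.1 (w.2 / t)) := by
  obtain ⟨C1, hC1, C2, hC2, h01, h02, he, hd1, hd2, hv, μ, hμ, hw, rfl⟩ := hν
  set M1 := max v.1 (v.2 / t) with hM1
  set M2 := max w.1 (w.2 / t) with hM2
  set θ := d ⬝ᵥ C1 / (-(d ⬝ᵥ C2)) with hθ
  have hθ0 : 0 < θ := div_pos hd1 (by linarith)
  have hM1p : 0 < M1 := cl_pos hs hE ht hv e he
  set M := max M1 (θ * μ / C1 e * M2) with hM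
  have hMp : 0 < M := lt_max_of_lt_left hM1p
  set l := 1 / (R * C1 e * M) with hl
  have hlp : 0 < l := by positivity
  have b1 : ∀ i, l * C1 i ≤ m i := by
    intro i
    refine le_caps hs hE ht hm hv hlp.le ?_ (by positivity) i
    rw [← hM1, hl]
    have : 1 / (R * C1 e * M) * (R * C1 e) * M1 = M1 / M := by field_simp
    rw [this, div_le_one hMp]
    exact le_max_left _ _
  have b2 : ∀ i, l * θ * C2 i ≤ m i := by
    intro i
    refine le_caps hs hE ht hm hw (by positivity) ?_ (by positivity) i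
    rw [← hM2, hl]
    have : 1 / (R * C1 e * M) * θ * (R * μ) * M2 = (θ * μ / C1 e * M2) / M := by field_simp
    rw [this, div_le_one hMp]
    exact le_max_right _ _
  have hx := hz ((l / 2) • (C1 + θ • C2)) (V.smul_mem _ (V.add_mem hC1 (V.smul_mem _ hC2))) (by
    rw [dotProduct_smul, dotProduct_add, dotProduct_smul, smul_eq_mul, smul_eq_mul, hθ]
    have : d ⬝ᵥ C1 / -(d ⬝ᵥ C2) * (d ⬝ᵥ C2) = -(d ⬝ᵥ C1) := by
      have h' : d ⬝ᵥ C2 ≠ 0 := hd2.ne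
      field_simp
    rw [this, add_neg_cancel, mul_zero]) (by
    intro i
    simp only [Pi.smul_apply, Pi.add_apply, smul_eq_mul]
    have h1 := h01 i
    have h2 := h02 i
    refine ⟨by positivity, ?_⟩
    have h3 := b1 i
    have h4 := b2 i
    have e1 : l / 2 * (C1 i + θ * C2 i) = (l * C1 i + l * θ * C2 i) / 2 := by ring
    rw [e1]
    linarith)
  simp only [Pi.smul_apply, Pi.add_apply, smul_eq_mul] at hx
  have h5 : l / 2 * C1 e ≤ z := by
    refine le_trans ?_ hx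
    refine mul_le_mul_of_nonneg_left ?_ (by positivity)
    have := mul_nonneg hθ0.le (h02 e)
    linarith
  have h6 : 1 ≤ 2 * R * z * M := by
    have e2 : l / 2 * C1 e = 1 / (2 * R * M) := by
      rw [hl]; field_simp
    rw [e2, div_le_iff₀ (by positivity)] at h5
    linarith
  rcases max_choice M1 (θ * μ / C1 e * M2) with h | h
  · left
    rw [← h]; exact h6
  · right
    rw [← h]; exact h6

theorem lower0 {V : Submodule ℝ (Fin K → ℝ)} {E0 E1 : Finset (Fin K)} {s : Fin K → ℝ} {R : ℝ}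
    (hR : 0 < R) {e : Fin K} {d : Fin K → ℝ} {v : ℝ × ℝ} (hs : ∀ i ∈ E1, 0 < s i)
    (hE : ∀ i, i ∈ E0 ∨ i ∈ E1) {t : ℝ} (ht : 0 < t) {m : Fin K → ℝ} (hm : Caps E0 E1 s t m)
    {z : ℝ} (hz : ∀ x ∈ V, d ⬝ᵥ x = 0 → (∀ i, 0 ≤ x i ∧ x i ≤ m i) → x e ≤ z)
    {C1 : Fin K → ℝ} (hC1 : C1 ∈ V) (h01 : ∀ i, 0 ≤ C1 i) (he : 0 < C1 e) (hd1 : d ⬝ᵥ C1 = 0)
    (hv : Cl E0 E1 s R v (C1 e) C1) :
    1 ≤ 2 * R * z * max v.1 (v.2 / t) := by
  set M := max v.1 (v.2 / t) with hM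
  have hMp : 0 < M := cl_pos hs hE ht hv e he
  set l := 1 / (R * C1 e * M) with hl
  have hlp : 0 < l := by positivity
  have b1 : ∀ i, l * C1 i ≤ m i := by
    intro i
    refine le_caps hs hE ht hm hv hlp.le ?_ (by positivity) i
    rw [← hM, hl]
    have : 1 / (R * C1 e * M) * (R * C1 e) * M = 1 := by field_simp
    rw [this]
  have hx := hz (l • C1) (V.smul_mem _ hC1) (by
    rw [dotProduct_smul, hd1, smul_zero]) (by
    intro i
    simp only [Pi.smul_apply, smul_eq_mul]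
    exact ⟨mul_nonneg hlp.le (h01 i), b1 i⟩)
  simp only [Pi.smul_apply, smul_eq_mul] at hx
  have e2 : l * C1 e = 1 / (R * M) := by
    rw [hl]; field_simp
  rw [e2, div_le_iff₀ (by positivity)] at hx
  have : 0 < z * (R * M) := by linarith
  linarith

/-- The four lines of a pair of classes. -/
noncomputable def Ln (V : Submodule ℝ (Fin K → ℝ)) (E0 E1 : Finset (Fin K)) (s : Fin K → ℝ)
    (R : ℝ) (e : Fin K) (d : Fin K → ℝ) (p : (ℝ × ℝ) × (ℝ × ℝ)) : Finset (ℝ × Bool) :=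
  {(-Real.logb 2 p.1.1, false), (-Real.logb 2 p.1.2, true),
    (-Real.logb 2 (sInf (Ns V E0 E1 s R e d p.1 p.2) * p.2.1), false),
    (-Real.logb 2 (sInf (Ns V E0 E1 s R e d p.1 p.2) * p.2.2), true)}

/-- A value between bounds is near one of two lines. -/
theorem near {z y p p' B : ℝ} {r : ℕ} (hz : 0 < z)
    (h1 : 1 ≤ 2 * 2 ^ r * z * max p (p' / 2 ^ y)) (h2 : z * max p (p' / 2 ^ y) ≤ B) :
    |Real.logb 2 z - (-Real.logb 2 p)| ≤ r + 1 + max 0 (Real.logb 2 B) ∨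
    |Real.logb 2 z - (-Real.logb 2 p' + y)| ≤ r + 1 + max 0 (Real.logb 2 B) := by
  have h2y : (0 : ℝ) < 2 ^ y := Real.rpow_pos_of_pos (by norm_num) y
  have key : ∀ q : ℝ, 1 ≤ 2 * 2 ^ r * z * q → z * q ≤ B → 0 < q ∧
      |Real.logb 2 z + Real.logb 2 q| ≤ r + 1 + max 0 (Real.logb 2 B) := by
    intro q hq1 hq2
    have hq : 0 < q := by
      by_contra hc
      push Not at hc
      have : 2 * 2 ^ r * z * q ≤ 0 := mul_nonpos_of_nonneg_of_nonpos (by positivity) hc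
      linarith
    refine ⟨hq, ?_⟩
    have hl1 : 0 ≤ Real.logb 2 (2 * 2 ^ r * z * q) := Real.logb_nonneg (by norm_num) hq1
    have e1 : Real.logb 2 (2 * 2 ^ r * z * q) = r + 1 + (Real.logb 2 z + Real.logb 2 q) := by
      rw [Real.logb_mul (by positivity) hq.ne', Real.logb_mul (by positivity) hz.ne',
        Real.logb_mul (by norm_num) (by positivity), Real.logb_pow, Real.logb_self_eq_one
          (by norm_num)]
      ring
    have hl2 : Real.logb 2 (z * q) ≤ Real.logb 2 B :=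
      Real.logb_le_logb_of_le (by norm_num) (by positivity) hq2
    rw [Real.logb_mul hz.ne' hq.ne'] at hl2
    rw [e1] at hl1
    have hr : (0 : ℝ) ≤ r := Nat.cast_nonneg r
    have hm1 := le_max_left 0 (Real.logb 2 B)
    have hm2 := le_max_right 0 (Real.logb 2 B)
    rw [abs_le]
    constructor <;> linarith
  rcases max_choice p (p' / 2 ^ y) with h | h
  · rw [h] at h1 h2
    left
    have := (key p h1 h2).2
    rwa [sub_neg_eq_add]
  · rw [h] at h1 h2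
    right
    obtain ⟨hq, hk⟩ := key _ h1 h2
    have hp' : 0 < p' := by
      have := mul_pos hq h2y
      rwa [div_mul_cancel₀ _ h2y.ne'] at this
    rw [Real.logb_div hp'.ne' h2y.ne', Real.logb_rpow (by norm_num) (by norm_num)] at hk
    have e2 : Real.logb 2 z - (-Real.logb 2 p' + y) = Real.logb 2 z + (Real.logb 2 p' - y) := by
      ring
    rwa [e2]

/-- The case of a vector on which `d` is positive. -/
theorem pos_case {V : Submodule ℝ (Fin K → ℝ)} {r : ℕ} {S : Fin K → Fin K → Finset ℝ}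
    (hF : Few V r S) {E0 E1 : Finset (Fin K)} {s : Fin K → ℝ} {e : Fin K} {d : Fin K → ℝ}
    (hs : ∀ i ∈ E1, 0 < s i) (hE : ∀ i, i ∈ E0 ∨ i ∈ E1) {y : ℝ} {m : Fin K → ℝ}
    (hm : Caps E0 E1 s (2 ^ y) m) {z : ℝ} (hz0 : 0 < z)
    (hz : ∀ x ∈ V, d ⬝ᵥ x = 0 → (∀ i, 0 ≤ x i ∧ x i ≤ m i) → x e ≤ z)
    {C1 C2 : Fin K → ℝ} (h1 : Ele V C1) (h2 : Ele V C2) (h01 : ∀ i, 0 ≤ C1 i)
    (h02 : ∀ i, 0 ≤ C2 i) (hm1 : ∀ i, C1 i ≤ m i) (hm2 : ∀ i, C2 i ≤ m i)
    (he : z ≤ K * C1 e) (hd1 : 0 < d ⬝ᵥ C1) (hd2 : d ⬝ᵥ C1 ≤ K * (-(d ⬝ᵥ C2))) :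
    ∃ p ∈ F1 S E0 E1 s e ×ˢ F2 S E1 s, ∃ L ∈ Ln V E0 E1 s (2 ^ r) e d p,
      |Real.logb 2 z - (L.1 + if L.2 then y else 0)| ≤
        r + 1 + max 0 (Real.logb 2 ((K : ℝ) ^ 2)) := by
  have ht : (0 : ℝ) < 2 ^ y := Real.rpow_pos_of_pos (by norm_num) y
  have hK1 : (1 : ℝ) ≤ K := by exact_mod_cast e.pos
  have hK0 : (0 : ℝ) < K := by linarith
  have he0 : 0 < C1 e := by
    by_contra hc
    push Not at hc
    have : (K : ℝ) * C1 e ≤ 0 := mul_nonpos_of_nonneg_of_nonpos hK0.le hc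
    linarith
  have hd2' : d ⬝ᵥ C2 < 0 := by
    by_contra hc
    push Not at hc
    have : (K : ℝ) * (-(d ⬝ᵥ C2)) ≤ 0 := mul_nonpos_of_nonneg_of_nonpos hK0.le (by linarith)
    linarith
  obtain ⟨v, hv, hvc⟩ := exists_F1 hF E0 E1 s hs e C1 h1 h01 he0
  obtain ⟨w, hw, μ, hμ, hwc⟩ := exists_F2 hF E0 E1 s hs hE C2 h2 h02
  refine ⟨(v, w), Finset.mem_product.2 ⟨hv, hw⟩, ?_⟩
  by_cases hi : 1 ≤ 2 * 2 ^ r * z * max v.1 (v.2 / 2 ^ y)
  · have hc := caps_le hs ht hm hvc hm1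
    have hpos : 0 < max v.1 (v.2 / 2 ^ y) := cl_pos hs hE ht hvc e he0
    have hup : z * max v.1 (v.2 / 2 ^ y) ≤ (K : ℝ) ^ 2 := by
      calc z * max v.1 (v.2 / 2 ^ y) ≤ (K * C1 e) * max v.1 (v.2 / 2 ^ y) :=
            mul_le_mul_of_nonneg_right he hpos.le
        _ = K * (C1 e * max v.1 (v.2 / 2 ^ y)) := by ring
        _ ≤ K * 1 := mul_le_mul_of_nonneg_left hc hK0.le
        _ ≤ (K : ℝ) ^ 2 := by nlinarith
    rcases near hz0 hi hup with h | h
    · refine ⟨(-Real.logb 2 v.1, false), ?_, ?_⟩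
      · unfold Ln; simp
      · simpa using h
    · refine ⟨(-Real.logb 2 v.2, true), ?_, ?_⟩
      · unfold Ln; simp
      · simpa using h
  · have hlow : ∀ ν ∈ Ns V E0 E1 s (2 ^ r) e d v w,
        1 ≤ 2 * 2 ^ r * z * (ν * max w.1 (w.2 / 2 ^ y)) := by
      intro ν hν
      rcases lower (by positivity) hs hE ht hm hz hν with h | h
      · exact absurd h hi
      · exact h
    set M2 := max w.1 (w.2 / 2 ^ y) with hM2
    set ν₀ := (d ⬝ᵥ C1 / (-(d ⬝ᵥ C2))) * μ / C1 e with hν₀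
    have hν₀m : ν₀ ∈ Ns V E0 E1 s (2 ^ r) e d v w :=
      ⟨C1, h1.1, C2, h2.1, h01, h02, he0, hd1, hd2', hvc, μ, hμ, hwc, rfl⟩
    have hNpos : ∀ ν ∈ Ns V E0 E1 s (2 ^ r) e d v w, 0 < ν := by
      rintro ν ⟨D1, -, D2, -, -, -, q1, q2, q3, -, μ', q4, -, rfl⟩
      have : 0 < -(d ⬝ᵥ D2) := by linarith
      positivity
    have hν₀p := hNpos ν₀ hν₀m
    have hM2p : 0 < M2 := by
      by_contra hc
      push Not at hc
      have h3 := hlow ν₀ hν₀m
      have : 2 * 2 ^ r * z * (ν₀ * M2) ≤ 0 :=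
        mul_nonpos_of_nonneg_of_nonpos (by positivity)
          (mul_nonpos_of_nonneg_of_nonpos hν₀p.le hc)
      linarith
    set νs := sInf (Ns V E0 E1 s (2 ^ r) e d v w) with hνs
    have hle : 1 / (2 * 2 ^ r * z * M2) ≤ νs := by
      refine le_csInf ⟨ν₀, hν₀m⟩ fun ν hν => ?_
      rw [div_le_iff₀ (by positivity)]
      have := hlow ν hν
      linarith
    have hνsp : 0 < νs := lt_of_lt_of_le (by positivity) hle
    have hle2 : νs ≤ ν₀ := csInf_le ⟨0, fun ν hν => (hNpos ν hν).le⟩ hν₀m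
    rw [div_le_iff₀ (by positivity)] at hle
    have emax : νs * M2 = max (νs * w.1) (νs * w.2 / 2 ^ y) := by
      rw [hM2, mul_max_of_nonneg _ _ hνsp.le, mul_div_assoc]
    have hlo : 1 ≤ 2 * 2 ^ r * z * max (νs * w.1) (νs * w.2 / 2 ^ y) := by
      rw [← emax]; linarith
    have hup : z * max (νs * w.1) (νs * w.2 / 2 ^ y) ≤ (K : ℝ) ^ 2 := by
      rw [← emax]
      have hc := caps_le hs ht hm hwc hm2
      have hθ : d ⬝ᵥ C1 / (-(d ⬝ᵥ C2)) ≤ K := by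
        rw [div_le_iff₀ (by linarith)]
        exact hd2
      have hθ0 : 0 < d ⬝ᵥ C1 / (-(d ⬝ᵥ C2)) := div_pos hd1 (by linarith)
      calc z * (νs * M2) ≤ z * (ν₀ * M2) := by
            refine mul_le_mul_of_nonneg_left ?_ hz0.le
            exact mul_le_mul_of_nonneg_right hle2 hM2p.le
        _ ≤ (K * C1 e) * (ν₀ * M2) := mul_le_mul_of_nonneg_right he (by positivity)
        _ = K * ((d ⬝ᵥ C1 / (-(d ⬝ᵥ C2))) * (μ * M2)) := by
            rw [hν₀]; field_simp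
        _ ≤ K * (K * 1) := by
            refine mul_le_mul_of_nonneg_left ?_ hK0.le
            exact mul_le_mul hθ hc (by positivity) hK0.le
        _ = (K : ℝ) ^ 2 := by ring
    rcases near hz0 hlo hup with h | h
    · refine ⟨(-Real.logb 2 (νs * w.1), false), ?_, ?_⟩
      · unfold Ln; simp [hνs]
      · simpa using h
    · refine ⟨(-Real.logb 2 (νs * w.2), true), ?_, ?_⟩
      · unfold Ln; simp [hνs]
      · simpa using h

/-- All lines. -/
noncomputable def Lns (V : Submodule ℝ (Fin K → ℝ)) (S : Fin K → Fin K → Finset ℝ)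
    (E0 E1 : Finset (Fin K)) (s : Fin K → ℝ) (R : ℝ) (e : Fin K) (d : Fin K → ℝ) :
    Finset (ℝ × Bool) :=
  (F1 S E0 E1 s e ×ˢ F2 S E1 s).biUnion fun p => Ln V E0 E1 s R e d p ∪ Ln V E0 E1 s R e (-d) p

theorem card_Lns (V : Submodule ℝ (Fin K → ℝ)) (S : Fin K → Fin K → Finset ℝ) (r : ℕ)
    (hS : ∀ i j, (S i j).card ≤ r) (E0 E1 : Finset (Fin K)) (s : Fin K → ℝ) (R : ℝ) (e : Fin K)
    (d : Fin K → ℝ) : (Lns V S E0 E1 s R e d).card ≤
      ((1 + K * r) * (1 + K * r)) * (1 + K * (1 + K * r)) * 8 := by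
  unfold Lns
  refine (Finset.card_biUnion_le_card_mul _ _ 8 fun p _ => ?_).trans ?_
  · refine (Finset.card_union_le _ _).trans ?_
    have h4 : ∀ d' : Fin K → ℝ, (Ln V E0 E1 s R e d' p).card ≤ 4 := fun d' => Finset.card_le_four
    have := h4 d
    have := h4 (-d)
    omega
  · rw [Finset.card_product]
    refine Nat.mul_le_mul_right _ (Nat.mul_le_mul (card_F1 S r hS E0 E1 s e)
      (card_F2 S r hS E1 s))

theorem dot_sum (d : Fin K → ℝ) {n : ℕ} (C : Fin n → Fin K → ℝ) :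
    d ⬝ᵥ (∑ k, C k) = ∑ k, d ⬝ᵥ C k := by
  simp only [dotProduct, Finset.sum_apply, Finset.mul_sum]
  rw [Finset.sum_comm]

/-- the maximum is near one of the lines -/
theorem core (hC : S_CONF) {V : Submodule ℝ (Fin K → ℝ)} {r : ℕ} {S : Fin K → Fin K → Finset ℝ}
    (hF : Few V r S) {E0 E1 : Finset (Fin K)} {s : Fin K → ℝ} {e : Fin K} {d : Fin K → ℝ}
    (hs : ∀ i ∈ E1, 0 < s i) (hE : ∀ i, i ∈ E0 ∨ i ∈ E1) {y : ℝ} {m : Fin K → ℝ}
    (hm : Caps E0 E1 s (2 ^ y) m) {z : ℝ} (hz0 : 0 < z)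
    (hz : ∀ x ∈ V, d ⬝ᵥ x = 0 → (∀ i, 0 ≤ x i ∧ x i ≤ m i) → x e ≤ z)
    {x : Fin K → ℝ} (hx : x ∈ V) (hdx : d ⬝ᵥ x = 0) (hxm : ∀ i, 0 ≤ x i ∧ x i ≤ m i)
    (hxz : x e = z) :
    ∃ L ∈ Lns V S E0 E1 s (2 ^ r) e d,
      |Real.logb 2 z - (L.1 + if L.2 then y else 0)| ≤
        r + 1 + max 0 (Real.logb 2 ((K : ℝ) ^ 2)) := by
  have ht : (0 : ℝ) < 2 ^ y := Real.rpow_pos_of_pos (by norm_num) y
  have hK1 : (1 : ℝ) ≤ K := by exact_mod_cast e.pos
  have hK0 : (0 : ℝ) < K := by linarith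
  obtain ⟨C, hCe, hCc, hCs⟩ := hC K V x hx
  have hCi : ∀ k i, 0 ≤ C k i ∧ C k i ≤ x i := by
    intro k i
    obtain ⟨h1, h2⟩ := hCc k i
    rw [abs_of_nonneg (hxm i).1] at h2
    refine ⟨?_, (le_abs_self _).trans h2⟩
    rcases (hxm i).1.lt_or_eq with h | h
    · by_contra hc
      push Not at hc
      have := mul_neg_of_neg_of_pos hc h
      linarith
    · rw [← h] at h2
      have := abs_nonpos_iff.1 h2
      rw [this]
  have hCm : ∀ k i, C k i ≤ m i := fun k i => (hCi k i).2.trans (hxm i).2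
  -- the first vector
  obtain ⟨k1, hk1⟩ : ∃ k, z ≤ K * C k e := by
    by_contra hc
    push Not at hc
    have h1 : ∑ k : Fin K, (K : ℝ) * C k e < ∑ _k : Fin K, z :=
      Finset.sum_lt_sum_of_nonempty ⟨e, Finset.mem_univ _⟩ fun k _ => hc k
    rw [← Finset.mul_sum, Finset.sum_const, Finset.card_univ, Fintype.card_fin, nsmul_eq_mul]
      at h1
    have h2 : ∑ k : Fin K, C k e = z := by
      rw [← hxz]
      conv_rhs => rw [hCs]
      rw [Finset.sum_apply]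
    rw [h2] at h1
    exact lt_irrefl _ h1
  have hk1p : 0 < C k1 e := by
    by_contra hc
    push Not at hc
    have : (K : ℝ) * C k1 e ≤ 0 := mul_nonpos_of_nonneg_of_nonpos hK0.le hc
    linarith
  have hEle : ∀ k i, C k i ≠ 0 → Ele V (C k) := by
    intro k i hi
    rcases hCe k with h | h
    · exact absurd (congrFun h i) hi
    · exact h
  have hE1 : Ele V (C k1) := hEle k1 e hk1p.ne'
  have hsum : ∑ k, d ⬝ᵥ C k = 0 := by rw [← dot_sum, ← hCs]; exact hdx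
  -- the second vector
  have second : ∀ d' : Fin K → ℝ, ∑ k, d' ⬝ᵥ C k = 0 → 0 < d' ⬝ᵥ C k1 →
      ∃ k2, Ele V (C k2) ∧ d' ⬝ᵥ C k1 ≤ K * (-(d' ⬝ᵥ C k2)) := by
    intro d' hsum' hpos
    have h1 : ∃ k2, d' ⬝ᵥ C k1 ≤ K * (-(d' ⬝ᵥ C k2)) := by
      by_contra hc
      push Not at hc
      have h2 : ∀ k ∈ (Finset.univ : Finset (Fin K)), 0 ≤ d' ⬝ᵥ C k1 + K * (d' ⬝ᵥ C k) := by
        intro k _
        have := hc k
        linarith
      have h3 := Finset.single_le_sum h2 (Finset.mem_univ k1)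
      rw [Finset.sum_add_distrib, ← Finset.mul_sum, hsum', Finset.sum_const, Finset.card_univ,
        Fintype.card_fin, nsmul_eq_mul] at h3
      linarith
    obtain ⟨k2, hk2⟩ := h1
    refine ⟨k2, ?_, hk2⟩
    rcases hCe k2 with h | h
    · exfalso
      rw [h, dotProduct_zero] at hk2
      linarith
    · exact h
  rcases lt_trichotomy (d ⬝ᵥ C k1) 0 with hneg | hzero | hpos
  · -- negative
    have hsum' : ∑ k, (-d) ⬝ᵥ C k = 0 := by
      simp only [neg_dotProduct, Finset.sum_neg_distrib, hsum, neg_zero]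
    have hpos' : 0 < (-d) ⬝ᵥ C k1 := by rw [neg_dotProduct]; linarith
    obtain ⟨k2, hE2, hk2⟩ := second (-d) hsum' hpos'
    obtain ⟨p, hp, L, hL, hLb⟩ := pos_case hF hs hE hm hz0 (d := -d)
      (fun x' hx' hd' hm' => hz x' hx' (by rw [neg_dotProduct] at hd'; linarith) hm')
      hE1 hE2 (fun i => (hCi k1 i).1) (fun i => (hCi k2 i).1) (hCm k1) (hCm k2) hk1 hpos' hk2
    refine ⟨L, ?_, hLb⟩
    unfold Lns
    rw [Finset.mem_biUnion]
    exact ⟨p, hp, Finset.mem_union_right _ hL⟩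
  · -- zero
    obtain ⟨v, hv, hvc⟩ := exists_F1 hF E0 E1 s hs e (C k1) hE1 (fun i => (hCi k1 i).1) hk1p
    have hi := lower0 (by positivity) hs hE ht hm hz hE1.1 (fun i => (hCi k1 i).1) hk1p hzero hvc
    have hc := caps_le hs ht hm hvc (hCm k1)
    have hpos : 0 < max v.1 (v.2 / 2 ^ y) := cl_pos hs hE ht hvc e hk1p
    have hup : z * max v.1 (v.2 / 2 ^ y) ≤ (K : ℝ) ^ 2 := by
      calc z * max v.1 (v.2 / 2 ^ y) ≤ (K * C k1 e) * max v.1 (v.2 / 2 ^ y) :=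
            mul_le_mul_of_nonneg_right hk1 hpos.le
        _ = K * (C k1 e * max v.1 (v.2 / 2 ^ y)) := by ring
        _ ≤ K * 1 := mul_le_mul_of_nonneg_left hc hK0.le
        _ ≤ (K : ℝ) ^ 2 := by nlinarith
    have hmem : ∀ L, L ∈ Ln V E0 E1 s (2 ^ r) e d (v, (0, 1)) →
        L ∈ Lns V S E0 E1 s (2 ^ r) e d := by
      intro L hL
      unfold Lns
      rw [Finset.mem_biUnion]
      exact ⟨(v, (0, 1)), Finset.mem_product.2 ⟨hv, Finset.mem_insert_self _ _⟩,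
        Finset.mem_union_left _ hL⟩
    rcases near hz0 hi hup with h | h
    · refine ⟨(-Real.logb 2 v.1, false), hmem _ ?_, ?_⟩
      · unfold Ln; simp
      · simpa using h
    · refine ⟨(-Real.logb 2 v.2, true), hmem _ ?_, ?_⟩
      · unfold Ln; simp
      · simpa using h
  · obtain ⟨k2, hE2, hk2⟩ := second d hsum hpos
    obtain ⟨p, hp, L, hL, hLb⟩ := pos_case hF hs hE hm hz0 hz
      hE1 hE2 (fun i => (hCi k1 i).1) (fun i => (hCi k2 i).1) (hCm k1) (hCm k2) hk1 hpos hk2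
    refine ⟨L, ?_, hLb⟩
    unfold Lns
    rw [Finset.mem_biUnion]
    exact ⟨p, hp, Finset.mem_union_left _ hL⟩

theorem PL_mono {a b : ℝ} {N N' : ℕ} {δ δ' : ℝ} {f : ℝ → ℝ} (h : PL a b N δ f) (hN : N ≤ N')
    (hδ : δ ≤ δ') : PL a b N' δ' f := by
  obtain ⟨Z, hZ, h1⟩ := h
  refine ⟨Z, hZ.trans hN, fun y₁ y₂ ha hy hb hz => ?_⟩
  rcases h1 y₁ y₂ ha hy hb hz with h2 | h2
  · exact Or.inl fun y h3 h4 => (h2 y h3 h4).trans hδ
  · exact Or.inr fun y h3 h4 => (h2 y h3 h4).trans hδ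

theorem logb_K (K : ℕ) (hK : 1 ≤ K) : max 0 (Real.logb 2 ((K : ℝ) ^ 2)) ≤ 2 * K := by
  have hK' : (1 : ℝ) ≤ K := by exact_mod_cast hK
  refine max_le (by positivity) ?_
  rw [Real.logb_pow]
  have h1 : Real.logb 2 K ≤ K := by
    rw [Real.logb_le_iff_le_rpow (by norm_num) (by linarith), Real.rpow_natCast]
    exact_mod_cast (Nat.lt_two_pow_self (n := K)).le
  push_cast
  linarith

/-- the number of lines -/
noncomputable def pp : Polynomial ℕ :=
  ((1 + Polynomial.X * Polynomial.X) * (1 + Polynomial.X * Polynomial.X)) *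
    (1 + Polynomial.X * (1 + Polynomial.X * Polynomial.X)) * 8

theorem pp_eval (n : ℕ) : pp.eval n = ((1 + n * n) * (1 + n * n)) * (1 + n * (1 + n * n)) * 8 := by
  unfold pp
  simp [Polynomial.eval_mul, Polynomial.eval_add]

/-- the final polynomial -/
noncomputable def qq : Polynomial ℕ :=
  2 * pp * pp + 20 * pp * (1 + 2 * Polynomial.X)

theorem qq_eval (n : ℕ) : qq.eval n = 2 * pp.eval n * pp.eval n + 20 * pp.eval n * (1 + 2 * n) := by
  unfold qq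
  simp [Polynomial.eval_mul, Polynomial.eval_add]

end HPL

open HPL in
theorem t_HPL : S_CONF → S_MX → S_SEL → S_HPL := by
  intro hC hMX hSEL
  refine ⟨qq, ?_⟩
  intro K r V d s a b e hs hab hLin hFew hpos
  obtain ⟨S, hS1, hS2⟩ := hFew
  have hF : Few V r S := ⟨hS1, hS2⟩
  classical
  set E0 : Finset (Fin K) := Finset.univ.filter (fun i => s i ≤ 2 ^ a) with hE0
  set E1 : Finset (Fin K) := Finset.univ.filter (fun i => ¬ s i ≤ 2 ^ a) with hE1
  have hE : ∀ i, i ∈ E0 ∨ i ∈ E1 := by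
    intro i
    rw [hE0, hE1, Finset.mem_filter, Finset.mem_filter]
    by_cases h : s i ≤ 2 ^ a
    · exact Or.inl ⟨Finset.mem_univ _, h⟩
    · exact Or.inr ⟨Finset.mem_univ _, h⟩
  have h2a : (0 : ℝ) < 2 ^ a := Real.rpow_pos_of_pos (by norm_num) a
  have hs1 : ∀ i ∈ E1, 0 < s i := by
    intro i hi
    rw [hE1, Finset.mem_filter] at hi
    have := hi.2
    push Not at this
    linarith
  have hK1 : 1 ≤ K := e.pos
  have hK1' : (1 : ℝ) ≤ K := by exact_mod_cast hK1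
  set V' := ker1 V d with hV'
  set g : Fin K → ℝ := Pi.single e 1 with hg
  have hgd : ∀ x : Fin K → ℝ, g ⬝ᵥ x = x e := fun x => by rw [hg, single_dotProduct, one_mul]
  -- positivity, monotonicity
  have hcap : ∀ y, a ≤ y → y ≤ b → Caps E0 E1 s (2 ^ y) (cap s (2 ^ y)) := by
    intro y hay hyb
    have h1 : (2 : ℝ) ^ a ≤ 2 ^ y := Real.rpow_le_rpow_of_exponent_le (by norm_num) hay
    have h2 : (2 : ℝ) ^ y ≤ 2 ^ b := Real.rpow_le_rpow_of_exponent_le (by norm_num) hyb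
    constructor
    · intro i hi
      rw [hE0, Finset.mem_filter] at hi
      unfold cap
      rw [if_pos (hi.2.trans h1)]
    · intro i hi
      have hsi := hs1 i hi
      rw [hE1, Finset.mem_filter] at hi
      have h3 : (2 : ℝ) ^ b ≤ s i := by
        rcases hLin i with h | h
        · exact absurd h hi.2
        · exact h
      unfold cap
      split_ifs with h4
      · have : s i = 2 ^ y := le_antisymm h4 (h2.trans h3)
        rw [← this, div_self hsi.ne']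
      · rfl
  have hty : ∀ y : ℝ, (0 : ℝ) < 2 ^ y := fun y => Real.rpow_pos_of_pos (by norm_num) y
  have hzpos : ∀ y, a ≤ y → 0 < mx V' s g (2 ^ y) := by
    intro y hay
    have h1 := (hMX K V' s g hs (2 ^ a) (hty a)).2.2.2 (2 ^ y)
      (Real.rpow_le_rpow_of_exponent_le (by norm_num) hay)
    exact lt_of_lt_of_le hpos h1.1
  have hmono : ∀ y y', a ≤ y → y ≤ y' → y' ≤ b → lmx V' s g y ≤ lmx V' s g y' ∧
      lmx V' s g y' - lmx V' s g y ≤ y' - y := by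
    intro y y' hay hyy hyb
    have h1 := (hMX K V' s g hs (2 ^ y) (hty y)).2.2.2 (2 ^ y')
      (Real.rpow_le_rpow_of_exponent_le (by norm_num) hyy)
    have hz1 := hzpos y hay
    have hz2 := hzpos y' (hay.trans hyy)
    unfold lmx
    refine ⟨Real.logb_le_logb_of_le (by norm_num) hz1 h1.1, ?_⟩
    have h2 := Real.logb_le_logb_of_le (b := 2) (by norm_num)
      (mul_pos (div_pos (hty y) (hty y')) hz2) h1.2.1
    rw [Real.logb_mul (div_pos (hty y) (hty y')).ne' hz2.ne',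
      Real.logb_div (hty y).ne' (hty y').ne', Real.logb_rpow (by norm_num) (by norm_num),
      Real.logb_rpow (by norm_num) (by norm_num)] at h2
    linarith
  -- the lines
  set Λ := Lns V S E0 E1 s (2 ^ r) e d with hΛ
  have hcard : Λ.card ≤ pp.eval (K + r) := by
    refine (card_Lns V S r (fun i j => (hS1 i j).1) E0 E1 s (2 ^ r) e d).trans ?_
    rw [pp_eval]
    have h1 : K * r ≤ (K + r) * (K + r) := Nat.mul_le_mul (by omega) (by omega)
    have h2 : K * (1 + K * r) ≤ (K + r) * (1 + (K + r) * (K + r)) :=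
      Nat.mul_le_mul (by omega) (by omega)
    refine Nat.mul_le_mul_right _ (Nat.mul_le_mul (Nat.mul_le_mul (by omega) (by omega)) (by omega))
  set δ : ℝ := r + 1 + max 0 (Real.logb 2 ((K : ℝ) ^ 2)) with hδ
  have hδ0 : 0 ≤ δ := by
    have : (0 : ℝ) ≤ r := Nat.cast_nonneg r
    have := le_max_left 0 (Real.logb 2 ((K : ℝ) ^ 2))
    linarith
  have hδ1 : δ ≤ 1 + 2 * ((K + r : ℕ) : ℝ) := by
    have h1 := logb_K K hK1
    have h2 : (0 : ℝ) ≤ r := Nat.cast_nonneg r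
    push_cast
    linarith
  have hnear : ∀ y, a ≤ y → y ≤ b → ∃ L ∈ Λ,
      |lmx V' s g y - (L.1 + if L.2 then y else 0)| ≤ δ := by
    intro y hay hyb
    obtain ⟨⟨x, hx, hxz⟩, hle, -, -⟩ := hMX K V' s g hs (2 ^ y) (hty y)
    rw [hgd] at hxz
    unfold lmx
    refine core hC hF hs1 hE (hcap y hay hyb) (hzpos y hay) ?_ hx.1.1 hx.1.2 hx.2 hxz
    intro x' hx' hd' hm'
    have := hle x' ⟨⟨hx', hd'⟩, hm'⟩
    rwa [hgd] at this
  have hsel := hSEL a b δ Λ.card (lmx V' s g) (fun i => (Λ.equivFin.symm i).1.1)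
    (fun i => (Λ.equivFin.symm i).1.2) hδ0 hmono (by
      intro y hay hyb
      obtain ⟨L, hL, hb⟩ := hnear y hay hyb
      refine ⟨Λ.equivFin ⟨L, hL⟩, ?_⟩
      simp only [Equiv.symm_apply_apply]
      exact hb)
  refine PL_mono hsel ?_ ?_
  · rw [qq_eval]
    have h1 : 2 * Λ.card * Λ.card ≤ 2 * pp.eval (K + r) * pp.eval (K + r) :=
      Nat.mul_le_mul (Nat.mul_le_mul_left _ hcard) hcard
    omega
  · rw [qq_eval]
    have h1 : (Λ.card : ℝ) ≤ (pp.eval (K + r) : ℕ) := by exact_mod_cast hcard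
    have h2 : (20 : ℝ) * Λ.card * δ ≤ 20 * (pp.eval (K + r) : ℕ) * (1 + 2 * ((K + r : ℕ) : ℝ)) := by
      refine mul_le_mul ?_ hδ1 hδ0 (by positivity)
      linarith
    refine h2.trans ?_
    push_cast
    have h3 : (0 : ℝ) ≤ 2 * ((pp.eval (K + r) : ℕ) : ℝ) * ((pp.eval (K + r) : ℕ) : ℝ) := by
      positivity
    linarith

end Pool.Agent.Y648.CS.V
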