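import Pool.Agent.Y648.CX.Stm

set_option autoImplicit false

/-!
Task X1 of project Y648, part 3: properties of the box maxima (`S_MX`).
-/

namespace Pool.Agent.Y648.CS.V

open Matrix

namespace Mx

variable {K : ℕ}

lemma cap_mono (s : Fin K → ℝ) {t t' : ℝ} (ht : 0 < t) (h : t ≤ t') (i : Fin K) :
    cap s t i ≤ cap s t' i := by
  unfold cap
  split_ifs with h1 h2 h2
  · exact le_rfl
  · exact absurd (h1.trans h) h2
  · push Not at h1
    rw [div_le_one (ht.trans h1)]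
    exact h1.le
  · push Not at h1
    exact div_le_div_of_nonneg_right h (ht.trans h1).le

lemma cap_hom (s : Fin K → ℝ) {t t' : ℝ} (ht : 0 < t) (h : t ≤ t') (i : Fin K) :
    t / t' * cap s t' i ≤ cap s t i := by
  have ht' : 0 < t' := ht.trans_le h
  unfold cap
  split_ifs with h1 h2 h2
  · rw [mul_one, div_le_one ht']
    exact h
  · push Not at h2
    rw [mul_one]
    exact div_le_div_of_nonneg_left ht.le (ht.trans h2) h1
  · exact absurd (h2.trans h) h1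
  · push Not at h2
    apply le_of_eq
    field_simp

lemma cap_nonneg (s : Fin K → ℝ) {t : ℝ} (ht : 0 < t) (i : Fin K) : 0 ≤ cap s t i := by
  unfold cap
  split_ifs with h1
  · exact zero_le_one
  · push Not at h1
    exact div_nonneg ht.le (ht.trans h1).le

lemma zero_mem (V : Submodule ℝ (Fin K → ℝ)) (s : Fin K → ℝ) {t : ℝ} (ht : 0 < t) :
    (0 : Fin K → ℝ) ∈ Bx V s t :=
  ⟨V.zero_mem, fun i => ⟨le_rfl, cap_nonneg s ht i⟩⟩

lemma compact (V : Submodule ℝ (Fin K → ℝ)) (s : Fin K → ℝ) (t : ℝ) : IsCompact (Bx V s t) := by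
  have h1 : Bx V s t = (V : Set (Fin K → ℝ)) ∩ Set.Icc 0 (cap s t) := by
    ext x
    constructor
    · rintro ⟨hx, hb⟩
      exact ⟨hx, fun i => (hb i).1, fun i => (hb i).2⟩
    · rintro ⟨hx, hb1, hb2⟩
      exact ⟨hx, fun i => ⟨hb1 i, hb2 i⟩⟩
  rw [h1]
  exact isCompact_Icc.inter_left (Submodule.closed_of_finiteDimensional V)

lemma cont (f : Fin K → ℝ) : Continuous (fun x : Fin K → ℝ => f ⬝ᵥ x) := by
  unfold dotProduct
  fun_prop

lemma bdd (V : Submodule ℝ (Fin K → ℝ)) (s f : Fin K → ℝ) (t : ℝ) :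
    BddAbove ((fun x => f ⬝ᵥ x) '' Bx V s t) :=
  ((compact V s t).image (cont f)).bddAbove

lemma le_mx (V : Submodule ℝ (Fin K → ℝ)) (s f : Fin K → ℝ) (t : ℝ) {x : Fin K → ℝ}
    (hx : x ∈ Bx V s t) : f ⬝ᵥ x ≤ mx V s f t :=
  le_csSup (bdd V s f t) ⟨x, hx, rfl⟩

lemma attained (V : Submodule ℝ (Fin K → ℝ)) (s f : Fin K → ℝ) {t : ℝ} (ht : 0 < t) :
    ∃ x ∈ Bx V s t, f ⬝ᵥ x = mx V s f t := by
  have hne : ((fun x => f ⬝ᵥ x) '' Bx V s t).Nonempty := ⟨_, 0, zero_mem V s ht, rfl⟩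
  have h := ((compact V s t).image (cont f)).sSup_mem hne
  obtain ⟨x, hx, hxe⟩ := h
  exact ⟨x, hx, hxe⟩

end Mx

theorem t_MX : S_MX := by
  intro K V s f _ t ht
  refine ⟨Mx.attained V s f ht, fun x hx => Mx.le_mx V s f t hx, ?_, ?_⟩
  · have := Mx.le_mx V s f t (Mx.zero_mem V s ht)
    rwa [dotProduct_zero] at this
  · intro t' htt'
    have ht' : 0 < t' := ht.trans_le htt'
    have hA : ∀ x ∈ Bx V s t, x ∈ Bx V s t' := fun x hx =>
      ⟨hx.1, fun i => ⟨(hx.2 i).1, (hx.2 i).2.trans (Mx.cap_mono s ht htt' i)⟩⟩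
    have hB : ∀ x ∈ Bx V s t', (t / t') • x ∈ Bx V s t := by
      intro x hx
      have hr : 0 ≤ t / t' := (div_pos ht ht').le
      refine ⟨V.smul_mem _ hx.1, fun i => ⟨?_, ?_⟩⟩
      · rw [Pi.smul_apply, smul_eq_mul]
        exact mul_nonneg hr (hx.2 i).1
      · rw [Pi.smul_apply, smul_eq_mul]
        exact (mul_le_mul_of_nonneg_left (hx.2 i).2 hr).trans (Mx.cap_hom s ht htt' i)
    refine ⟨?_, ?_, hA, hB⟩
    · obtain ⟨x, hx, hxe⟩ := Mx.attained V s f ht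
      rw [← hxe]
      exact Mx.le_mx V s f t' (hA x hx)
    · obtain ⟨x, hx, hxe⟩ := Mx.attained V s f ht'
      rw [← hxe]
      have := Mx.le_mx V s f t (hB x hx)
      rwa [dotProduct_smul, smul_eq_mul] at this

end Pool.Agent.Y648.CS.V
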