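import Pool.Agent.Y648.CX.Stm

set_option autoImplicit false

/-!
# Nonnegative linear forms (Farkas)
-/

namespace Pool.Agent.Y648.CS.V

open Matrix

/-- Algebraic Farkas lemma (Bartl's induction). -/
theorem nneg_farkas {U : Type*} [AddCommGroup U] [Module ℝ U] :
    ∀ (m : ℕ) (ℓ : Fin m → (U →ₗ[ℝ] ℝ)) (f : U →ₗ[ℝ] ℝ),
      (∀ x, (∀ i, ℓ i x ≤ 0) → f x ≤ 0) →
      ∃ w : Fin m → ℝ, (∀ i, 0 ≤ w i) ∧ ∀ x, f x = ∑ i, w i * ℓ i x := by
  intro m
  induction m with
  | zero =>
    intro ℓ f h
    refine ⟨fun i => 0, fun i => le_refl _, fun x => ?_⟩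
    have h1 := h x (fun i => i.elim0)
    have h2 := h (-x) (fun i => i.elim0)
    rw [map_neg] at h2
    rw [Fin.sum_univ_zero]
    linarith
  | succ m ih =>
    intro ℓ f h
    by_cases hA : ∀ x, (∀ i : Fin m, ℓ i.castSucc x ≤ 0) → f x ≤ 0
    · obtain ⟨w, hw, hf⟩ := ih (fun i => ℓ i.castSucc) f hA
      refine ⟨Fin.snoc w 0, ?_, ?_⟩
      · intro i
        refine Fin.lastCases ?_ (fun j => ?_) i
        · simp
        · simpa using hw j
      · intro x
        rw [Fin.sum_univ_castSucc]
        simp [hf x]
    · push Not at hA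
      obtain ⟨x0, hx0, hfx0⟩ := hA
      have hlast : 0 < ℓ (Fin.last m) x0 := by
        by_contra hneg
        push Not at hneg
        have : f x0 ≤ 0 := h x0 (fun i => by
          refine Fin.lastCases ?_ (fun j => ?_) i
          · exact hneg
          · exact hx0 j)
        linarith
      set t : ℝ := ℓ (Fin.last m) x0 with ht
      obtain ⟨w, hw, hf⟩ := ih
        (fun i => ℓ i.castSucc - (ℓ i.castSucc x0 / t) • ℓ (Fin.last m))
        (f - (f x0 / t) • ℓ (Fin.last m)) (by
          intro x hx
          have key : f (x - (ℓ (Fin.last m) x / t) • x0) ≤ 0 := by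
            apply h
            intro i
            refine Fin.lastCases ?_ (fun j => ?_) i
            · rw [map_sub, map_smul, smul_eq_mul, ← ht, div_mul_cancel₀ _ hlast.ne', sub_self]
            · have := hx j
              simp only [LinearMap.sub_apply, LinearMap.smul_apply, smul_eq_mul] at this
              rw [map_sub, map_smul, smul_eq_mul]
              have e : ℓ (Fin.last m) x / t * ℓ j.castSucc x0 =
                ℓ j.castSucc x0 / t * ℓ (Fin.last m) x := by ring
              rw [e]
              exact this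
          rw [map_sub, map_smul, smul_eq_mul] at key
          simp only [LinearMap.sub_apply, LinearMap.smul_apply, smul_eq_mul]
          have e : ℓ (Fin.last m) x / t * f x0 = f x0 / t * ℓ (Fin.last m) x := by ring
          rw [e] at key
          exact key)
      refine ⟨Fin.snoc w (f x0 / t - ∑ i, w i * (ℓ i.castSucc x0 / t)), ?_, ?_⟩
      · intro i
        refine Fin.lastCases ?_ (fun j => ?_) i
        · simp only [Fin.snoc_last]
          have h1 : 0 < f x0 / t := div_pos hfx0 hlast
          have h2 : ∑ i, w i * (ℓ i.castSucc x0 / t) ≤ 0 := by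
            apply Finset.sum_nonpos
            intro i _
            apply mul_nonpos_of_nonneg_of_nonpos (hw i)
            exact div_nonpos_of_nonpos_of_nonneg (hx0 i) hlast.le
          linarith
        · simpa using hw j
      · intro x
        have hx := hf x
        simp only [LinearMap.sub_apply, LinearMap.smul_apply, smul_eq_mul] at hx
        rw [Fin.sum_univ_castSucc]
        simp only [Fin.snoc_castSucc, Fin.snoc_last]
        have e : ∑ i, w i * (ℓ i.castSucc x - ℓ i.castSucc x0 / t * ℓ (Fin.last m) x)
            = ∑ i, w i * ℓ i.castSucc x - (∑ i, w i * (ℓ i.castSucc x0 / t)) * ℓ (Fin.last m) x := by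
          rw [Finset.sum_mul, ← Finset.sum_sub_distrib]
          refine Finset.sum_congr rfl fun i _ => ?_
          ring
        rw [e] at hx
        linarith

/-- The linear form `f ⬝ᵥ x`. -/
def nneg_dot {K : ℕ} (f : Fin K → ℝ) : (Fin K → ℝ) →ₗ[ℝ] ℝ where
  toFun x := f ⬝ᵥ x
  map_add' x y := dotProduct_add f x y
  map_smul' c x := by rw [dotProduct_smul, RingHom.id_apply]

lemma nneg_dot_apply {K : ℕ} (f x : Fin K → ℝ) : nneg_dot f x = f ⬝ᵥ x := rfl

theorem t_NNEG : S_NNEG := by
  intro K V f h
  obtain ⟨w, hw, hf⟩ := nneg_farkas (U := V) K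
    (fun i => -((LinearMap.proj i : (Fin K → ℝ) →ₗ[ℝ] ℝ) ∘ₗ V.subtype))
    (-(nneg_dot f ∘ₗ V.subtype)) (by
      intro x hx
      have h1 := h x x.2 (fun i => by
        have h2 := hx i
        simp only [LinearMap.neg_apply, LinearMap.comp_apply, Submodule.subtype_apply,
          LinearMap.proj_apply] at h2
        linarith)
      simp only [LinearMap.neg_apply, LinearMap.comp_apply, Submodule.subtype_apply, nneg_dot_apply]
      linarith)
  refine ⟨w, hw, ?_⟩
  intro x hx
  have h1 := hf ⟨x, hx⟩
  simp only [LinearMap.neg_apply, LinearMap.comp_apply, Submodule.subtype_apply,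
    LinearMap.proj_apply, nneg_dot_apply, mul_neg, Finset.sum_neg_distrib] at h1
  rw [dotProduct]
  linarith

end Pool.Agent.Y648.CS.V
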