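import Pool.Agent.Y648.CX.StmR

set_option autoImplicit false

/-!
# Rational matrices have few scales: the proof
-/

namespace Pool.Agent.Y648.CS.V

open Pool.Agent.H558R2

namespace RatAux

variable {m n : ℕ}

/-- the product of the denominators of a row -/
def den (A : Matrix (Fin m) (Fin n) ℚ) (i : Fin m) : ℕ := ∏ j, (A i j).den

/-- the integer matrix -/
def num (A : Matrix (Fin m) (Fin n) ℚ) : Matrix (Fin m) (Fin n) ℤ :=
  fun i j => (A i j).num * ((den A i / (A i j).den : ℕ) : ℤ)

theorem den_pos (A : Matrix (Fin m) (Fin n) ℚ) (i : Fin m) : 0 < den A i :=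
  Finset.prod_pos fun j _ => (A i j).den_pos

theorem den_dvd (A : Matrix (Fin m) (Fin n) ℚ) (i : Fin m) (j : Fin n) :
    (A i j).den ∣ den A i := Finset.dvd_prod_of_mem _ (Finset.mem_univ j)

theorem num_eq (A : Matrix (Fin m) (Fin n) ℚ) (i : Fin m) (j : Fin n) :
    ((num A i j : ℤ) : ℚ) = (den A i : ℚ) * A i j := by
  obtain ⟨c, hc⟩ := den_dvd A i j
  have hd : 0 < (A i j).den := (A i j).den_pos
  have h1 : den A i / (A i j).den = c := by rw [hc, Nat.mul_div_cancel_left _ hd]
  have h2 : (A i j) * ((A i j).den : ℚ) = (A i j).num := Rat.mul_den_eq_num _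
  unfold num
  rw [h1, hc]
  push_cast
  rw [← h2]
  ring

theorem row_le (A : Matrix (Fin m) (Fin n) ℚ) (i : Fin m) :
    ∑ j, bitLength (A i j) ≤ inputLength A 0 := by
  have h : ∑ j, bitLength (A i j) ≤ ∑ i, ∑ j, bitLength (A i j) :=
    Finset.single_le_sum (f := fun i => ∑ j, bitLength (A i j))
      (fun i _ => Nat.zero_le _) (Finset.mem_univ i)
  unfold inputLength
  omega

theorem den_le (A : Matrix (Fin m) (Fin n) ℚ) (i : Fin m) : den A i ≤ 2 ^ inputLength A 0 := by
  calc den A i ≤ ∏ j, 2 ^ bitLength (A i j) := by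
        apply Finset.prod_le_prod'
        intro j _
        refine (Nat.lt_size_self _).le.trans (Nat.pow_le_pow_right (by omega) ?_)
        unfold bitLength
        omega
    _ = 2 ^ ∑ j, bitLength (A i j) := by rw [Finset.prod_pow_eq_pow_sum]
    _ ≤ 2 ^ inputLength A 0 := Nat.pow_le_pow_right (by omega) (row_le A i)

theorem num_le (A : Matrix (Fin m) (Fin n) ℚ) (i : Fin m) (j : Fin n) :
    |num A i j| ≤ 2 ^ (2 * inputLength A 0) := by
  have h1 : (A i j).num.natAbs ≤ 2 ^ inputLength A 0 := by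
    refine (Nat.lt_size_self _).le.trans (Nat.pow_le_pow_right (by omega) ?_)
    refine le_trans ?_ (row_le A i)
    refine le_trans ?_ (Finset.single_le_sum (f := fun j => bitLength (A i j))
      (fun j _ => Nat.zero_le _) (Finset.mem_univ j))
    simp only [bitLength]
    omega
  have h2 : den A i / (A i j).den ≤ 2 ^ inputLength A 0 := (Nat.div_le_self _ _).trans (den_le A i)
  unfold num
  rw [abs_mul, Nat.abs_cast, ← Int.natCast_natAbs]
  calc ((A i j).num.natAbs : ℤ) * ((den A i / (A i j).den : ℕ) : ℤ)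
      ≤ ((2 ^ inputLength A 0 : ℕ) : ℤ) * ((2 ^ inputLength A 0 : ℕ) : ℤ) := by
        apply mul_le_mul <;> first | exact_mod_cast h1 | exact_mod_cast h2 | positivity
    _ = 2 ^ (2 * inputLength A 0) := by
        push_cast
        ring

theorem m_le (A : Matrix (Fin m) (Fin n) ℚ) : m ≤ inputLength A 0 := by
  have h1 : m ≤ ∑ i : Fin m, bitLength ((0 : Fin m → ℚ) i) := by
    calc m = ∑ _i : Fin m, 1 := by simp
      _ ≤ _ := Finset.sum_le_sum fun i _ => by unfold bitLength; omega
  unfold inputLength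
  omega

theorem det_le (A : Matrix (Fin m) (Fin n) ℚ) {r : ℕ} (hr : r ≤ m) (f : Fin r → Fin m)
    (h : Fin r → Fin n) :
    |((num A).submatrix f h).det| ≤ 2 ^ (3 * inputLength A 0 ^ 2) := by
  obtain ⟨L, hL⟩ : ∃ L, L = inputLength A 0 := ⟨_, rfl⟩
  have hrL : r ≤ L := hL ▸ hr.trans (m_le A)
  have h1 := Matrix.det_le (A := (num A).submatrix f h) (abv := AbsoluteValue.abs)
    (x := 2 ^ (2 * L)) (fun i j => by
      rw [hL]
      exact num_le A (f i) (h j))
  rw [Fintype.card_fin] at h1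
  have h2 : |((num A).submatrix f h).det| ≤ r.factorial • (2 ^ (2 * L)) ^ r := h1
  rw [← hL]
  refine h2.trans ?_
  have h3 : (r.factorial : ℤ) ≤ 2 ^ (L ^ 2) := by
    have h4 : r.factorial ≤ 2 ^ (L ^ 2) := by
      calc r.factorial ≤ r ^ r := Nat.factorial_le_pow r
        _ ≤ (2 ^ r) ^ r := Nat.pow_le_pow_left Nat.lt_two_pow_self.le r
        _ = 2 ^ (r * r) := by rw [pow_mul]
        _ ≤ 2 ^ (L ^ 2) := Nat.pow_le_pow_right (by omega) (by nlinarith)
    exact_mod_cast h4
  have h5 : ((2 : ℤ) ^ (2 * L)) ^ r ≤ 2 ^ (2 * L ^ 2) := by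
    rw [← pow_mul]
    exact pow_le_pow_right₀ (by norm_num) (by nlinarith)
  rw [nsmul_eq_mul]
  calc (r.factorial : ℤ) * (2 ^ (2 * L)) ^ r ≤ 2 ^ (L ^ 2) * 2 ^ (2 * L ^ 2) := by
        apply mul_le_mul h3 h5 (by positivity) (by positivity)
    _ = 2 ^ (3 * L ^ 2) := by
        rw [← pow_add]
        congr 1
        ring

end RatAux

theorem t_RAT : S_RAT := by
  refine ⟨3 * Polynomial.X ^ 2, fun m n A => ?_⟩
  refine ⟨fun i => (RatAux.den A i : ℝ), (RatAux.num A).map (Int.cast : ℤ → ℝ), 1, fun _ => 1,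
    fun i => ?_, by simp, fun i j => ?_, fun f h => ?_⟩
  · have := RatAux.den_pos A i
    positivity
  · rw [Matrix.mul_one, Matrix.map_apply]
    change (RatAux.den A i : ℝ) * ((A i j : ℚ) : ℝ) = _
    have h := RatAux.num_eq A i j
    have h' : (((RatAux.num A i j : ℤ) : ℚ) : ℝ) = (((RatAux.den A i : ℚ) * A i j : ℚ) : ℝ) := by
      rw [h]
    push_cast at h'
    exact h'.symm
  · refine ⟨fun _ => ((RatAux.num A).submatrix f h).det, fun _ => ?_, ?_⟩
    · refine (RatAux.det_le A ?_ f h).trans (le_of_eq ?_)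
      · have := Matrix.rank_le_height ((RatAux.num A).map (Int.cast : ℤ → ℝ))
        simpa using this
      · simp
    · have e : ((RatAux.num A).map (Int.cast : ℤ → ℝ)).submatrix f h =
          ((RatAux.num A).submatrix f h).map (Int.cast : ℤ → ℝ) := rfl
      rw [e]
      have h2 := RingHom.map_det (Int.castRingHom ℝ) ((RatAux.num A).submatrix f h)
      simp only [Finset.univ_unique, Finset.sum_singleton, mul_one]
      exact h2.symm

end Pool.Agent.Y648.CS.V
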