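import Pool.Agent.Y648.CW.Stm

set_option autoImplicit false

/-!
# Scales of circuit ratios after adding one column

If the subspace `U = {x in V | f x = 0}` has few scales, then the bounds along the path in `V` have
few pieces.
-/

namespace Pool.Agent.Y648.CS.V

open Matrix Pool.Agent.NPC Pool.Agent.H558R2 Pool.Agent.H622R3.SM Pool.Agent.W920.FC

/-! ### Elementary vectors, capacities -/

/-- Elementary vectors. -/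
def Ele {K : ℕ} (U : Submodule ℝ (Fin K → ℝ)) (C : Fin K → ℝ) : Prop :=
  C ∈ U ∧ C ≠ 0 ∧ ∀ D ∈ U, (∀ i, C i = 0 → D i = 0) → ∃ l : ℝ, D = l • C

/-- The vectors in `V` orthogonal to `f`. -/
def ker1 {K : ℕ} (V : Submodule ℝ (Fin K → ℝ)) (f : Fin K → ℝ) : Submodule ℝ (Fin K → ℝ) where
  carrier := {x | x ∈ V ∧ f ⬝ᵥ x = 0}
  add_mem' := by
    intro x y hx hy
    exact ⟨V.add_mem hx.1 hy.1, by rw [dotProduct_add, hx.2, hy.2, add_zero]⟩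
  zero_mem' := ⟨V.zero_mem, dotProduct_zero f⟩
  smul_mem' := by
    intro l x hx
    exact ⟨V.smul_mem l hx.1, by rw [dotProduct_smul, hx.2, smul_zero]⟩

/-- The orthogonal complement. -/
def ann {K : ℕ} (U : Submodule ℝ (Fin K → ℝ)) : Submodule ℝ (Fin K → ℝ) where
  carrier := {g | ∀ u ∈ U, g ⬝ᵥ u = 0}
  add_mem' := by
    intro x y hx hy u hu
    rw [add_dotProduct, hx u hu, hy u hu, add_zero]
  zero_mem' := fun u _ => zero_dotProduct u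
  smul_mem' := by
    intro l x hx u hu
    rw [smul_dotProduct, hx u hu, smul_zero]

/-- The ratios of coordinates of elementary vectors have few scales. -/
def FewE (r : ℕ) {K : ℕ} (U : Submodule ℝ (Fin K → ℝ)) : Prop :=
  ∃ S : Fin K → Fin K → Finset ℝ, (∀ i j, (S i j).card ≤ r ∧ ∀ s ∈ S i j, 0 < s) ∧
    ∀ C, Ele U C → ∀ i j, C i ≠ 0 → C j ≠ 0 → ∃ s ∈ S i j, s ≤ |C i / C j| ∧
      |C i / C j| ≤ 2 ^ r * s

/-- The capacity of the coordinate `i` at `t`: the minimum of `1` and `t / s i`. -/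
noncomputable def cap {K : ℕ} (s : Fin K → ℝ) (t : ℝ) (i : Fin K) : ℝ :=
  if s i ≤ t then 1 else t / s i

/-- The box. -/
def Bx {K : ℕ} (V : Submodule ℝ (Fin K → ℝ)) (s : Fin K → ℝ) (t : ℝ) : Set (Fin K → ℝ) :=
  {x | x ∈ V ∧ ∀ i, 0 ≤ x i ∧ x i ≤ cap s t i}

/-- The maximum of the linear form `f` on the box. -/
noncomputable def mx {K : ℕ} (V : Submodule ℝ (Fin K → ℝ)) (s : Fin K → ℝ) (f : Fin K → ℝ)
    (t : ℝ) : ℝ := sSup ((fun x => f ⬝ᵥ x) '' Bx V s t)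

/-- The maximum, in logarithmic scale. -/
noncomputable def lmx {K : ℕ} (V : Submodule ℝ (Fin K → ℝ)) (s : Fin K → ℝ) (f : Fin K → ℝ)
    (y : ℝ) : ℝ := Real.logb 2 (mx V s f (2 ^ y))

/-! ### Linear algebra -/

/-- Conformal decomposition. -/
def S_CONF : Prop := ∀ (K : ℕ) (U : Submodule ℝ (Fin K → ℝ)) (u : Fin K → ℝ), u ∈ U →
  ∃ C : Fin K → Fin K → ℝ, (∀ k, C k = 0 ∨ Ele U (C k)) ∧
    (∀ k i, 0 ≤ C k i * u i ∧ |C k i| ≤ |u i|) ∧ u = ∑ k, C k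

/-- Duality for the maximum on a box. -/
def S_DUAL : Prop := ∀ (K : ℕ) (V : Submodule ℝ (Fin K → ℝ)) (m f : Fin K → ℝ), (∀ i, 0 < m i) →
  ∃ x ∈ V, (∀ i, 0 ≤ x i ∧ x i ≤ m i) ∧ ∃ g : Fin K → ℝ, (∀ y ∈ V, g ⬝ᵥ y = f ⬝ᵥ y) ∧
    f ⬝ᵥ x = ∑ i, m i * max (g i) 0

/-- A nonnegative linear form is a nonnegative combination of the coordinates. -/
def S_NNEG : Prop := ∀ (K : ℕ) (V : Submodule ℝ (Fin K → ℝ)) (f : Fin K → ℝ),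
  (∀ x ∈ V, (∀ i, 0 ≤ x i) → 0 ≤ f ⬝ᵥ x) →
  ∃ s : Fin K → ℝ, (∀ i, 0 ≤ s i) ∧ ∀ x ∈ V, s ⬝ᵥ x = f ⬝ᵥ x

/-- The ratios for the orthogonal complement. -/
def S_SELF : Prop := ∀ (K : ℕ) (U : Submodule ℝ (Fin K → ℝ)) (g : Fin K → ℝ), Ele (ann U) g →
  ∀ j l, j ≠ l → g j ≠ 0 → g l ≠ 0 → ∃ C, Ele U C ∧ C j ≠ 0 ∧ C l ≠ 0 ∧
    |g j / g l| = |C l / C j|

/-- The maxima: attained; monotone; homogeneity. -/
def S_MX : Prop := ∀ (K : ℕ) (V : Submodule ℝ (Fin K → ℝ)) (s f : Fin K → ℝ), (∀ i, 0 ≤ s i) →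
  ∀ t : ℝ, 0 < t → (∃ x ∈ Bx V s t, f ⬝ᵥ x = mx V s f t) ∧ (∀ x ∈ Bx V s t, f ⬝ᵥ x ≤ mx V s f t) ∧
    0 ≤ mx V s f t ∧ ∀ t', t ≤ t' → mx V s f t ≤ mx V s f t' ∧
      t / t' * mx V s f t' ≤ mx V s f t ∧
      (∀ x ∈ Bx V s t, x ∈ Bx V s t') ∧ ∀ x ∈ Bx V s t', (t / t') • x ∈ Bx V s t

/-! ### Functions with few pieces -/

/-- On `[a, b]`, outside at most `N` points, the function is linear of slope `0` or `1`, up to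
`δ`. -/
def PL (a b : ℝ) (N : ℕ) (δ : ℝ) (f : ℝ → ℝ) : Prop :=
  ∃ Z : Finset ℝ, Z.card ≤ N ∧ ∀ y₁ y₂, a ≤ y₁ → y₁ ≤ y₂ → y₂ ≤ b →
    (∀ z ∈ Z, z < y₁ ∨ y₂ < z) → (∀ y, y₁ ≤ y → y ≤ y₂ → |f y - f y₁| ≤ δ) ∨
      ∀ y, y₁ ≤ y → y ≤ y₂ → |f y - f y₁ - (y - y₁)| ≤ δ

/-- A function which is at any point near one of `k` lines of slope `0` or `1`. -/
def S_SEL : Prop := ∀ (a b δ : ℝ) (k : ℕ) (f : ℝ → ℝ) (c : Fin k → ℝ) (σ : Fin k → Bool),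
  0 ≤ δ → (∀ y y', a ≤ y → y ≤ y' → y' ≤ b → f y ≤ f y' ∧ f y' - f y ≤ y' - y) →
  (∀ y, a ≤ y → y ≤ b → ∃ i, |f y - (c i + if σ i then y else 0)| ≤ δ) →
  PL a b (2 * k * k) (20 * k * δ) f

/-- On `[a, b]`, the function is linear of slope `0` or `1`, up to `δ`. -/
def SS (a b δ : ℝ) (f : ℝ → ℝ) : Prop :=
  (∀ y y', a ≤ y → y ≤ y' → y' ≤ b → |f y' - f y| ≤ δ) ∨
  ∀ y y', a ≤ y → y ≤ y' → y' ≤ b → |f y' - f y - (y' - y)| ≤ δ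

/-- All capacities are constant or linear on `[2 ^ a, 2 ^ b]`. -/
def Lin {K : ℕ} (s : Fin K → ℝ) (a b : ℝ) : Prop := ∀ i, s i ≤ 2 ^ a ∨ (2 : ℝ) ^ b ≤ s i

/-- The maximum of `f`, if the kernel of `f` has few scales. -/
def S_APL : Prop := ∃ q : Polynomial ℕ, ∀ (K r : ℕ) (V : Submodule ℝ (Fin K → ℝ))
  (f s : Fin K → ℝ) (a b : ℝ), (∀ i, 0 ≤ s i) → a ≤ b → Lin s a b → FewE r (ker1 V f) →
  0 < mx V s f (2 ^ a) → PL a b (q.eval (K + r)) ((q.eval (K + r) : ℕ) : ℝ) (lmx V s f)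

/-- The maximum of a coordinate, if the kernel of `f` has few scales, on an interval where the
maxima of `f` and `- f` are approximately linear. -/
def S_ZPL : Prop := ∃ q : Polynomial ℕ, ∀ (K r D : ℕ) (V : Submodule ℝ (Fin K → ℝ))
  (f s : Fin K → ℝ) (a b : ℝ) (e : Fin K), (∀ i, 0 ≤ s i) → a ≤ b → Lin s a b →
  FewE r (ker1 V f) → (0 < mx V s f (2 ^ a) → SS a b D (lmx V s f)) →
  (0 < mx V s (-f) (2 ^ a) → SS a b D (lmx V s (-f))) →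
  0 < mx V s (Pi.single e 1) (2 ^ a) →
  PL a b (q.eval (K + r)) ((q.eval (K + r + D) : ℕ) : ℝ) (lmx V s (Pi.single e 1))

/-- All coordinates, for `t ≥ t₀`. -/
def S_PIE : Prop := ∃ q : Polynomial ℕ, ∀ (K r : ℕ) (V : Submodule ℝ (Fin K → ℝ))
  (f s : Fin K → ℝ) (y₀ : ℝ), (∀ i, 0 ≤ s i) → FewE r (ker1 V f) →
  ∃ (Z : Finset ℝ) (F : Fin K → ℝ → ℝ), Z.card ≤ q.eval (K + r) ∧
    (∀ y₁ y₂ : ℝ, y₁ ≤ y₂ → (∀ z ∈ Z, z < y₁ ∨ y₂ < z) → ∃ σ : Fin K → Bool,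
      ∀ e y, y₁ ≤ y → y ≤ y₂ → F e y = F e y₁ + if σ e then y - y₁ else 0) ∧
    ∀ y, y₀ ≤ y → ∀ e, 0 < mx V s (Pi.single e 1) (2 ^ y) →
      F e y ≤ lmx V s (Pi.single e 1) y ∧
      lmx V s (Pi.single e 1) y ≤ F e y + ((q.eval (K + r) : ℕ) : ℝ)

/-! ### The path -/

/-- Elementary vectors orthogonal to `a`. -/
def ElA (Ls : Submodule ℝ (ℕ → ℝ)) (X : Finset ℕ) (a v : ℕ → ℝ) : Prop :=
  v ∈ Ls ∧ ∑ c ∈ X, a c * v c = 0 ∧ (∃ c ∈ X, v c ≠ 0) ∧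
  ∀ z ∈ Ls, ∑ c ∈ X, a c * z c = 0 → (∀ c ∈ X, v c = 0 → z c = 0) →
    ∃ l : ℝ, ∀ c ∈ X, z c = l * v c

/-- Their ratios have few scales. -/
def ScA (r : ℕ) (Ls : Submodule ℝ (ℕ → ℝ)) (X : Finset ℕ) (a : ℕ → ℝ) : Prop :=
  ∀ i ∈ X, ∀ j ∈ X, ∃ S : Finset ℝ, S.card ≤ r ∧ (∀ s ∈ S, 0 < s) ∧
    ∀ v, ElA Ls X a v → v i ≠ 0 → v j ≠ 0 → ∃ s ∈ S, s ≤ |v i / v j| ∧ |v i / v j| ≤ 2 ^ r * s

/-- The structure of the bounds along the path, for `t ≥ t₀`. -/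
def S_FSA : Prop := ∃ p : Polynomial ℕ, ∀ (Ls : Submodule ℝ (ℕ → ℝ)) (X : Finset ℕ)
  (q nu r K : ℕ) (a : ℕ → ℝ) (t₀ : ℝ), 0 < t₀ → SpC Ls X q nu → X.card + 2 ≤ K →
  ScA r Ls X a →
  ∃ (Z : Finset ℝ) (F : ℕ → ℝ → ℝ), Z.card ≤ p.eval (K + r) ∧
    Kink (insert q (insert nu X)) q nu F Z ∧
    ∀ (t : ℝ) (w : ℕ → ℝ) (M ε : ℝ) (x : ℕ → ℝ), t₀ ≤ t → Wts X q nu t w → 0 < ε → ε ≤ 1 →
      1 ≤ M → Bds Ls X q nu t w M → Cen Ls X q nu t w ε x →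
      ∀ e ∈ insert q (insert nu X), F e (Real.logb 2 t) ≤ Real.logb 2 (w e) ∧
        Real.logb 2 (w e) ≤ F e (Real.logb 2 t) + (((p.eval (K + r) : ℕ) : ℝ) +
          Real.logb 2 ((1 + M) / ε))

/-- The number of steps. -/
def S_CUTA : Prop := ∃ q : Polynomial ℕ, ∀ (m n p r : ℕ) (g : Reg → ℝ) (drop : List Bool)
  (a : ℕ → ℝ) (T : ℕ → ℝ) (M : ℕ), ScA r (Lsp m n p g drop) (Xc m drop) a →
  (∀ i < M, Cut m n p g drop (T i) (T (i + 1))) → M < q.eval (m + n + r)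

/-! ### The result -/

/-- The circuits of the matrix `A` with the additional column `a`. -/
def CircA {m n : ℕ} (A : Matrix (Fin m) (Fin n) ℝ) (a C : Fin m → ℝ) : Prop :=
  C ≠ 0 ∧ A.vecMul C = 0 ∧ C ⬝ᵥ a = 0 ∧
  ∀ D : Fin m → ℝ, A.vecMul D = 0 → D ⬝ᵥ a = 0 → (∀ i, C i = 0 → D i = 0) → ∃ l : ℝ, D = l • C

/-- For any two rows, the ratios of the entries of the circuits of `[A | a]` lie in at most `r`
intervals `[s, 2 ^ r s]`. -/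
def ScalesA (r : ℕ) {m n : ℕ} (A : Matrix (Fin m) (Fin n) ℝ) (a : Fin m → ℝ) : Prop :=
  ∀ i j : Fin m, ∃ S : Finset ℝ, S.card ≤ r ∧ (∀ s ∈ S, 0 < s) ∧
    ∀ C, CircA A a C → C i ≠ 0 → C j ≠ 0 → ∃ s ∈ S, s ≤ |C i / C j| ∧ |C i / C j| ≤ 2 ^ r * s

/-- The scales in the two phases. -/
def S_SCA : Prop := ∀ (r m n : ℕ) (A : Matrix (Fin m) (Fin n) ℝ) (a b : Fin m → ℝ),
  ScalesA r A a →
  (∃ a' : ℕ → ℝ, ScA (r + 1) (Lsp m n 0 (start A b) (dr0 m)) (Xc m (dr0 m)) a') ∧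
  ∀ B : List Bool, ∃ a' : ℕ → ℝ,
    ScA (r + 1) (Lsp m n 1 (start A b) (dr1 m B)) (Xc m (dr1 m B)) a'

/-- There are at most `2 ^ m` supports of circuits. -/
def S_TOTA : Prop := ∀ (m n : ℕ) (A : Matrix (Fin m) (Fin n) ℝ) (a : Fin m → ℝ),
  ScalesA (2 ^ m) A a

/-- The main theorem. -/
def S_MAINA : Prop := PolyControl W.algW ∧ OracleFree W.algW ∧
  ∃ p : Polynomial ℕ, ∀ m n : ℕ, 1 ≤ m → 1 ≤ n →
  ∀ (A : Matrix (Fin m) (Fin n) ℝ) (b a : Fin m → ℝ) (r : ℕ), ScalesA r A a →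
  ∃ ans nums steps,
    run ∅ (W.algW m n) (p.eval (m + n + r)) [] (start A b) = some (ans, nums, steps) ∧
    (ans = true ↔ ∃ x : Fin n → ℝ, b ≤ A.mulVec x) ∧ steps ≤ p.eval (m + n + r) ∧
    ∀ (A' : Matrix (Fin m) (Fin n) ℚ) (b' : Fin m → ℚ), (∀ i j, ((A' i j : ℚ) : ℝ) = A i j) →
      (∀ i, ((b' i : ℚ) : ℝ) = b i) →
      ∀ v ∈ nums, ∃ q : ℚ, (q : ℝ) = v ∧ bitLength q ≤ p.eval (inputLength A' b' + r)

end Pool.Agent.Y648.CS.V
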