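import Pool.Agent.Y648.CX.StmB
import Pool.Agent.Y648.CX.T_SCA

/-!
# The scales in both phases for spaces near the left kernel, and the trivial bound `2 ^ m`
-/

set_option autoImplicit false

namespace Pool.Agent.Y648.CS.V

open Matrix Pool.Agent.NPC Pool.Agent.H558R2 Pool.Agent.H622R3.SM Pool.Agent.Y529.CS

/-- Few scales of the elementary vectors, in terms of the matrix. -/
theorem scalesA_of_few {r m n : ℕ} {A : Matrix (Fin m) (Fin n) ℝ} {a : Fin m → ℝ}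
    {L : Submodule ℝ (Fin m → ℝ)} (hL : ∀ C, C ∈ L ↔ A.vecMul C = 0 ∧ C ⬝ᵥ a = 0)
    (h : FewE r L) : ScalesA r A a := by
  obtain ⟨S, hS1, hS2⟩ := h
  intro i j
  refine ⟨S i j, (hS1 i j).1, (hS1 i j).2, fun C hC hi hj => hS2 C ?_ i j hi hj⟩
  obtain ⟨h1, h2, h3, h4⟩ := hC
  exact ⟨(hL C).2 ⟨h2, h3⟩, h1, fun D hD hsup => h4 D ((hL D).1 hD).1 ((hL D).1 hD).2 hsup⟩

theorem few_of_scalesA {r m n : ℕ} {A : Matrix (Fin m) (Fin n) ℝ} {a : Fin m → ℝ}
    {L : Submodule ℝ (Fin m → ℝ)} (hL : ∀ C, C ∈ L ↔ A.vecMul C = 0 ∧ C ⬝ᵥ a = 0)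
    (h : ScalesA r A a) : FewE r L := by
  choose S hS1 hS2 hS3 using h
  refine ⟨S, fun i j => ⟨hS1 i j, hS2 i j⟩, fun C hC i j hi hj => hS3 i j C ?_ hi hj⟩
  obtain ⟨h1, h2, h3⟩ := hC
  exact ⟨h2, ((hL C).1 h1).1, ((hL C).1 h1).2, fun D hD hDa hsup =>
    h3 D ((hL D).2 ⟨hD, hDa⟩) hsup⟩

/-- Every subspace is the left kernel of a matrix. -/
theorem exists_mat {m : ℕ} (L : Submodule ℝ (Fin m → ℝ)) :
    ∃ (n : ℕ) (A : Matrix (Fin m) (Fin n) ℝ), ∀ C, C ∈ L ↔ A.vecMul C = 0 := by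
  classical
  let B := Module.finBasis ℝ ((Fin m → ℝ) ⧸ L)
  let f : (Fin m → ℝ) →ₗ[ℝ] (Fin (Module.finrank ℝ ((Fin m → ℝ) ⧸ L)) → ℝ) :=
    B.equivFun.toLinearMap ∘ₗ L.mkQ
  refine ⟨_, (LinearMap.toMatrix' f)ᵀ, fun C => ?_⟩
  rw [Matrix.vecMul_transpose, LinearMap.toMatrix'_mulVec]
  show _ ↔ B.equivFun (L.mkQ C) = 0
  rw [LinearEquiv.map_eq_zero_iff, Submodule.mkQ_apply, Submodule.Quotient.mk_eq_zero]

/-- A hyperplane is the kernel of a linear form. -/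
theorem exists_dot {m : ℕ} {L L' : Submodule ℝ (Fin m → ℝ)} (h : Hyp L L') :
    ∃ a : Fin m → ℝ, ∀ C, C ∈ L ↔ C ∈ L' ∧ C ⬝ᵥ a = 0 := by
  classical
  obtain ⟨hle, hfin⟩ := h
  by_cases heq : L' ≤ L
  · refine ⟨0, fun C => ⟨fun hC => ⟨hle hC, dotProduct_zero C⟩, fun hC => heq hC.1⟩⟩
  · obtain ⟨v, hv', hv⟩ := Set.not_subset.1 heq
    obtain ⟨f, hf0, hf⟩ := Submodule.exists_le_ker_of_notMem hv
    have hdot : ∀ C : Fin m → ℝ, f C = C ⬝ᵥ fun i => f (fun j => if i = j then 1 else 0) := by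
      intro C
      rw [LinearMap.pi_apply_eq_sum_univ f C]
      rfl
    refine ⟨fun i => f (fun j => if i = j then 1 else 0), ?_⟩
    have h1 : L ≤ L' ⊓ LinearMap.ker f := le_inf hle hf
    have h2 : L' ⊓ LinearMap.ker f < L' := by
      refine lt_of_le_of_ne inf_le_left fun h => ?_
      have h3 : v ∈ L' ⊓ LinearMap.ker f := by rw [h]; exact hv'
      exact hf0 (LinearMap.mem_ker.1 h3.2)
    have h3 := Submodule.finrank_lt_finrank_of_lt h2
    have h4 : L = L' ⊓ LinearMap.ker f := Submodule.eq_of_le_of_finrank_le h1 (by omega)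
    intro C
    rw [← hdot]
    conv_lhs => rw [h4]
    rw [Submodule.mem_inf, LinearMap.mem_ker]

theorem mem_lker {m n : ℕ} (A : Matrix (Fin m) (Fin n) ℝ) (C : Fin m → ℝ) :
    C ∈ lker A ↔ A.vecMul C = 0 := Iff.rfl

theorem vecMul_iff {m n : ℕ} (A : Matrix (Fin m) (Fin n) ℝ) (C : Fin m → ℝ) :
    A.vecMul C = 0 ↔ ∀ i : Fin n, ∑ c : Fin m, A c i * C c = 0 := by
  constructor
  · intro h i
    have h1 : ∑ c, C c * A c i = 0 := congrFun h i
    rw [← h1]
    exact Finset.sum_congr rfl fun c _ => mul_comm _ _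
  · intro h
    funext i
    show ∑ c, C c * A c i = 0
    rw [← h i]
    exact Finset.sum_congr rfl fun c _ => mul_comm _ _

theorem mk2_zero {m : ℕ} : mk2 (0 : Fin m → ℝ) 0 0 0 = 0 := by
  funext c
  unfold mk2
  split_ifs <;> rfl

theorem t_SCG : S_SCG := by
  intro r m n A b hA
  obtain ⟨L, hL | hL, hfew⟩ := hA
  · -- the kernel of a linear form on the left kernel
    obtain ⟨a, ha⟩ := exists_dot hL
    have h1 : ScalesA r A a := scalesA_of_few (fun C => by rw [ha, mem_lker]) hfew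
    obtain ⟨h2, h3⟩ := t_SCA r m n A a b h1
    exact ⟨Or.inl h2, fun B => Or.inl (h3 B)⟩
  · -- the left kernel is the kernel of a linear form
    obtain ⟨d, hd⟩ := exists_dot hL
    obtain ⟨n', A', hA'⟩ := exists_mat L
    have h1 : ScalesA r A' 0 := scalesA_of_few (fun C => by rw [hA', dotProduct_zero]; simp) hfew
    have hker : ∀ D : Fin m → ℝ, (∀ i : Fin n, ∑ c : Fin m, A c i * D c = 0) ↔
        (∀ i : Fin n', ∑ c : Fin m, A' c i * D c = 0) ∧ ∑ c : Fin m, d c * D c = 0 := by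
      intro D
      rw [← vecMul_iff, ← vecMul_iff, ← mem_lker, hd, hA']
      have h2 : D ⬝ᵥ d = ∑ c : Fin m, d c * D c :=
        Finset.sum_congr rfl fun c _ => mul_comm _ _
      rw [h2]
    constructor
    · refine Or.inr ⟨Lsp m n' 0 (start A' b) (dr0 m), mk2 d (-d) 0 0, ?_, ?_, ?_⟩
      · have h2 := sca0 A' 0 b h1
        rw [neg_zero, mk2_zero] at h2
        exact h2
      · intro x hx
        rw [mem_Lsp0] at hx
        obtain ⟨hx1, hx2, hx3⟩ := hx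
        obtain ⟨h3, h4⟩ := (hker _).1 hx1
        refine ⟨?_, x, ?_, fun c _ => rfl⟩
        · rw [Xc0, sum_range_mk2]
          exact h4
        · rw [mem_Lsp0]
          exact ⟨h3, hx2, hx3⟩
      · intro y hy hya
        rw [mem_Lsp0] at hy
        obtain ⟨hy1, hy2, hy3⟩ := hy
        rw [Xc0, sum_range_mk2] at hya
        refine ⟨y, ?_, fun c _ => rfl⟩
        rw [mem_Lsp0]
        exact ⟨(hker _).2 ⟨hy1, hya⟩, hy2, hy3⟩
    · intro B
      have hsum : ∀ v : ℕ → ℝ, ∑ c ∈ Xc m (dr1 m B), mk2 d 0 0 0 c * v c =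
          ∑ c : Fin m, d c * rs B v c := by
        intro v
        rw [sum_Xc1]
        refine Finset.sum_congr rfl fun c _ => ?_
        rw [mk2_l]
      refine Or.inr ⟨Lsp m n' 1 (start A' b) (dr1 m B), mk2 d 0 0 0, ?_, ?_, ?_⟩
      · have h2 := sca1 A' 0 b h1 B
        rw [mk2_zero] at h2
        exact h2
      · intro x hx
        rw [mem_Lsp1] at hx
        obtain ⟨hx1, hx2, hx3⟩ := hx
        obtain ⟨h3, h4⟩ := (hker _).1 hx1
        refine ⟨?_, x, ?_, fun c _ => rfl⟩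
        · rw [hsum]
          exact h4
        · rw [mem_Lsp1]
          exact ⟨h3, hx2, hx3⟩
      · intro y hy hya
        rw [mem_Lsp1] at hy
        obtain ⟨hy1, hy2, hy3⟩ := hy
        rw [hsum] at hya
        refine ⟨y, ?_, fun c _ => rfl⟩
        rw [mem_Lsp1]
        exact ⟨(hker _).2 ⟨hy1, hya⟩, hy2, hy3⟩

theorem t_TOTG : S_TOTG := by
  intro m L
  obtain ⟨n, A, hA⟩ := exists_mat L
  exact few_of_scalesA (a := 0) (fun C => by rw [hA, dotProduct_zero]; simp) (t_TOTA m n A 0)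

end Pool.Agent.Y648.CS.V
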