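import Pool.Agent.Y648.CX.Stm

set_option autoImplicit false

namespace Pool.Agent.Y648.CS.V

/-! The proof (helper941). -/

namespace SelAux

open MeasureTheory Set

theorem cover {k : ℕ} {δ y₁ y₂ : ℝ} (hδ : 0 ≤ δ) {g : ℝ → ℝ} (hg : ContinuousOn g (Icc y₁ y₂))
    (c : Fin k → ℝ) (hc : ∀ y ∈ Icc y₁ y₂, ∃ i, |g y - c i| ≤ δ) :
    ∀ y ∈ Icc y₁ y₂, |g y - g y₁| ≤ 2 * k * δ := by
  intro y hy
  have h1 : uIcc y₁ y ⊆ Icc y₁ y₂ := by
    rw [uIcc_of_le hy.1]
    exact Icc_subset_Icc le_rfl hy.2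
  have h2 : uIcc (g y₁) (g y) ⊆ g '' uIcc y₁ y := intermediate_value_uIcc (hg.mono h1)
  have h3 : uIcc (g y₁) (g y) ⊆ ⋃ i : Fin k, Icc (c i - δ) (c i + δ) := by
    intro v hv
    obtain ⟨u, hu, rfl⟩ := h2 hv
    obtain ⟨i, hi⟩ := hc u (h1 hu)
    rw [mem_iUnion]
    rw [abs_le] at hi
    exact ⟨i, by constructor <;> linarith [hi.1, hi.2]⟩
  have h4 : volume (uIcc (g y₁) (g y)) ≤ ∑ i : Fin k, volume (Icc (c i - δ) (c i + δ)) :=
    (measure_mono h3).trans (measure_iUnion_fintype_le _ _)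
  rw [Real.volume_interval] at h4
  have h5 : ∀ i : Fin k, volume (Icc (c i - δ) (c i + δ)) = ENNReal.ofReal (2 * δ) := by
    intro i
    rw [Real.volume_Icc]
    congr 1
    ring
  rw [Finset.sum_congr rfl fun i _ => h5 i, Finset.sum_const, Finset.card_univ, Fintype.card_fin,
    nsmul_eq_mul, ← ENNReal.ofReal_natCast, ← ENNReal.ofReal_mul (Nat.cast_nonneg k),
    ENNReal.ofReal_le_ofReal_iff (by positivity)] at h4
  linarith

/-- the closed set of the points near a line of slope `s` -/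
theorem closed_near {k : ℕ} {δ y₁ y₂ : ℝ} {f : ℝ → ℝ} (hf : ContinuousOn f (Icc y₁ y₂))
    (c : Fin k → ℝ) (σ : Fin k → Bool) (s : Bool) :
    IsClosed {y | y ∈ Icc y₁ y₂ ∧ ∃ i, σ i = s ∧ |f y - (c i + if σ i then y else 0)| ≤ δ} := by
  have h1 : {y | y ∈ Icc y₁ y₂ ∧ ∃ i, σ i = s ∧ |f y - (c i + if σ i then y else 0)| ≤ δ} =
      ⋃ i : Fin k, {y | y ∈ Icc y₁ y₂ ∧ σ i = s ∧ |f y - (c i + if σ i then y else 0)| ≤ δ} := by
    ext y
    simp only [mem_setOf_eq, mem_iUnion]
    constructor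
    · rintro ⟨h1, i, h2⟩; exact ⟨i, h1, h2⟩
    · rintro ⟨i, h1, h2⟩; exact ⟨h1, i, h2⟩
  rw [h1]
  refine isClosed_iUnion_of_finite fun i => ?_
  by_cases hi : σ i = s
  · have h2 : ContinuousOn (fun y => |f y - (c i + if σ i then y else 0)|) (Icc y₁ y₂) := by
      refine ContinuousOn.abs (hf.sub (continuousOn_const.add ?_))
      split_ifs
      · exact continuousOn_id
      · exact continuousOn_const
    have h3 := h2.preimage_isClosed_of_isClosed isClosed_Icc (isClosed_Iic (a := δ))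
    convert h3 using 1
    ext y
    simp only [mem_setOf_eq, mem_inter_iff, mem_preimage, mem_Iic, hi, true_and]
  · have h2 : {y | y ∈ Icc y₁ y₂ ∧ σ i = s ∧ |f y - (c i + if σ i then y else 0)| ≤ δ} = ∅ := by
      ext y
      simp [hi]
    rw [h2]
    exact isClosed_empty

end SelAux

open Set in
theorem t_SEL : S_SEL := by
  intro a b δ k f c σ hδ hf hc
  refine ⟨(Finset.univ.image fun p : Fin k × Fin k => c p.1 - c p.2 - 2 * δ) ∪
    (Finset.univ.image fun p : Fin k × Fin k => c p.1 - c p.2 + 2 * δ), ?_, ?_⟩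
  · refine (Finset.card_union_le _ _).trans ?_
    have h1 := Finset.card_image_le (s := Finset.univ)
      (f := fun p : Fin k × Fin k => c p.1 - c p.2 - 2 * δ)
    have h2 := Finset.card_image_le (s := Finset.univ)
      (f := fun p : Fin k × Fin k => c p.1 - c p.2 + 2 * δ)
    rw [Finset.card_univ, Fintype.card_prod, Fintype.card_fin] at h1 h2
    calc _ ≤ k * k + k * k := add_le_add h1 h2
      _ = 2 * k * k := by ring
  intro y₁ y₂ ha h12 hb hZ
  have hz1 : ∀ i j : Fin k, c i - c j - 2 * δ < y₁ ∨ y₂ < c i - c j - 2 * δ := fun i j =>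
    hZ _ (Finset.mem_union_left _ (Finset.mem_image.2 ⟨(i, j), Finset.mem_univ _, rfl⟩))
  have hz2 : ∀ i j : Fin k, c i - c j + 2 * δ < y₁ ∨ y₂ < c i - c j + 2 * δ := fun i j =>
    hZ _ (Finset.mem_union_right _ (Finset.mem_image.2 ⟨(i, j), Finset.mem_univ _, rfl⟩))
  have hfc : ContinuousOn f (Icc y₁ y₂) := by
    have h1 : LipschitzOnWith 1 f (Icc y₁ y₂) := by
      refine LipschitzOnWith.of_dist_le_mul fun u hu v hv => ?_
      rw [Real.dist_eq, Real.dist_eq, NNReal.coe_one, one_mul]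
      rcases le_total u v with h | h
      · have h2 := hf u v (ha.trans hu.1) h (hv.2.trans hb)
        rw [abs_sub_comm, abs_of_nonneg (by linarith [h2.1]), abs_sub_comm,
          abs_of_nonneg (by linarith)]
        exact h2.2
      · have h2 := hf v u (ha.trans hv.1) h (hu.2.trans hb)
        rw [abs_of_nonneg (by linarith [h2.1]), abs_of_nonneg (by linarith)]
        exact h2.2
    exact h1.continuousOn
  have hk : (0 : ℝ) ≤ k := Nat.cast_nonneg k
  have hkδ : 2 * (k : ℝ) * δ ≤ 20 * k * δ := by nlinarith [mul_nonneg hk hδ]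
  by_cases hA : ∃ i j : Fin k, σ i = false ∧ σ j = true ∧
      c i - c j - 2 * δ < y₁ ∧ y₂ < c i - c j + 2 * δ
  · obtain ⟨i, j, -, -, h1, h2⟩ := hA
    left
    intro y hy1 hy2
    have h3 := hf y₁ y ha hy1 (hy2.trans hb)
    rw [abs_of_nonneg (by linarith [h3.1])]
    have h4 : (1 : ℝ) ≤ k := by
      have : 0 < k := i.pos
      exact_mod_cast this
    nlinarith [h3.2, mul_le_mul_of_nonneg_right h4 hδ]
  · push Not at hA
    have hdis : ∀ i j : Fin k, σ i = false → σ j = true → ∀ y ∈ Icc y₁ y₂,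
        2 * δ < |c i - c j - y| := by
      intro i j hi hj y hy
      rw [lt_abs]
      rcases hz1 i j with h1 | h1
      · have h2 := hA i j hi hj h1
        rcases hz2 i j with h3 | h3
        · right; linarith [hy.1]
        · exact absurd h3 (not_lt.2 h2)
      · left; linarith [hy.2]
    let A : Bool → Set ℝ := fun s =>
      {y | y ∈ Icc y₁ y₂ ∧ ∃ i, σ i = s ∧ |f y - (c i + if σ i then y else 0)| ≤ δ}
    have hcov : Icc y₁ y₂ ⊆ A false ∪ A true := by
      intro y hy
      obtain ⟨i, hi⟩ := hc y (ha.trans hy.1) (hy.2.trans hb)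
      rcases hs : σ i with _ | _
      · exact Or.inl ⟨hy, i, hs, hi⟩
      · exact Or.inr ⟨hy, i, hs, hi⟩
    have hdisj : ¬ (Icc y₁ y₂ ∩ (A false ∩ A true)).Nonempty := by
      rintro ⟨y, hy, ⟨-, i, hi, h1⟩, -, j, hj, h2⟩
      have h3 := hdis i j hi hj y hy
      simp only [hi, hj] at h1 h2
      simp only [Bool.false_eq_true, if_false, add_zero, if_true] at h1 h2
      have h4 : c i - c j - y = (f y - (c j + y)) - (f y - c i) := by ring
      have h5 := abs_sub (f y - (c j + y)) (f y - c i)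
      rw [h4] at h3
      linarith
    have hone : ∃ s : Bool, Icc y₁ y₂ ⊆ A s := by
      by_contra hne
      push Not at hne
      apply hdisj
      have h1 : ∀ s : Bool, (Icc y₁ y₂ ∩ A s).Nonempty := by
        intro s
        obtain ⟨y, hy, hy'⟩ := not_subset.1 (hne (!s))
        refine ⟨y, hy, ?_⟩
        rcases hcov hy with h | h
        · rcases s with _ | _
          · exact h
          · exact absurd h hy'
        · rcases s with _ | _
          · exact absurd h hy'
          · exact h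
      exact isPreconnected_closed_iff.1 isPreconnected_Icc _ _
        (SelAux.closed_near hfc c σ false) (SelAux.closed_near hfc c σ true) hcov (h1 false)
        (h1 true)
    obtain ⟨s, hs⟩ := hone
    rcases s with _ | _
    · left
      intro y hy1 hy2
      refine (SelAux.cover hδ hfc c (fun u hu => ?_) y ⟨hy1, hy2⟩).trans hkδ
      obtain ⟨-, i, hi, h1⟩ := hs hu
      refine ⟨i, ?_⟩
      simpa [hi] using h1
    · right
      intro y hy1 hy2
      have h2 := (SelAux.cover hδ (g := fun u => f u - u) (hfc.sub continuousOn_id) c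
        (fun u hu => ?_) y ⟨hy1, hy2⟩).trans hkδ
      · have h3 : f y - f y₁ - (y - y₁) = f y - y - (f y₁ - y₁) := by ring
        rw [h3]
        exact h2
      · obtain ⟨-, i, hi, h1⟩ := hs hu
        refine ⟨i, ?_⟩
        simp only [hi, if_true] at h1
        have h3 : f u - u - c i = f u - (c i + u) := by ring
        rw [h3]
        exact h1

end Pool.Agent.Y648.CS.V
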