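import Pool.Agent.Y648.CX.T_CONF

set_option autoImplicit false

/-!
Task X1 of project Y648, part 2: ratios for the orthogonal complement (`S_SELF`).
-/

namespace Pool.Agent.Y648.CS.V

open Matrix

namespace Self

variable {K : ℕ}

/-- The restriction to the support of `g`. -/
noncomputable def rst (g : Fin K → ℝ) : (Fin K → ℝ) →ₗ[ℝ] (Fin K → ℝ) where
  toFun x := fun i => if g i = 0 then 0 else x i
  map_add' x y := by
    funext i
    by_cases h : g i = 0 <;> simp [h]
  map_smul' l x := by
    funext i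
    by_cases h : g i = 0 <;> simp [h]

lemma rst_apply (g x : Fin K → ℝ) (i : Fin K) : rst g x i = if g i = 0 then 0 else x i := rfl

/-- A vector of `U` with prescribed coordinates on the support of `g`. -/
lemma key (U : Submodule ℝ (Fin K → ℝ)) (g : Fin K → ℝ) (hg : Ele (ann U) g) (e : Fin K → ℝ)
    (he : ∀ i, g i = 0 → e i = 0) (hge : g ⬝ᵥ e = 0) :
    ∃ u ∈ U, ∀ i, g i ≠ 0 → u i = e i := by
  by_cases hmem : e ∈ U.map (rst g)
  · obtain ⟨u, hu, hue⟩ := (Submodule.mem_map).1 hmem
    refine ⟨u, hu, fun i hi => ?_⟩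
    rw [← hue, rst_apply, if_neg hi]
  · exfalso
    obtain ⟨φ, hφ, hφ2⟩ := Submodule.exists_dual_map_eq_bot_of_notMem hmem inferInstance
    set h : Fin K → ℝ := fun i => φ (Pi.single i 1) with hh
    have hφx : ∀ x, φ x = h ⬝ᵥ x := by
      intro x
      conv_lhs => rw [pi_eq_sum_univ' x]
      rw [map_sum, dotProduct]
      apply Finset.sum_congr rfl
      intro i _
      rw [map_smul, smul_eq_mul, hh, mul_comm]
    set h' : Fin K → ℝ := rst g h with hh'
    have hh'U : h' ∈ ann U := by
      intro u hu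
      have h1 : φ (rst g u) = 0 := by
        have h2 : φ (rst g u) ∈ (U.map (rst g)).map φ :=
          Submodule.mem_map_of_mem (Submodule.mem_map_of_mem hu)
        rw [hφ2] at h2
        exact (Submodule.mem_bot ℝ).1 h2
      rw [hφx] at h1
      rw [← h1, dotProduct, dotProduct]
      apply Finset.sum_congr rfl
      intro i _
      rw [hh', rst_apply, rst_apply]
      by_cases hgi : g i = 0
      · rw [if_pos hgi, if_pos hgi, zero_mul, mul_zero]
      · rw [if_neg hgi, if_neg hgi]
    obtain ⟨l, hl⟩ := hg.2.2 h' hh'U (fun i hi => by rw [hh', rst_apply, if_pos hi])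
    apply hφ
    rw [hφx]
    have h3 : h ⬝ᵥ e = h' ⬝ᵥ e := by
      rw [dotProduct, dotProduct]
      apply Finset.sum_congr rfl
      intro i _
      rw [hh', rst_apply]
      by_cases hgi : g i = 0
      · rw [he i hgi, mul_zero, mul_zero]
      · rw [if_neg hgi]
    rw [h3, hl, smul_dotProduct, hge, smul_zero]

end Self

theorem t_SELF : S_SELF := by
  intro K U g hg j l hjl hgj hgl
  classical
  set e : Fin K → ℝ := Pi.single j (g j)⁻¹ - Pi.single l (g l)⁻¹ with he
  have hej : e j = (g j)⁻¹ := by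
    rw [he, Pi.sub_apply, Pi.single_eq_same, Pi.single_eq_of_ne hjl, sub_zero]
  have hel : e l = -(g l)⁻¹ := by
    rw [he, Pi.sub_apply, Pi.single_eq_same, Pi.single_eq_of_ne (Ne.symm hjl), zero_sub]
  have heo : ∀ i, i ≠ j → i ≠ l → e i = 0 := by
    intro i hij hil
    rw [he, Pi.sub_apply, Pi.single_eq_of_ne hij, Pi.single_eq_of_ne hil, sub_zero]
  have he0 : ∀ i, g i = 0 → e i = 0 := by
    intro i hi
    apply heo
    · intro h
      rw [h] at hi
      exact hgj hi
    · intro h
      rw [h] at hi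
      exact hgl hi
  have hge : g ⬝ᵥ e = 0 := by
    rw [he, dotProduct_sub, dotProduct_single, dotProduct_single, mul_inv_cancel₀ hgj,
      mul_inv_cancel₀ hgl, sub_self]
  obtain ⟨u, hu, hue⟩ := Self.key U g hg e he0 hge
  obtain ⟨C, hC1, hC2, hC3⟩ := t_CONF K U u hu
  have huj : u j ≠ 0 := by
    rw [hue j hgj, hej]
    exact inv_ne_zero hgj
  obtain ⟨k, hk⟩ : ∃ k, C k j ≠ 0 := by
    by_contra h
    push Not at h
    apply huj
    rw [hC3, Finset.sum_apply]
    exact Finset.sum_eq_zero fun k _ => h k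
  have hEle : Ele U (C k) := by
    rcases hC1 k with h | h
    · exfalso
      apply hk
      rw [h]
      rfl
    · exact h
  have hzero : ∀ i, g i ≠ 0 → i ≠ j → i ≠ l → C k i = 0 := by
    intro i hgi hij hil
    have h1 := (hC2 k i).2
    rw [hue i hgi, heo i hij hil, abs_zero] at h1
    exact abs_eq_zero.1 (le_antisymm h1 (abs_nonneg _))
  have hdot : g j * C k j + g l * C k l = 0 := by
    have h1 : g ⬝ᵥ C k = 0 := hg.1 (C k) hEle.1
    rw [dotProduct] at h1
    rw [← h1]
    symm
    apply Finset.sum_eq_add_of_mem j l (Finset.mem_univ _) (Finset.mem_univ _) hjl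
    intro i _ hi
    by_cases hgi : g i = 0
    · rw [hgi, zero_mul]
    · rw [hzero i hgi hi.1 hi.2, mul_zero]
  have hCl : C k l ≠ 0 := by
    intro h
    rw [h, mul_zero, add_zero] at hdot
    exact (mul_ne_zero hgj hk) hdot
  refine ⟨C k, hEle, hk, hCl, ?_⟩
  have h2 : g j / g l = -(C k l / C k j) := by
    field_simp
    linarith
  rw [h2, abs_neg]

end Pool.Agent.Y648.CS.V
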