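import Pool.Agent.Y648.CX.Stm

set_option autoImplicit false

/-!
# The maxima of the coordinates on a good interval
-/

namespace Pool.Agent.Y648.CS.V

open Matrix

namespace TZPL

variable {K : ℕ}

lemma le_of_logb {p q c : ℝ} (hp : 0 < p) (hq : 0 < q) (h : Real.logb 2 p ≤ Real.logb 2 q + c) :
    p ≤ q * 2 ^ c := by
  have h1 := (Real.logb_le_iff_le_rpow (by norm_num : (1 : ℝ) < 2) hp).1 h
  rwa [Real.rpow_add two_pos, Real.rpow_logb two_pos (by norm_num) hq] at h1

lemma logb_le_of {p q c : ℝ} (hp : 0 < p) (hq : 0 < q) (h : p ≤ q * 2 ^ c) :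
    Real.logb 2 p ≤ Real.logb 2 q + c := by
  rw [Real.logb_le_iff_le_rpow (by norm_num : (1 : ℝ) < 2) hp, Real.rpow_add two_pos,
    Real.rpow_logb two_pos (by norm_num) hq]
  exact h

lemma cap_pos {s : Fin K → ℝ} {t : ℝ} (ht : 0 < t) (i : Fin K) : 0 < cap s t i := by
  unfold cap
  split_ifs with h
  · exact one_pos
  · push Not at h
    exact div_pos ht (ht.trans h)

lemma cap_line {s : Fin K → ℝ} {a b : ℝ} (hl : Lin s a b) (i : Fin K) :
    ∃ (c : ℝ) (σ : Bool), ∀ y, a ≤ y → y ≤ b →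
      Real.logb 2 (cap s (2 ^ y) i) = c + if σ then y else 0 := by
  by_cases h : s i ≤ 2 ^ a
  · refine ⟨0, false, fun y hy _ => ?_⟩
    have h1 : s i ≤ 2 ^ y := h.trans (Real.rpow_le_rpow_of_exponent_le (by norm_num) hy)
    rw [cap, if_pos h1]
    simp
  · have hb : (2 : ℝ) ^ b ≤ s i := (hl i).resolve_left h
    have hpos : 0 < s i := lt_of_lt_of_le (Real.rpow_pos_of_pos two_pos b) hb
    refine ⟨- Real.logb 2 (s i), true, fun y _ hy => ?_⟩
    have hc : cap s (2 ^ y) i = 2 ^ y / s i := by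
      unfold cap
      split_ifs with h2
      · have h3 : (2 : ℝ) ^ y ≤ 2 ^ b := Real.rpow_le_rpow_of_exponent_le (by norm_num) hy
        have h4 : s i = 2 ^ y := le_antisymm h2 (h3.trans hb)
        rw [← h4, div_self hpos.ne']
      · rfl
    rw [hc, Real.logb_div (Real.rpow_pos_of_pos two_pos y).ne' hpos.ne',
      Real.logb_rpow two_pos (by norm_num), if_pos rfl]
    ring

/-- the factor of a reference vector -/
noncomputable def lam (τ : Bool) (y : ℝ) : ℝ := if τ then 2 ^ y else 1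

lemma lam_pos (τ : Bool) (y : ℝ) : 0 < lam τ y := by
  unfold lam
  split_ifs
  · exact Real.rpow_pos_of_pos two_pos y
  · exact one_pos

lemma logb_lam (τ : Bool) (y : ℝ) : Real.logb 2 (lam τ y) = if τ then y else 0 := by
  unfold lam
  split_ifs
  · exact Real.logb_rpow two_pos (by norm_num)
  · simp

/-- reference vectors -/
lemma ref (hmx : S_MX) {V : Submodule ℝ (Fin K → ℝ)} {f s : Fin K → ℝ} {a b : ℝ} {D : ℕ}
    (hs : ∀ i, 0 ≤ s i) (hab : a ≤ b) (h : 0 < mx V s f (2 ^ a) → SS a b D (lmx V s f)) :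
    ∃ (X : Fin K → ℝ) (τ : Bool), ∀ y, a ≤ y → y ≤ b → (lam τ y • X) ∈ Bx V s (2 ^ y) ∧
      mx V s f (2 ^ y) ≤ 2 ^ D * (f ⬝ᵥ (lam τ y • X)) := by
  have hp : ∀ y : ℝ, (0 : ℝ) < 2 ^ y := fun y => Real.rpow_pos_of_pos two_pos y
  have hle : ∀ y y' : ℝ, y ≤ y' → (2 : ℝ) ^ y ≤ 2 ^ y' := fun y y' h =>
    Real.rpow_le_rpow_of_exponent_le (by norm_num) h
  obtain ⟨⟨xa, hxa, hfa⟩, -, h0a, hmono⟩ := hmx K V s f hs (2 ^ a) (hp a)
  rcases h0a.eq_or_lt with h0 | h0
  · refine ⟨0, false, fun y hy _ => ?_⟩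
    rw [smul_zero, dotProduct_zero, mul_zero]
    refine ⟨⟨V.zero_mem, fun i => ⟨le_refl _, (cap_pos (hp y) i).le⟩⟩, ?_⟩
    have h1 := (hmono _ (hle a y hy)).2.1
    rw [← h0] at h1
    have h2 : 0 < (2 : ℝ) ^ a / 2 ^ y := div_pos (hp a) (hp y)
    by_contra h3
    push Not at h3
    have := mul_pos h2 h3
    linarith
  · have hmpos : ∀ y, a ≤ y → 0 < mx V s f (2 ^ y) := fun y hy =>
      lt_of_lt_of_le h0 (hmono _ (hle a y hy)).1
    rcases h h0 with h1 | h1
    · refine ⟨xa, false, fun y hy hyb => ?_⟩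
      have e : lam false y = 1 := rfl
      rw [e, one_smul, hfa]
      refine ⟨(hmono _ (hle a y hy)).2.2.1 xa hxa, ?_⟩
      have h2 := h1 a y le_rfl hy hyb
      have h3 : Real.logb 2 (mx V s f (2 ^ y)) ≤ Real.logb 2 (mx V s f (2 ^ a)) + D := by
        have := (abs_le.1 h2).2
        unfold lmx at this
        linarith
      have h4 := le_of_logb (hmpos y hy) h0 h3
      rw [Real.rpow_natCast] at h4
      linarith
    · obtain ⟨⟨xb, hxb, hfb⟩, -, -, -⟩ := hmx K V s f hs (2 ^ b) (hp b)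
      refine ⟨(2 ^ (-b) : ℝ) • xb, true, fun y hy hyb => ?_⟩
      have e : lam true y • (2 ^ (-b) : ℝ) • xb = ((2 : ℝ) ^ y / 2 ^ b) • xb := by
        rw [smul_smul, Real.rpow_neg two_pos.le, lam, if_pos rfl, div_eq_mul_inv]
      rw [e]
      obtain ⟨-, -, -, hmy⟩ := hmx K V s f hs (2 ^ y) (hp y)
      refine ⟨(hmy _ (hle y b hyb)).2.2.2 xb hxb, ?_⟩
      rw [dotProduct_smul, hfb, smul_eq_mul]
      have h2 := h1 y b hy hyb le_rfl
      have h3 : Real.logb 2 (mx V s f (2 ^ y)) ≤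
          Real.logb 2 ((2 : ℝ) ^ y / 2 ^ b * mx V s f (2 ^ b)) + D := by
        rw [Real.logb_mul (div_pos (hp y) (hp b)).ne' (hmpos b hab).ne',
          Real.logb_div (hp y).ne' (hp b).ne', Real.logb_rpow two_pos (by norm_num),
          Real.logb_rpow two_pos (by norm_num)]
        have := (abs_le.1 h2).1
        unfold lmx at this
        linarith
      have h4 := le_of_logb (hmpos y hy) (mul_pos (div_pos (hp y) (hp b)) (hmpos b hab)) h3
      rw [Real.rpow_natCast] at h4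
      linarith

/-- the estimate at one point -/
lemma step (hconf : S_CONF) {V : Submodule ℝ (Fin K → ℝ)} {f F s : Fin K → ℝ} {t : ℝ}
    (ht : 0 < t) {r D : ℕ} {S : Fin K → Fin K → Finset ℝ}
    (hS1 : ∀ i j, (S i j).card ≤ r ∧ ∀ σ ∈ S i j, 0 < σ)
    (hS2 : ∀ C, Ele (ker1 V f) C → ∀ i j, C i ≠ 0 → C j ≠ 0 → ∃ σ ∈ S i j, σ ≤ |C i / C j| ∧
      |C i / C j| ≤ 2 ^ r * σ)
    (hF : ∀ u ∈ V, F ⬝ᵥ u = 0 → f ⬝ᵥ u = 0) {x xp : Fin K → ℝ} {e : Fin K}
    (hx : x ∈ Bx V s t) (hxp : xp ∈ Bx V s t) (hz : 0 < x e)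
    (hmax : ∀ x' ∈ Bx V s t, x' e ≤ x e) (hFx : 0 ≤ F ⬝ᵥ x)
    (hFx2 : F ⬝ᵥ x ≤ 2 ^ D * (F ⬝ᵥ xp)) :
    (0 < xp e ∧ |Real.logb 2 (x e) - Real.logb 2 (xp e)| ≤ D + K + r + 1) ∨
    (∃ j, ∃ σ ∈ S e j, |Real.logb 2 (x e) - (Real.logb 2 (cap s t j) + Real.logb 2 σ)| ≤
      D + K + r + 1) ∨
    (∃ j, 0 < xp j ∧ ∃ σ ∈ S e j, |Real.logb 2 (x e) - (Real.logb 2 (xp j) + Real.logb 2 σ)| ≤
      D + K + r + 1) := by
  classical
  have h2D : (0 : ℝ) < 2 ^ D := by positivity
  have hKpos : 0 < K := lt_of_le_of_lt (Nat.zero_le _) e.2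
  have hK0 : (0 : ℝ) < K := by exact_mod_cast hKpos
  have hr0 : (0 : ℝ) ≤ r := Nat.cast_nonneg r
  have hD0 : (0 : ℝ) ≤ D := Nat.cast_nonneg D
  have hxp0 : 0 ≤ F ⬝ᵥ xp := by
    by_contra h
    push Not at h
    have := mul_neg_of_pos_of_neg h2D h
    linarith
  obtain ⟨β, hβ0, hβD, hβ⟩ : ∃ β : ℝ, 0 ≤ β ∧ β ≤ 2 ^ D ∧ F ⬝ᵥ x = β * (F ⬝ᵥ xp) := by
    rcases hxp0.eq_or_lt with h | h
    · refine ⟨0, le_rfl, h2D.le, ?_⟩
      rw [← h, mul_zero] at hFx2
      rw [← h]
      linarith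
    · refine ⟨(F ⬝ᵥ x) / (F ⬝ᵥ xp), div_nonneg hFx h.le, ?_, ?_⟩
      · rw [div_le_iff₀ h]; exact hFx2
      · rw [div_mul_cancel₀ _ h.ne']
  by_cases hc : x e / 2 ≤ β * xp e
  · left
    have hxpe : 0 < xp e := by
      rcases (hxp.2 e).1.eq_or_lt with h | h
      · rw [← h, mul_zero] at hc; linarith
      · exact h
    refine ⟨hxpe, ?_⟩
    have h1 : x e ≤ xp e * 2 ^ ((D : ℝ) + 1) := by
      rw [Real.rpow_add two_pos, Real.rpow_natCast, Real.rpow_one]
      have : β * xp e ≤ 2 ^ D * xp e := mul_le_mul_of_nonneg_right hβD hxpe.le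
      linarith
    have h2 := logb_le_of hz hxpe h1
    have h3 : Real.logb 2 (xp e) ≤ Real.logb 2 (x e) :=
      Real.logb_le_logb_of_le (by norm_num) hxpe (hmax xp hxp)
    rw [abs_le]
    constructor <;> linarith
  · right
    push Not at hc
    set u : Fin K → ℝ := x - β • xp with hu
    have huV : u ∈ V := V.sub_mem hx.1 (V.smul_mem β hxp.1)
    have huU : u ∈ ker1 V f := by
      refine ⟨huV, hF u huV ?_⟩
      rw [hu, dotProduct_sub, dotProduct_smul, smul_eq_mul, hβ, sub_self]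
    have hui : ∀ i, u i = x i - β * xp i := fun i => rfl
    obtain ⟨Cs, hC1, hC2, hC3⟩ := hconf K (ker1 V f) u huU
    have hsum : ∑ k, Cs k e = u e := by
      conv_rhs => rw [hC3]
      rw [Finset.sum_apply]
    obtain ⟨k, hk⟩ : ∃ k, u e / K ≤ Cs k e := by
      by_contra hno
      push Not at hno
      have h1 : ∑ k, Cs k e < ∑ _k : Fin K, u e / K :=
        Finset.sum_lt_sum_of_nonempty ⟨e, Finset.mem_univ e⟩ (fun k _ => hno k)
      rw [Finset.sum_const, Finset.card_univ, Fintype.card_fin, nsmul_eq_mul,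
        mul_div_cancel₀ _ hK0.ne', hsum] at h1
      exact lt_irrefl _ h1
    set C := Cs k with hCdef
    have hue : x e / 2 < u e := by rw [hui]; linarith
    have hCe : x e ≤ 2 * K * C e := by
      rw [div_le_iff₀ hK0] at hk
      nlinarith
    have hCe0 : 0 < C e := by
      have h1 : 0 < u e / K := div_pos (by linarith) hK0
      linarith
    have hEle : Ele (ker1 V f) C := by
      rcases hC1 k with h | h
      · exfalso
        have : C e = 0 := by rw [hCdef, h]; rfl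
        linarith
      · exact h
    have hup : ∀ i, 0 < C i → C i ≤ cap s t i := by
      intro i hi
      have h1 := (hC2 k i).1
      have h2 := (hC2 k i).2
      rw [abs_of_pos hi] at h2
      have h3 : 0 ≤ u i := by
        by_contra h
        push Not at h
        have := mul_neg_of_pos_of_neg hi h
        linarith
      rw [abs_of_nonneg h3, hui] at h2
      have h4 := (hx.2 i).2
      have h5 : 0 ≤ β * xp i := mul_nonneg hβ0 (hxp.2 i).1
      linarith
    have hlo : ∀ i, C i < 0 → - C i ≤ 2 ^ D * xp i := by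
      intro i hi
      have h1 := (hC2 k i).1
      have h2 := (hC2 k i).2
      rw [abs_of_neg hi] at h2
      have h3 : u i ≤ 0 := by
        by_contra h
        push Not at h
        have := mul_neg_of_neg_of_pos hi h
        linarith
      rw [abs_of_nonpos h3, hui] at h2
      have h4 := (hx.2 i).1
      have h5 : β * xp i ≤ 2 ^ D * xp i := mul_le_mul_of_nonneg_right hβD (hxp.2 i).1
      linarith
    let ρ : Fin K → ℝ := fun i => if 0 < C i then cap s t i / C i else xp i / (- C i)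
    have hρ1 : ∀ i, C i ≠ 0 → 1 ≤ 2 ^ D * ρ i := by
      intro i hi
      rcases lt_or_gt_of_ne hi with h | h
      · have e1 : ρ i = xp i / (- C i) := if_neg (not_lt.2 h.le)
        rw [e1, ← mul_div_assoc, le_div_iff₀ (by linarith), one_mul]
        exact hlo i h
      · have e1 : ρ i = cap s t i / C i := if_pos h
        rw [e1]
        have h1 : 1 ≤ cap s t i / C i := by rw [le_div_iff₀ h, one_mul]; exact hup i h
        have h2 : (1 : ℝ) ≤ 2 ^ D := one_le_pow₀ (by norm_num)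
        nlinarith
    obtain ⟨j, hj, hmin⟩ := Finset.exists_min_image (Finset.univ.filter (fun i => C i ≠ 0)) ρ
      ⟨e, Finset.mem_filter.2 ⟨Finset.mem_univ e, hCe0.ne'⟩⟩
    have hj0 : C j ≠ 0 := (Finset.mem_filter.1 hj).2
    have hmin' : ∀ i, C i ≠ 0 → ρ j ≤ ρ i := fun i hi =>
      hmin i (Finset.mem_filter.2 ⟨Finset.mem_univ i, hi⟩)
    have hρj := hρ1 j hj0
    have hρj0 : 0 < ρ j := by
      by_contra h
      push Not at h
      have := mul_nonpos_of_nonneg_of_nonpos h2D.le h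
      linarith
    have hmem : (1 / 2 : ℝ) • (ρ j • C + xp) ∈ Bx V s t := by
      refine ⟨V.smul_mem _ (V.add_mem (V.smul_mem _ hEle.1.1) hxp.1), fun i => ?_⟩
      have e1 : ((1 / 2 : ℝ) • (ρ j • C + xp)) i = 1 / 2 * (ρ j * C i + xp i) := rfl
      rw [e1]
      have h1 := hxp.2 i
      rcases lt_trichotomy (C i) 0 with h | h | h
      · have h2 := hmin' i h.ne
        have e2 : ρ i = xp i / (- C i) := if_neg (not_lt.2 h.le)
        rw [e2, le_div_iff₀ (by linarith)] at h2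
        have h3 : ρ j * C i ≤ 0 := mul_nonpos_of_nonneg_of_nonpos hρj0.le h.le
        constructor
        · linarith
        · linarith
      · rw [h, mul_zero, zero_add]
        constructor <;> linarith
      · have h2 := hmin' i h.ne'
        have e2 : ρ i = cap s t i / C i := if_pos h
        rw [e2, le_div_iff₀ h] at h2
        have h3 : 0 ≤ ρ j * C i := mul_nonneg hρj0.le h.le
        constructor <;> linarith
    set w := ρ j * C e with hw
    have hw0 : 0 < w := mul_pos hρj0 hCe0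
    have hwz : w ≤ 2 * x e := by
      have h1 := hmax _ hmem
      have e1 : ((1 / 2 : ℝ) • (ρ j • C + xp)) e = 1 / 2 * (ρ j * C e + xp e) := rfl
      rw [e1] at h1
      have := (hxp.2 e).1
      linarith
    have hzw : x e ≤ 2 ^ D * (2 * K) * w := by
      have h1 : 2 * K * C e * 1 ≤ 2 * K * C e * (2 ^ D * ρ j) :=
        mul_le_mul_of_nonneg_left hρj (by positivity)
      calc x e ≤ 2 * K * C e * 1 := by rw [mul_one]; exact hCe
        _ ≤ 2 * K * C e * (2 ^ D * ρ j) := h1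
        _ = 2 ^ D * (2 * K) * w := by rw [hw]; ring
    obtain ⟨σ, hσ, hσ1, hσ2⟩ := hS2 C hEle e j hCe0.ne' hj0
    have hσ0 : 0 < σ := (hS1 e j).2 σ hσ
    have hKK : (K : ℝ) ≤ 2 ^ K := by exact_mod_cast Nat.lt_two_pow_self.le
    -- the general estimate
    have fin : ∀ m' : ℝ, 0 < m' → w = m' * |C e / C j| →
        |Real.logb 2 (x e) - (Real.logb 2 m' + Real.logb 2 σ)| ≤ D + K + r + 1 := by
      intro m' hm' hwm
      rw [← Real.logb_mul hm'.ne' hσ0.ne']
      have hms : 0 < m' * σ := mul_pos hm' hσ0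
      have h1 : m' * σ ≤ w := by rw [hwm]; exact mul_le_mul_of_nonneg_left hσ1 hm'.le
      have h2 : w ≤ m' * σ * 2 ^ r := by
        rw [hwm]
        calc m' * |C e / C j| ≤ m' * (2 ^ r * σ) := mul_le_mul_of_nonneg_left hσ2 hm'.le
          _ = m' * σ * 2 ^ r := by ring
      have h3 : Real.logb 2 (m' * σ) ≤ Real.logb 2 (x e) + 1 := by
        apply logb_le_of hms hz
        rw [Real.rpow_one]
        linarith
      have h4 : Real.logb 2 (x e) ≤ Real.logb 2 (m' * σ) + (D + K + r + 1) := by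
        apply logb_le_of hz hms
        have e1 : (2 : ℝ) ^ ((D : ℝ) + K + r + 1) = 2 ^ D * 2 ^ K * 2 ^ r * 2 := by
          rw [Real.rpow_add two_pos, Real.rpow_add two_pos, Real.rpow_add two_pos,
            Real.rpow_natCast, Real.rpow_natCast, Real.rpow_natCast, Real.rpow_one]
        rw [e1]
        calc x e ≤ 2 ^ D * (2 * K) * w := hzw
          _ ≤ 2 ^ D * (2 * 2 ^ K) * (m' * σ * 2 ^ r) := by gcongr
          _ = m' * σ * (2 ^ D * 2 ^ K * 2 ^ r * 2) := by ring
      rw [abs_le]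
      constructor <;> linarith
    rcases lt_or_gt_of_ne hj0 with h | h
    · right
      have e1 : ρ j = xp j / (- C j) := if_neg (not_lt.2 h.le)
      have hxj : 0 < xp j := by
        rw [e1] at hρj0
        have := mul_pos hρj0 (show (0 : ℝ) < - C j by linarith)
        rwa [div_mul_cancel₀ _ (by linarith : - C j ≠ 0)] at this
      refine ⟨j, hxj, σ, hσ, fin (xp j) hxj ?_⟩
      rw [hw, e1, abs_div, abs_of_pos hCe0, abs_of_neg h]
      ring
    · left
      have e1 : ρ j = cap s t j / C j := if_pos h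
      refine ⟨j, σ, hσ, fin (cap s t j) (cap_pos ht j) ?_⟩
      rw [hw, e1, abs_div, abs_of_pos hCe0, abs_of_pos h]
      ring

lemma PL_mono {a b : ℝ} {N N' : ℕ} {δ δ' : ℝ} {f : ℝ → ℝ} (h : PL a b N δ f) (hN : N ≤ N')
    (hδ : δ ≤ δ') : PL a b N' δ' f := by
  obtain ⟨Z, hZ, h⟩ := h
  refine ⟨Z, hZ.trans hN, fun y₁ y₂ h1 h2 h3 h4 => ?_⟩
  rcases h y₁ y₂ h1 h2 h3 h4 with h5 | h5
  · exact Or.inl fun y h6 h7 => (h5 y h6 h7).trans hδ
  · exact Or.inr fun y h6 h7 => (h5 y h6 h7).trans hδ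

/-- version of `S_SEL` for a finite set of lines -/
lemma sel (hsel : S_SEL) {a b δ : ℝ} {k : ℕ} {f : ℝ → ℝ} (L : Finset (ℝ × Bool)) (hk : L.card ≤ k)
    (hδ : 0 ≤ δ)
    (hf : ∀ y y', a ≤ y → y ≤ y' → y' ≤ b → f y ≤ f y' ∧ f y' - f y ≤ y' - y)
    (h : ∀ y, a ≤ y → y ≤ b → ∃ l ∈ L, |f y - (l.1 + if l.2 then y else 0)| ≤ δ) :
    PL a b (2 * k * k) (20 * k * δ) f := by
  have h1 := hsel a b δ L.card f (fun i => (L.equivFin.symm i).1.1)
    (fun i => (L.equivFin.symm i).1.2) hδ hf (by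
      intro y h1 h2
      obtain ⟨l, hl, h3⟩ := h y h1 h2
      refine ⟨L.equivFin ⟨l, hl⟩, ?_⟩
      simp only [Equiv.symm_apply_apply]
      exact h3)
  refine PL_mono h1 ?_ ?_
  · gcongr
  · have : (L.card : ℝ) ≤ k := by exact_mod_cast hk
    gcongr

/-- the lines attached to one reference vector -/
noncomputable def lines (S : Fin K → Fin K → Finset ℝ) (e : Fin K) (c : Fin K → ℝ)
    (σc : Fin K → Bool) (X : Fin K → ℝ) (τ : Bool) : Finset (ℝ × Bool) := by
  classical
  exact insert (Real.logb 2 (X e), τ)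
    ((Finset.univ.biUnion fun j => (S e j).image fun σ => (c j + Real.logb 2 σ, σc j)) ∪
      (Finset.univ.biUnion fun j => (S e j).image fun σ => (Real.logb 2 (X j) + Real.logb 2 σ, τ)))

lemma card_lines {r : ℕ} {S : Fin K → Fin K → Finset ℝ} (hS : ∀ i j, (S i j).card ≤ r) (e : Fin K)
    (c : Fin K → ℝ) (σc : Fin K → Bool) (X : Fin K → ℝ) (τ : Bool) :
    (lines S e c σc X τ).card ≤ 2 * K * r + 1 := by
  classical
  unfold lines
  refine (Finset.card_insert_le _ _).trans (Nat.add_le_add_right ?_ 1)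
  refine (Finset.card_union_le _ _).trans ?_
  have h1 : (Finset.univ.biUnion fun j =>
      (S e j).image fun σ => (c j + Real.logb 2 σ, σc j)).card ≤ K * r := by
    refine (Finset.card_biUnion_le_card_mul _ _ r fun j _ => Finset.card_image_le.trans (hS e j)).trans ?_
    rw [Finset.card_univ, Fintype.card_fin]
  have h2 : (Finset.univ.biUnion fun j =>
      (S e j).image fun σ => (Real.logb 2 (X j) + Real.logb 2 σ, τ)).card ≤ K * r := by
    refine (Finset.card_biUnion_le_card_mul _ _ r fun j _ => Finset.card_image_le.trans (hS e j)).trans ?_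
    rw [Finset.card_univ, Fintype.card_fin]
  calc _ ≤ K * r + K * r := Nat.add_le_add h1 h2
    _ = 2 * K * r := by ring

end TZPL

open TZPL in
/-- the maxima of the coordinates on a good interval -/
theorem t_ZPL (hconf : S_CONF) (hmx : S_MX) (hsel : S_SEL) : S_ZPL := by
  classical
  refine ⟨Polynomial.C 100 * (Polynomial.X + 1) ^ 4, ?_⟩
  intro K r D V f s a b e hs hab hlin hfew hp hm he
  obtain ⟨S, hS1, hS2⟩ := hfew
  have hpw : ∀ y : ℝ, (0 : ℝ) < 2 ^ y := fun y => Real.rpow_pos_of_pos two_pos y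
  have hle : ∀ y y' : ℝ, y ≤ y' → (2 : ℝ) ^ y ≤ 2 ^ y' := fun y y' h =>
    Real.rpow_le_rpow_of_exponent_le (by norm_num) h
  choose c σc hc using fun i => cap_line hlin i
  obtain ⟨X₁, τ₁, hX₁⟩ := ref hmx hs hab hp
  obtain ⟨X₂, τ₂, hX₂⟩ := ref hmx hs hab hm
  have hzpos : ∀ y, a ≤ y → 0 < mx V s (Pi.single e 1) (2 ^ y) := fun y hy =>
    lt_of_lt_of_le he ((hmx K V s (Pi.single e 1) hs (2 ^ a) (hpw a)).2.2.2 _ (hle a y hy)).1
  have hmono : ∀ y y', a ≤ y → y ≤ y' → y' ≤ b →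
      lmx V s (Pi.single e 1) y ≤ lmx V s (Pi.single e 1) y' ∧
        lmx V s (Pi.single e 1) y' - lmx V s (Pi.single e 1) y ≤ y' - y := by
    intro y y' h1 h2 h3
    obtain ⟨-, -, -, h4⟩ := hmx K V s (Pi.single e 1) hs (2 ^ y) (hpw y)
    obtain ⟨h5, h6, -⟩ := h4 _ (hle y y' h2)
    refine ⟨Real.logb_le_logb_of_le (by norm_num) (hzpos y h1) h5, ?_⟩
    have h7 : Real.logb 2 (2 ^ y / 2 ^ y' * mx V s (Pi.single e 1) (2 ^ y')) ≤
        Real.logb 2 (mx V s (Pi.single e 1) (2 ^ y)) :=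
      Real.logb_le_logb_of_le (by norm_num)
        (mul_pos (div_pos (hpw y) (hpw y')) (hzpos y' (h1.trans h2))) h6
    rw [Real.logb_mul (div_pos (hpw y) (hpw y')).ne' (hzpos y' (h1.trans h2)).ne',
      Real.logb_div (hpw y).ne' (hpw y').ne', Real.logb_rpow two_pos (by norm_num),
      Real.logb_rpow two_pos (by norm_num)] at h7
    unfold lmx
    linarith
  let L := lines S e c σc X₁ τ₁ ∪ lines S e c σc X₂ τ₂
  have hLcard : L.card ≤ 4 * K * r + 2 := by
    refine (Finset.card_union_le _ _).trans ?_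
    have h1 := card_lines (fun i j => (hS1 i j).1) e c σc X₁ τ₁
    have h2 := card_lines (fun i j => (hS1 i j).1) e c σc X₂ τ₂
    calc _ ≤ (2 * K * r + 1) + (2 * K * r + 1) := Nat.add_le_add h1 h2
      _ = 4 * K * r + 2 := by ring
  have hδ : (0 : ℝ) ≤ D + K + r + 1 := by positivity
  have main : ∀ y, a ≤ y → y ≤ b → ∃ l ∈ L,
      |lmx V s (Pi.single e 1) y - (l.1 + if l.2 then y else 0)| ≤ D + K + r + 1 := by
    intro y hy hyb
    obtain ⟨⟨x, hx, hxe⟩, hmax, -, -⟩ := hmx K V s (Pi.single e 1) hs (2 ^ y) (hpw y)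
    rw [single_one_dotProduct] at hxe
    have hmax' : ∀ x' ∈ Bx V s (2 ^ y), x' e ≤ x e := by
      intro x' hx'
      have := hmax x' hx'
      rw [single_one_dotProduct] at this
      rw [hxe]
      exact this
    have hz : 0 < x e := by rw [hxe]; exact hzpos y hy
    have hval : lmx V s (Pi.single e 1) y = Real.logb 2 (x e) := by rw [hxe]; rfl
    have gen : ∀ (F X : Fin K → ℝ) (τ : Bool), (∀ u ∈ V, F ⬝ᵥ u = 0 → f ⬝ᵥ u = 0) →
        (lam τ y • X) ∈ Bx V s (2 ^ y) → mx V s F (2 ^ y) ≤ 2 ^ D * (F ⬝ᵥ (lam τ y • X)) →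
        0 ≤ F ⬝ᵥ x → ∃ l ∈ lines S e c σc X τ,
          |lmx V s (Pi.single e 1) y - (l.1 + if l.2 then y else 0)| ≤ D + K + r + 1 := by
      intro F X τ hF hmem hmxF hFx
      have hFx2 : F ⬝ᵥ x ≤ 2 ^ D * (F ⬝ᵥ (lam τ y • X)) :=
        ((hmx K V s F hs (2 ^ y) (hpw y)).2.1 x hx).trans hmxF
      have hlog : ∀ j, 0 < (lam τ y • X) j →
          Real.logb 2 ((lam τ y • X) j) = Real.logb 2 (X j) + if τ then y else 0 := by
        intro j hj
        have e1 : (lam τ y • X) j = lam τ y * X j := rfl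
        rw [e1] at hj ⊢
        have h1 : 0 < X j := by
          by_contra h
          push Not at h
          have := mul_nonpos_of_nonneg_of_nonpos (lam_pos τ y).le h
          linarith
        rw [Real.logb_mul (lam_pos τ y).ne' h1.ne', logb_lam, add_comm]
      rcases step hconf (hpw y) hS1 hS2 hF hx hmem hz hmax' hFx hFx2 with
        ⟨h1, h2⟩ | ⟨j, σ, hσ, h2⟩ | ⟨j, h1, σ, hσ, h2⟩
      · refine ⟨(Real.logb 2 (X e), τ), Finset.mem_insert_self _ _, ?_⟩
        rw [hval]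
        rw [hlog e h1] at h2
        exact h2
      · refine ⟨(c j + Real.logb 2 σ, σc j), Finset.mem_insert_of_mem (Finset.mem_union_left _
          (Finset.mem_biUnion.2 ⟨j, Finset.mem_univ j, Finset.mem_image.2 ⟨σ, hσ, rfl⟩⟩)), ?_⟩
        rw [hval]
        rw [hc j y hy hyb] at h2
        have e1 : c j + Real.logb 2 σ + (if σc j then y else 0) =
            c j + (if σc j then y else 0) + Real.logb 2 σ := by ring
        simp only
        rw [e1]
        exact h2
      · refine ⟨(Real.logb 2 (X j) + Real.logb 2 σ, τ), Finset.mem_insert_of_mem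
          (Finset.mem_union_right _
          (Finset.mem_biUnion.2 ⟨j, Finset.mem_univ j, Finset.mem_image.2 ⟨σ, hσ, rfl⟩⟩)), ?_⟩
        rw [hval]
        rw [hlog j h1] at h2
        have e1 : Real.logb 2 (X j) + Real.logb 2 σ + (if τ then y else 0) =
            Real.logb 2 (X j) + (if τ then y else 0) + Real.logb 2 σ := by ring
        simp only
        rw [e1]
        exact h2
    rcases le_total 0 (f ⬝ᵥ x) with h | h
    · obtain ⟨l, hl, h1⟩ := gen f X₁ τ₁ (fun u _ h => h) (hX₁ y hy hyb).1 (hX₁ y hy hyb).2 h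
      exact ⟨l, Finset.mem_union_left _ hl, h1⟩
    · obtain ⟨l, hl, h1⟩ := gen (-f) X₂ τ₂ (fun u _ h => by
        rw [neg_dotProduct, neg_eq_zero] at h; exact h) (hX₂ y hy hyb).1 (hX₂ y hy hyb).2
        (by rw [neg_dotProduct]; linarith)
      exact ⟨l, Finset.mem_union_right _ hl, h1⟩
  have hres := sel hsel (k := 4 * K * r + 2) L hLcard hδ hmono main
  refine PL_mono hres ?_ ?_
  · simp only [Polynomial.eval_mul, Polynomial.eval_C, Polynomial.eval_pow, Polynomial.eval_add,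
      Polynomial.eval_X, Polynomial.eval_one]
    have h1 : 4 * K * r + 2 ≤ 4 * (K + r + 1) ^ 2 := by nlinarith
    calc 2 * (4 * K * r + 2) * (4 * K * r + 2) ≤
        2 * (4 * (K + r + 1) ^ 2) * (4 * (K + r + 1) ^ 2) := by gcongr
      _ = 32 * (K + r + 1) ^ 4 := by ring
      _ ≤ 100 * (K + r + 1) ^ 4 := by gcongr; norm_num
  · simp only [Polynomial.eval_mul, Polynomial.eval_C, Polynomial.eval_pow, Polynomial.eval_add,
      Polynomial.eval_X, Polynomial.eval_one]
    have h0 : 20 * (4 * K * r + 2) * (D + K + r + 1) ≤ 100 * (K + r + D + 1) ^ 4 := by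
      have h1 : 4 * K * r + 2 ≤ 4 * (K + r + 1) ^ 2 := by nlinarith
      have h2 : 4 * (K + r + 1) ^ 2 ≤ 4 * (K + r + D + 1) ^ 2 :=
        Nat.mul_le_mul_left 4 (Nat.pow_le_pow_left (by omega) 2)
      have h3 : D + K + r + 1 = K + r + D + 1 := by ring
      have h4 : (K + r + D + 1) ^ 3 ≤ (K + r + D + 1) ^ 4 :=
        Nat.pow_le_pow_right (by omega) (by norm_num)
      calc 20 * (4 * K * r + 2) * (D + K + r + 1) ≤
          20 * (4 * (K + r + D + 1) ^ 2) * (K + r + D + 1) := by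
            rw [h3]
            exact Nat.mul_le_mul_right _ (Nat.mul_le_mul_left 20 (h1.trans h2))
        _ = 80 * (K + r + D + 1) ^ 3 := by ring
        _ ≤ 100 * (K + r + D + 1) ^ 4 := by omega
    exact_mod_cast h0

end Pool.Agent.Y648.CS.V
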