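import Pool.Agent.Y648.CW.All
import Pool.Agent.Y648.CW.T_SPAN
import Pool.Agent.Y648.CX.T_CONF
import Pool.Agent.Y648.CX.T_SELF
import Pool.Agent.Y648.CX.T_MX
import Pool.Agent.Y648.CX.T_DUAL
import Pool.Agent.Y648.CX.T_NNEG
import Pool.Agent.Y648.CX.T_SEL
import Pool.Agent.Y648.CX.T_APL
import Pool.Agent.Y648.CX.T_ZPL
import Pool.Agent.Y648.CX.T_PIE
import Pool.Agent.Y648.CX.T_HPL
import Pool.Agent.Y648.CX.T_GLU
import Pool.Agent.Y648.CX.T_FSG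
import Pool.Agent.Y648.CX.T_FSC
import Pool.Agent.Y648.CX.T_CUTG
import Pool.Agent.Y648.CX.T_SCG
import Pool.Agent.Y648.CX.T_RAT
import Pool.Agent.Y648.CX.T_MAING

set_option autoImplicit false

/-! # Scales of circuit ratios, one column more or less: all parts together -/

namespace Pool.Agent.Y648.CS.V

open Pool.Agent.W920.FC

theorem main : S_MAING := by
  obtain ⟨hCMPQ, hPR, hPHS, hPTW, hCTRL⟩ := W.parts
  have hSELF := t_SELF
  have hAPL := t_APL t_CONF t_DUAL t_SELF t_MX t_SEL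
  have hZPL := t_ZPL t_CONF t_MX t_SEL
  have hPIE := t_PIE t_MX hAPL hZPL
  have hHPL := t_HPL t_CONF t_MX t_SEL
  have hPIB := t_PIB hHPL (t_GLU t_MX)
  have hFSC := t_FSC (t_FSG t_NNEG t_MX) hPIE hPIB
  have hCUTG := t_CUTG t_LSP t_GRD (t_GRV t_GRD) Pool.Agent.Y721.CS.t_CNT hFSC
  exact t_MAING t_RUN hCTRL t_BITS hPTW hPHS (t_BEG0 t_MOV) (t_BEG1 t_MOV) t_SCG t_MOV
    hCMPQ hPR hCUTG

end Pool.Agent.Y648.CS.V
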