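import Pool.Agent.Y648.CW.StmC

set_option autoImplicit false

/-!
# Rational matrices have few scales
-/

namespace Pool.Agent.Y648.CS.V

open Pool.Agent.H558R2

/-- Rational matrices: the minors are, up to factors of the rows, integers of polynomial length. -/
def S_RAT : Prop := ∃ q : Polynomial ℕ, ∀ (m n : ℕ) (A : Matrix (Fin m) (Fin n) ℚ),
  W.MinSpan 1 (q.eval (inputLength A 0)) (Matrix.of fun i j => ((A i j : ℚ) : ℝ))

end Pool.Agent.Y648.CS.V
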