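import Pool.Agent.Y648.CX.Stm

set_option autoImplicit false

/-!
# The structure of the bounds along the path, with one additional column

Job X7 (helper125).
-/

namespace Pool.Agent.Y648.CS.V

open Matrix

namespace TFSA

/-- The restriction to `X`. -/
noncomputable def rho {X : Finset ℕ} {K' : ℕ} (en : {c // c ∈ X} ≃ Fin K') :
    (ℕ → ℝ) →ₗ[ℝ] (Fin K' → ℝ) where
  toFun x := fun i => x (en.symm i)
  map_add' _ _ := rfl
  map_smul' _ _ := rfl

lemma rho_apply {X : Finset ℕ} {K' : ℕ} (en : {c // c ∈ X} ≃ Fin K') (x : ℕ → ℝ) (i : Fin K') :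
    rho en x i = x (en.symm i) := rfl

lemma rho_mem {X : Finset ℕ} {K' : ℕ} (en : {c // c ∈ X} ≃ Fin K') (x : ℕ → ℝ) {c : ℕ}
    (hc : c ∈ X) : rho en x (en ⟨c, hc⟩) = x c := by
  rw [rho_apply, Equiv.symm_apply_apply]

lemma sum_rho {X : Finset ℕ} {K' : ℕ} (en : {c // c ∈ X} ≃ Fin K') (g : ℕ → ℝ) :
    ∑ i, g (en.symm i) = ∑ c ∈ X, g c := by
  rw [← Finset.sum_coe_sort X g]
  exact Equiv.sum_comp en.symm (fun c : {c // c ∈ X} => g c)

/-- A linear form on the image. -/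
lemma exists_form {X : Finset ℕ} {K' : ℕ} (en : {c // c ∈ X} ≃ Fin K')
    (Ls : Submodule ℝ (ℕ → ℝ)) (q : ℕ) (h : ∀ x ∈ Ls, (∀ c ∈ X, x c = 0) → x q = 0) :
    ∃ g : Fin K' → ℝ, ∀ x ∈ Ls, g ⬝ᵥ rho en x = x q := by
  set A : Ls →ₗ[ℝ] (Fin K' → ℝ) := (rho en).comp Ls.subtype with hA
  set φ : Module.Dual ℝ Ls := (LinearMap.proj (R := ℝ) (φ := fun _ : ℕ => ℝ) q).comp Ls.subtype
    with hφ
  have h1 : φ ∈ LinearMap.range A.dualMap := by
    rw [LinearMap.range_dualMap_eq_dualAnnihilator_ker, Submodule.mem_dualAnnihilator]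
    intro w hw
    have hw' : rho en (w : ℕ → ℝ) = 0 := hw
    refine h w w.2 fun c hc => ?_
    have h3 := rho_mem en (w : ℕ → ℝ) hc
    rw [hw'] at h3
    exact h3.symm
  obtain ⟨ψ, hψ⟩ := h1
  refine ⟨fun i => ψ (Pi.single i 1), fun x hx => ?_⟩
  have h2 : ψ (rho en x) = x q := by
    have := LinearMap.congr_fun hψ ⟨x, hx⟩
    exact this
  rw [← h2]
  conv_rhs => rw [LinearMap.pi_apply_eq_sum_univ ψ (rho en x)]
  unfold dotProduct
  refine Finset.sum_congr rfl fun i _ => ?_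
  have h3 : (Pi.single i (1 : ℝ) : Fin K' → ℝ) = fun j => if i = j then 1 else 0 := by
    funext j
    simp only [Pi.single_apply, eq_comm]
  show ψ (Pi.single i 1) * _ = _
  rw [h3, smul_eq_mul, mul_comm]

/-- The scales of the kernel of `a`. -/
lemma fewE_of_scA {X : Finset ℕ} {K' : ℕ} (en : {c // c ∈ X} ≃ Fin K')
    (Ls : Submodule ℝ (ℕ → ℝ)) (a : ℕ → ℝ) (r : ℕ) (h : ScA r Ls X a) :
    FewE r (ker1 (Ls.map (rho en)) (rho en a)) := by
  choose S hS using h
  refine ⟨fun i j => S (en.symm i) (en.symm i).2 (en.symm j) (en.symm j).2,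
    fun i j => ⟨(hS _ _ _ _).1, (hS _ _ _ _).2.1⟩, ?_⟩
  intro C hC i j hi hj
  obtain ⟨⟨hCV, hCf⟩, hC0, hCm⟩ := hC
  obtain ⟨v, hv, rfl⟩ := hCV
  have hel : ElA Ls X a v := by
    refine ⟨hv, ?_, ?_, ?_⟩
    · rw [← sum_rho en (fun c => a c * v c)]
      exact hCf
    · by_contra hne
      push Not at hne
      apply hC0
      funext k
      rw [rho_apply, hne _ (en.symm k).2]
      rfl
    · intro z hz haz hsup
      obtain ⟨l, hl⟩ := hCm (rho en z) ⟨⟨z, hz, rfl⟩, by
        rw [← sum_rho en (fun c => a c * z c)] at haz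
        exact haz⟩ (fun k hk => hsup _ (en.symm k).2 hk)
      refine ⟨l, fun c hc => ?_⟩
      have := congrFun hl (en ⟨c, hc⟩)
      rw [rho_mem, Pi.smul_apply, rho_mem, smul_eq_mul] at this
      exact this
  exact (hS _ _ _ _).2.2 v hel hi hj

/-- The maximum of `- q`. -/
lemma exists_c0 {K' : ℕ} (V : Submodule ℝ (Fin K' → ℝ)) (g : Fin K' → ℝ) :
    ∃ v ∈ V, (∀ i, 0 ≤ v i) ∧ ∑ i, v i ≤ 1 ∧ g ⬝ᵥ v ≤ 0 ∧
      ∀ u ∈ V, (∀ i, 0 ≤ u i) → ∑ i, u i ≤ 1 → g ⬝ᵥ v ≤ g ⬝ᵥ u := by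
  have hcl : IsClosed {v : Fin K' → ℝ | v ∈ V ∧ (∀ i, 0 ≤ v i) ∧ ∑ i, v i ≤ 1} := by
    refine IsClosed.inter V.closed_of_finiteDimensional (IsClosed.inter ?_ ?_)
    · have : {v : Fin K' → ℝ | ∀ i, 0 ≤ v i} = ⋂ i, {v | 0 ≤ v i} := by
        ext v; simp
      show IsClosed {v : Fin K' → ℝ | ∀ i, 0 ≤ v i}
      rw [this]
      exact isClosed_iInter fun i => isClosed_le continuous_const (continuous_apply i)
    · exact isClosed_le (continuous_finsetSum _ fun i _ => continuous_apply i) continuous_const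
  have hsub : {v : Fin K' → ℝ | v ∈ V ∧ (∀ i, 0 ≤ v i) ∧ ∑ i, v i ≤ 1} ⊆
      Set.Icc (fun _ => (0 : ℝ)) (fun _ => 1) := by
    rintro v ⟨-, h0, h1⟩
    refine ⟨fun i => h0 i, fun i => ?_⟩
    exact (Finset.single_le_sum (f := v) (fun j _ => h0 j) (Finset.mem_univ i)).trans h1
  have hcomp : IsCompact {v : Fin K' → ℝ | v ∈ V ∧ (∀ i, 0 ≤ v i) ∧ ∑ i, v i ≤ 1} :=
    isCompact_Icc.of_isClosed_subset hcl hsub
  have h0mem : (0 : Fin K' → ℝ) ∈ {v : Fin K' → ℝ | v ∈ V ∧ (∀ i, 0 ≤ v i) ∧ ∑ i, v i ≤ 1} :=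
    ⟨V.zero_mem, fun _ => le_refl _, by simp⟩
  have hcont : Continuous fun v : Fin K' → ℝ => g ⬝ᵥ v := by
    unfold dotProduct
    exact continuous_finsetSum _ fun i _ => continuous_const.mul (continuous_apply i)
  obtain ⟨v, ⟨hv, hv0, hv1⟩, hmin⟩ := hcomp.exists_isMinOn ⟨0, h0mem⟩ hcont.continuousOn
  refine ⟨v, hv, hv0, hv1, ?_, fun u hu hu0 hu1 => hmin ⟨hu, hu0, hu1⟩⟩
  have := hmin h0mem
  simpa using this

/-- Capacities. -/
lemma le_cap {K' : ℕ} (s : Fin K' → ℝ) (t u : ℝ) (i : Fin K') (ht : 0 < t)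
    (h1 : u ≤ 1) (h2 : s i * u ≤ t) : u ≤ cap s t i := by
  unfold cap
  split_ifs with h
  · exact h1
  · have hs : 0 < s i := ht.trans (not_le.1 h)
    rw [le_div_iff₀ hs, mul_comm]
    exact h2

lemma of_le_cap {K' : ℕ} (s : Fin K' → ℝ) (t u : ℝ) (i : Fin K') (ht : 0 < t)
    (hs0 : 0 ≤ s i) (h : u ≤ cap s t i) : u ≤ 1 ∧ s i * u ≤ t := by
  unfold cap at h
  split_ifs at h with hh
  · exact ⟨h, (mul_le_of_le_one_right hs0 h).trans hh⟩
  · have hs : 0 < s i := ht.trans (not_le.1 hh)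
    constructor
    · refine h.trans ?_
      rw [div_le_one hs]
      exact (not_le.1 hh).le
    · rw [le_div_iff₀ hs, mul_comm] at h
      exact h

end TFSA

open TFSA in
theorem t_FSA : S_NNEG → S_MX → S_PIE → S_FSA := by
  intro hN hM hP
  obtain ⟨pq, hP⟩ := hP
  refine ⟨pq + Polynomial.X, ?_⟩
  intro Ls X q nu r K a t₀ ht₀ hSp hK hSc
  obtain ⟨hqX, hnX, hqn, hnu, hq0⟩ := hSp
  obtain ⟨en⟩ : Nonempty ({c // c ∈ X} ≃ Fin X.card) := ⟨X.equivFin⟩
  set V : Submodule ℝ (Fin X.card → ℝ) := Ls.map (rho en) with hV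
  obtain ⟨g, hg⟩ := exists_form en Ls q hq0
  obtain ⟨v₀, hv₀V, hv₀0, hv₀1, hv₀n, hv₀m⟩ := exists_c0 V g
  set c₀ : ℝ := -(g ⬝ᵥ v₀) with hc₀
  have hc₀0 : 0 ≤ c₀ := by rw [hc₀]; linarith
  -- the nonnegative form
  have hq' : ∀ x : Fin X.card → ℝ, (fun i => g i + c₀) ⬝ᵥ x = g ⬝ᵥ x + c₀ * ∑ i, x i := by
    intro x
    unfold dotProduct
    rw [Finset.mul_sum, ← Finset.sum_add_distrib]
    exact Finset.sum_congr rfl fun i _ => by ring
  have hnn : ∀ x ∈ V, (∀ i, 0 ≤ x i) → 0 ≤ (fun i => g i + c₀) ⬝ᵥ x := by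
    intro x hx hx0
    rw [hq']
    have hs0 : 0 ≤ ∑ i, x i := Finset.sum_nonneg fun i _ => hx0 i
    rcases hs0.eq_or_lt with hs | hs
    · have hx00 : x = 0 := by
        funext i
        exact (Finset.sum_eq_zero_iff_of_nonneg (fun j _ => hx0 j)).1 hs.symm i (Finset.mem_univ i)
      rw [hx00]
      simp
    · have h1 := hv₀m ((∑ i, x i)⁻¹ • x) (V.smul_mem _ hx)
        (fun i => mul_nonneg (inv_nonneg.2 hs0) (hx0 i)) (by
          rw [show ∑ i, ((∑ i, x i)⁻¹ • x) i = (∑ i, x i)⁻¹ * ∑ i, x i from by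
            rw [Finset.mul_sum]; rfl, inv_mul_cancel₀ hs.ne'])
      rw [dotProduct_smul, smul_eq_mul] at h1
      have h2 : (∑ i, x i) * (g ⬝ᵥ v₀) ≤ g ⬝ᵥ x := by
        have := mul_le_mul_of_nonneg_left h1 hs0
        rwa [← mul_assoc, mul_inv_cancel₀ hs.ne', one_mul] at this
      rw [hc₀]
      nlinarith
  obtain ⟨s, hs0, hs⟩ := hN X.card V _ hnn
  obtain ⟨Z, F₀, hZ, hlin, hF₀⟩ := hP X.card r V (rho en a) s (Real.logb 2 t₀) hs0
    (fewE_of_scA en Ls a r hSc)
  have hpe : (pq + Polynomial.X).eval (K + r) = pq.eval (K + r) + (K + r) := by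
    rw [Polynomial.eval_add, Polynomial.eval_X]
  have hmono : pq.eval (X.card + r) ≤ pq.eval (K + r) := by
    rw [Polynomial.eval_eq_sum, Polynomial.eval_eq_sum]
    unfold Polynomial.sum
    refine Finset.sum_le_sum fun i _ => ?_
    exact Nat.mul_le_mul le_rfl (Nat.pow_le_pow_left (by omega) _)
  refine ⟨Z, fun e y => if h : e ∈ X then F₀ (en ⟨e, h⟩) y - Real.logb 2 X.card else
    if e = q then y else 0, ?_, ?_, ?_⟩
  · rw [hpe]; omega
  · intro y₁ y₂ hy hz
    obtain ⟨σ, hσ⟩ := hlin y₁ y₂ hy hz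
    refine ⟨fun c => if h : c ∈ X then σ (en ⟨c, h⟩) else decide (c = q), ?_, ?_, ?_⟩
    · show (if h : nu ∈ X then σ (en ⟨nu, h⟩) else decide (nu = q)) = false
      rw [dif_neg hnX]
      simpa using fun h => hqn h.symm
    · show (if h : q ∈ X then σ (en ⟨q, h⟩) else decide (q = q)) = true
      rw [dif_neg hqX]
      simp
    · intro e he y hy1 hy2
      show (if h : e ∈ X then F₀ (en ⟨e, h⟩) y - Real.logb 2 X.card else if e = q then y else 0) =
        (if h : e ∈ X then F₀ (en ⟨e, h⟩) y₁ - Real.logb 2 X.card else if e = q then y₁ else 0) +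
          if (if h : e ∈ X then σ (en ⟨e, h⟩) else decide (e = q)) = true then y - y₁ else 0
      by_cases heX : e ∈ X
      · rw [dif_pos heX, dif_pos heX, dif_pos heX, hσ (en ⟨e, heX⟩) y hy1 hy2]
        ring
      · rw [dif_neg heX, dif_neg heX, dif_neg heX]
        by_cases heq : e = q
        · simp [heq]
        · simp [heq]
  · intro t w M ε x ht hW hε hε1 hM1 hB hC e he
    obtain ⟨-, -, -, ht0, hw, hwq, hwn⟩ := hW
    obtain ⟨hxL, hxw, hxn, hxq⟩ := hC
    have hx0 : ∀ c ∈ X, 0 ≤ x c := fun c hc => (mul_pos hε (hw c hc)).le.trans (hxw c hc)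
    have hxS : x ∈ Sl Ls X q nu t := by
      refine ⟨hxL, hx0, by linarith, hxq.trans ?_⟩
      nlinarith
    have h1M : 0 < 1 + M := by linarith
    have hlog : 0 ≤ Real.logb 2 ((1 + M) / ε) := by
      apply Real.logb_nonneg one_lt_two
      rw [le_div_iff₀ hε]
      linarith
    have hpos : (0 : ℝ) ≤ (((pq + Polynomial.X).eval (K + r) : ℕ) : ℝ) := Nat.cast_nonneg _
    rw [Finset.mem_insert, Finset.mem_insert] at he
    by_cases heX : e ∈ X
    swap
    · -- the coordinates `q` and `nu`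
      show (if h : e ∈ X then F₀ (en ⟨e, h⟩) (Real.logb 2 t) - Real.logb 2 X.card else
          if e = q then Real.logb 2 t else 0) ≤ Real.logb 2 (w e) ∧ Real.logb 2 (w e) ≤
        (if h : e ∈ X then F₀ (en ⟨e, h⟩) (Real.logb 2 t) - Real.logb 2 X.card else
          if e = q then Real.logb 2 t else 0) + _
      rw [dif_neg heX]
      rcases he with he | he | he
      · rw [if_pos he, he, hwq]
        exact ⟨le_rfl, by linarith⟩
      · have : e ≠ q := by rw [he]; exact fun h => hqn h.symm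
        rw [if_neg this, he, hwn, Real.logb_one]
        exact ⟨le_rfl, by linarith⟩
      · exact absurd he heX
    -- a coordinate in `X`
    show (if h : e ∈ X then F₀ (en ⟨e, h⟩) (Real.logb 2 t) - Real.logb 2 X.card else
        if e = q then Real.logb 2 t else 0) ≤ Real.logb 2 (w e) ∧ Real.logb 2 (w e) ≤
      (if h : e ∈ X then F₀ (en ⟨e, h⟩) (Real.logb 2 t) - Real.logb 2 X.card else
        if e = q then Real.logb 2 t else 0) + _
    rw [dif_pos heX]
    set i : Fin X.card := en ⟨e, heX⟩ with hi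
    have hKpos : (0 : ℝ) < X.card := by
      have : 0 < X.card := Finset.card_pos.2 ⟨e, heX⟩
      exact_mod_cast this
    have hK1 : (1 : ℝ) ≤ X.card := by
      have : 0 < X.card := Finset.card_pos.2 ⟨e, heX⟩
      exact_mod_cast this
    have h2y : (2 : ℝ) ^ (Real.logb 2 t) = t := Real.rpow_logb two_pos (by norm_num) ht0
    have hwe : 0 < w e := hw e heX
    -- `c₀ ≤ M t`
    have hsum : ∀ z : ℕ → ℝ, ∑ j, rho en z j = ∑ c ∈ X, z c := fun z => sum_rho en z
    have hcM : c₀ ≤ M * t := by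
      obtain ⟨z, hz, hzv⟩ := hv₀V
      have hzq : z q = -c₀ := by
        rw [← hg z hz, hzv, hc₀, neg_neg]
      have hzS : z ∈ Sl Ls X q nu t := by
        refine ⟨hz, ?_, ?_, by rw [hzq]; linarith⟩
        · intro c hc
          have := hv₀0 (en ⟨c, hc⟩)
          rwa [← hzv, rho_mem] at this
        · rw [hnu z hz, ← hsum z, hzv]
          exact hv₀1
      have := (hB z hzS).2.1
      rw [hzq] at this
      linarith
    -- upper bound for the maximum
    obtain ⟨⟨u, huB, hum⟩, hmax, -, -⟩ := hM X.card V s (Pi.single i 1) hs0 t ht0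
    have hsingle : ∀ z : Fin X.card → ℝ, (Pi.single i 1 : Fin X.card → ℝ) ⬝ᵥ z = z i := by
      intro z
      rw [single_dotProduct, one_mul]
    have hA : mx V s (Pi.single i 1) t ≤ X.card * w e := by
      rw [← hum, hsingle]
      obtain ⟨huV, hub⟩ := huB
      obtain ⟨z, hz, hzu⟩ := huV
      have hb := fun j => of_le_cap s t (u j) j ht0 (hs0 j) (hub j).2
      have hzS : ((X.card : ℝ)⁻¹ • z) ∈ Sl Ls X q nu t := by
        have hzsum : ∑ j, u j ≤ X.card := by
          refine (Finset.sum_le_sum fun j _ => (hb j).1).trans ?_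
          simp
        have hssum : s ⬝ᵥ u ≤ X.card * t := by
          unfold dotProduct
          refine (Finset.sum_le_sum fun j _ => (hb j).2).trans ?_
          simp
        have hu0 : 0 ≤ ∑ j, u j := Finset.sum_nonneg fun j _ => (hub j).1
        have hgu : g ⬝ᵥ u ≤ X.card * t := by
          have h1 := hs u ⟨z, hz, hzu⟩
          rw [hq'] at h1
          nlinarith [mul_nonneg hc₀0 hu0]
        refine ⟨Ls.smul_mem _ hz, ?_, ?_, ?_⟩
        · intro c hc
          refine mul_nonneg (inv_nonneg.2 hKpos.le) ?_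
          rw [← rho_mem en z hc, hzu]
          exact (hub _).1
        · show (X.card : ℝ)⁻¹ * z nu ≤ 1
          rw [hnu z hz, ← hsum z, hzu, inv_mul_le_iff₀ hKpos, mul_one]
          exact hzsum
        · show (X.card : ℝ)⁻¹ * z q ≤ t
          rw [← hg z hz, hzu, inv_mul_le_iff₀ hKpos]
          exact hgu
      have h1 := (hB _ hzS).1 e heX
      have h2 : (X.card : ℝ)⁻¹ * z e ≤ w e := h1
      rw [← rho_mem en z heX, hzu, inv_mul_le_iff₀ hKpos] at h2
      exact h2
    -- lower bound for the maximum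
    have hBd : ε * w e ≤ (1 + M) * mx V s (Pi.single i 1) t := by
      have hxn0 : 0 ≤ x nu := (hB x hxS).2.2
      have hxB : ((1 + M)⁻¹ • rho en x) ∈ Bx V s t := by
        have hr0 : ∀ j, 0 ≤ rho en x j := fun j => hx0 _ (en.symm j).2
        have hsx : s ⬝ᵥ rho en x ≤ (1 + M) * t := by
          rw [hs _ ⟨x, hxL, rfl⟩, hq', hg x hxL, hsum, ← hnu x hxL]
          have h3 : x q ≤ t := hxS.2.2.2
          have h4 : x nu ≤ 1 := hxS.2.2.1
          nlinarith
        refine ⟨V.smul_mem _ ⟨x, hxL, rfl⟩, fun j => ⟨mul_nonneg (inv_nonneg.2 h1M.le) (hr0 j), ?_⟩⟩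
        refine le_cap s t _ j ht0 ?_ ?_
        · show (1 + M)⁻¹ * rho en x j ≤ 1
          rw [inv_mul_le_iff₀ h1M, mul_one]
          have h5 : rho en x j ≤ ∑ k, rho en x k :=
            Finset.single_le_sum (fun k _ => hr0 k) (Finset.mem_univ j)
          rw [hsum, ← hnu x hxL] at h5
          have h4 : x nu ≤ 1 := hxS.2.2.1
          linarith
        · show s j * ((1 + M)⁻¹ * rho en x j) ≤ t
          have h6 : s j * rho en x j ≤ s ⬝ᵥ rho en x := by
            unfold dotProduct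
            exact Finset.single_le_sum (f := fun k => s k * rho en x k)
              (fun k _ => mul_nonneg (hs0 k) (hr0 k)) (Finset.mem_univ j)
          rw [mul_left_comm, inv_mul_le_iff₀ h1M]
          exact h6.trans hsx
      have h7 := hmax _ hxB
      rw [hsingle] at h7
      have h8 : (1 + M)⁻¹ * x e ≤ mx V s (Pi.single i 1) t := by
        rw [← rho_mem en x heX]
        exact h7
      rw [inv_mul_le_iff₀ h1M] at h8
      exact (hxw e heX).trans h8
    have hmxpos : 0 < mx V s (Pi.single i 1) t := by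
      have : 0 < (1 + M) * mx V s (Pi.single i 1) t := lt_of_lt_of_le (mul_pos hε hwe) hBd
      exact pos_of_mul_pos_right this h1M.le
    obtain ⟨hlo, hup⟩ := hF₀ (Real.logb 2 t)
      (Real.logb_le_logb_of_le one_lt_two ht₀ ht) i (by rw [h2y]; exact hmxpos)
    unfold lmx at hlo hup
    rw [h2y] at hlo hup
    constructor
    · have h9 : Real.logb 2 (mx V s (Pi.single i 1) t) ≤ Real.logb 2 (X.card * w e) :=
        Real.logb_le_logb_of_le one_lt_two hmxpos hA
      rw [Real.logb_mul hKpos.ne' hwe.ne'] at h9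
      linarith
    · have h10 : w e ≤ (1 + M) / ε * mx V s (Pi.single i 1) t := by
        rw [div_mul_eq_mul_div, le_div_iff₀ hε, mul_comm]
        exact hBd
      have h11 : Real.logb 2 (w e) ≤ Real.logb 2 ((1 + M) / ε * mx V s (Pi.single i 1) t) :=
        Real.logb_le_logb_of_le one_lt_two hwe h10
      rw [Real.logb_mul (div_pos h1M hε).ne' hmxpos.ne'] at h11
      have h12 : Real.logb 2 X.card ≤ (K : ℝ) := by
        have h13 : Real.logb 2 (X.card : ℝ) ≤ Real.logb 2 ((2 : ℝ) ^ (X.card : ℕ)) := by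
          refine Real.logb_le_logb_of_le one_lt_two hKpos ?_
          have : X.card < 2 ^ X.card := Nat.lt_two_pow_self
          exact_mod_cast this.le
        rw [Real.logb_pow, Real.logb_self_eq_one one_lt_two, mul_one] at h13
        refine h13.trans ?_
        exact_mod_cast (by omega : X.card ≤ K)
      have h14 : (((pq + Polynomial.X).eval (K + r) : ℕ) : ℝ) =
          ((pq.eval (K + r) : ℕ) : ℝ) + (K + r) := by
        rw [hpe]; push_cast; ring
      have h15 : ((pq.eval (X.card + r) : ℕ) : ℝ) ≤ ((pq.eval (K + r) : ℕ) : ℝ) := by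
        exact_mod_cast hmono
      have h16 : (0 : ℝ) ≤ (r : ℝ) := Nat.cast_nonneg r
      rw [h14]
      linarith

end Pool.Agent.Y648.CS.V
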