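import Pool.Agent.Y648.CX.StmB
import Pool.Agent.Y648.CX.T_FSA

set_option autoImplicit false

/-!
# The structure of the bounds along the path, common part

Job B3 (helper141), from the proof of `t_FSA` (helper125).
-/

namespace Pool.Agent.Y648.CS.V

open Matrix

open TFSA in
theorem t_FSG : S_NNEG → S_MX → S_FSG := by
  intro hN hM Ls X q nu N K φ V' t₀ ht₀ hSp hRes hP
  obtain ⟨hqX, hnX, hqn, hnu, hq0⟩ := hSp
  obtain ⟨hφ, hφX, hVR⟩ := hRes
  obtain ⟨en, hen⟩ : ∃ en : {c // c ∈ X} ≃ Fin K, ∀ i, ((en.symm i : {c // c ∈ X}) : ℕ) = φ i := by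
    refine ⟨(Equiv.ofBijective (fun i : Fin K => (⟨φ i, (hφX _).2 ⟨i, rfl⟩⟩ : {c // c ∈ X}))
      ⟨fun i j h => hφ (congrArg Subtype.val h), fun c => ?_⟩).symm, fun i => rfl⟩
    obtain ⟨i, hi⟩ := (hφX c.1).1 c.2
    exact ⟨i, Subtype.ext hi⟩
  have hcard : X.card = K := by
    have := Fintype.card_congr en
    rwa [Fintype.card_coe, Fintype.card_fin] at this
  have hVV : V' = Ls.map (rho en) := by
    ext x
    rw [hVR]
    constructor
    · rintro ⟨v, hv, hx⟩
      exact ⟨v, hv, funext fun i => by rw [rho_apply, hen, hx]⟩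
    · rintro ⟨v, hv, rfl⟩
      exact ⟨v, hv, fun i => by rw [rho_apply, hen]⟩
  subst hVV
  subst hcard
  set V : Submodule ℝ (Fin X.card → ℝ) := Ls.map (rho en) with hV
  obtain ⟨g, hg⟩ := exists_form en Ls q hq0
  obtain ⟨v₀, hv₀V, hv₀0, hv₀1, hv₀n, hv₀m⟩ := exists_c0 V g
  set c₀ : ℝ := -(g ⬝ᵥ v₀) with hc₀
  have hc₀0 : 0 ≤ c₀ := by rw [hc₀]; linarith
  -- the nonnegative form
  have hq' : ∀ x : Fin X.card → ℝ, (fun i => g i + c₀) ⬝ᵥ x = g ⬝ᵥ x + c₀ * ∑ i, x i := by
    intro x
    unfold dotProduct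
    rw [Finset.mul_sum, ← Finset.sum_add_distrib]
    exact Finset.sum_congr rfl fun i _ => by ring
  have hnn : ∀ x ∈ V, (∀ i, 0 ≤ x i) → 0 ≤ (fun i => g i + c₀) ⬝ᵥ x := by
    intro x hx hx0
    rw [hq']
    have hs0 : 0 ≤ ∑ i, x i := Finset.sum_nonneg fun i _ => hx0 i
    rcases hs0.eq_or_lt with hs | hs
    · have hx00 : x = 0 := by
        funext i
        exact (Finset.sum_eq_zero_iff_of_nonneg (fun j _ => hx0 j)).1 hs.symm i (Finset.mem_univ i)
      rw [hx00]
      simp
    · have h1 := hv₀m ((∑ i, x i)⁻¹ • x) (V.smul_mem _ hx)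
        (fun i => mul_nonneg (inv_nonneg.2 hs0) (hx0 i)) (by
          rw [show ∑ i, ((∑ i, x i)⁻¹ • x) i = (∑ i, x i)⁻¹ * ∑ i, x i from by
            rw [Finset.mul_sum]; rfl, inv_mul_cancel₀ hs.ne'])
      rw [dotProduct_smul, smul_eq_mul] at h1
      have h2 : (∑ i, x i) * (g ⬝ᵥ v₀) ≤ g ⬝ᵥ x := by
        have := mul_le_mul_of_nonneg_left h1 hs0
        rwa [← mul_assoc, mul_inv_cancel₀ hs.ne', one_mul] at this
      rw [hc₀]
      nlinarith
  obtain ⟨s, hs0, hs⟩ := hN X.card V _ hnn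
  obtain ⟨Z, F₀, hZ, hlin, hF₀⟩ := hP s hs0
  refine ⟨Z, fun e y => if h : e ∈ X then F₀ (en ⟨e, h⟩) y - Real.logb 2 X.card else
    if e = q then y else 0, ?_, ?_, ?_⟩
  · exact hZ
  · intro y₁ y₂ hy hz
    obtain ⟨σ, hσ⟩ := hlin y₁ y₂ hy hz
    refine ⟨fun c => if h : c ∈ X then σ (en ⟨c, h⟩) else decide (c = q), ?_, ?_, ?_⟩
    · show (if h : nu ∈ X then σ (en ⟨nu, h⟩) else decide (nu = q)) = false
      rw [dif_neg hnX]
      simpa using fun h => hqn h.symm
    · show (if h : q ∈ X then σ (en ⟨q, h⟩) else decide (q = q)) = true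
      rw [dif_neg hqX]
      simp
    · intro e he y hy1 hy2
      show (if h : e ∈ X then F₀ (en ⟨e, h⟩) y - Real.logb 2 X.card else if e = q then y else 0) =
        (if h : e ∈ X then F₀ (en ⟨e, h⟩) y₁ - Real.logb 2 X.card else if e = q then y₁ else 0) +
          if (if h : e ∈ X then σ (en ⟨e, h⟩) else decide (e = q)) = true then y - y₁ else 0
      by_cases heX : e ∈ X
      · rw [dif_pos heX, dif_pos heX, dif_pos heX, hσ (en ⟨e, heX⟩) y hy1 hy2]
        ring
      · rw [dif_neg heX, dif_neg heX, dif_neg heX]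
        by_cases heq : e = q
        · simp [heq]
        · simp [heq]
  · intro t w M ε x ht hW hε hε1 hM1 hB hC e he
    obtain ⟨-, -, -, ht0, hw, hwq, hwn⟩ := hW
    obtain ⟨hxL, hxw, hxn, hxq⟩ := hC
    have hx0 : ∀ c ∈ X, 0 ≤ x c := fun c hc => (mul_pos hε (hw c hc)).le.trans (hxw c hc)
    have hxS : x ∈ Sl Ls X q nu t := by
      refine ⟨hxL, hx0, by linarith, hxq.trans ?_⟩
      nlinarith
    have h1M : 0 < 1 + M := by linarith
    have hlog : 0 ≤ Real.logb 2 ((1 + M) / ε) := by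
      apply Real.logb_nonneg one_lt_two
      rw [le_div_iff₀ hε]
      linarith
    have hpos : (0 : ℝ) ≤ ((N + X.card : ℕ) : ℝ) := Nat.cast_nonneg _
    rw [Finset.mem_insert, Finset.mem_insert] at he
    by_cases heX : e ∈ X
    swap
    · -- the coordinates `q` and `nu`
      show (if h : e ∈ X then F₀ (en ⟨e, h⟩) (Real.logb 2 t) - Real.logb 2 X.card else
          if e = q then Real.logb 2 t else 0) ≤ Real.logb 2 (w e) ∧ Real.logb 2 (w e) ≤
        (if h : e ∈ X then F₀ (en ⟨e, h⟩) (Real.logb 2 t) - Real.logb 2 X.card else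
          if e = q then Real.logb 2 t else 0) + _
      rw [dif_neg heX]
      rcases he with he | he | he
      · rw [if_pos he, he, hwq]
        exact ⟨le_rfl, by linarith⟩
      · have : e ≠ q := by rw [he]; exact fun h => hqn h.symm
        rw [if_neg this, he, hwn, Real.logb_one]
        exact ⟨le_rfl, by linarith⟩
      · exact absurd he heX
    -- a coordinate in `X`
    show (if h : e ∈ X then F₀ (en ⟨e, h⟩) (Real.logb 2 t) - Real.logb 2 X.card else
        if e = q then Real.logb 2 t else 0) ≤ Real.logb 2 (w e) ∧ Real.logb 2 (w e) ≤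
      (if h : e ∈ X then F₀ (en ⟨e, h⟩) (Real.logb 2 t) - Real.logb 2 X.card else
        if e = q then Real.logb 2 t else 0) + _
    rw [dif_pos heX]
    set i : Fin X.card := en ⟨e, heX⟩ with hi
    have hKpos : (0 : ℝ) < X.card := by
      have : 0 < X.card := Finset.card_pos.2 ⟨e, heX⟩
      exact_mod_cast this
    have hK1 : (1 : ℝ) ≤ X.card := by
      have : 0 < X.card := Finset.card_pos.2 ⟨e, heX⟩
      exact_mod_cast this
    have h2y : (2 : ℝ) ^ (Real.logb 2 t) = t := Real.rpow_logb two_pos (by norm_num) ht0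
    have hwe : 0 < w e := hw e heX
    -- `c₀ ≤ M t`
    have hsum : ∀ z : ℕ → ℝ, ∑ j, rho en z j = ∑ c ∈ X, z c := fun z => sum_rho en z
    have hcM : c₀ ≤ M * t := by
      obtain ⟨z, hz, hzv⟩ := hv₀V
      have hzq : z q = -c₀ := by
        rw [← hg z hz, hzv, hc₀, neg_neg]
      have hzS : z ∈ Sl Ls X q nu t := by
        refine ⟨hz, ?_, ?_, by rw [hzq]; linarith⟩
        · intro c hc
          have := hv₀0 (en ⟨c, hc⟩)
          rwa [← hzv, rho_mem] at this
        · rw [hnu z hz, ← hsum z, hzv]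
          exact hv₀1
      have := (hB z hzS).2.1
      rw [hzq] at this
      linarith
    -- upper bound for the maximum
    obtain ⟨⟨u, huB, hum⟩, hmax, -, -⟩ := hM X.card V s (Pi.single i 1) hs0 t ht0
    have hsingle : ∀ z : Fin X.card → ℝ, (Pi.single i 1 : Fin X.card → ℝ) ⬝ᵥ z = z i := by
      intro z
      rw [single_dotProduct, one_mul]
    have hA : mx V s (Pi.single i 1) t ≤ X.card * w e := by
      rw [← hum, hsingle]
      obtain ⟨huV, hub⟩ := huB
      obtain ⟨z, hz, hzu⟩ := huV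
      have hb := fun j => of_le_cap s t (u j) j ht0 (hs0 j) (hub j).2
      have hzS : ((X.card : ℝ)⁻¹ • z) ∈ Sl Ls X q nu t := by
        have hzsum : ∑ j, u j ≤ X.card := by
          refine (Finset.sum_le_sum fun j _ => (hb j).1).trans ?_
          simp
        have hssum : s ⬝ᵥ u ≤ X.card * t := by
          unfold dotProduct
          refine (Finset.sum_le_sum fun j _ => (hb j).2).trans ?_
          simp
        have hu0 : 0 ≤ ∑ j, u j := Finset.sum_nonneg fun j _ => (hub j).1
        have hgu : g ⬝ᵥ u ≤ X.card * t := by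
          have h1 := hs u ⟨z, hz, hzu⟩
          rw [hq'] at h1
          nlinarith [mul_nonneg hc₀0 hu0]
        refine ⟨Ls.smul_mem _ hz, ?_, ?_, ?_⟩
        · intro c hc
          refine mul_nonneg (inv_nonneg.2 hKpos.le) ?_
          rw [← rho_mem en z hc, hzu]
          exact (hub _).1
        · show (X.card : ℝ)⁻¹ * z nu ≤ 1
          rw [hnu z hz, ← hsum z, hzu, inv_mul_le_iff₀ hKpos, mul_one]
          exact hzsum
        · show (X.card : ℝ)⁻¹ * z q ≤ t
          rw [← hg z hz, hzu, inv_mul_le_iff₀ hKpos]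
          exact hgu
      have h1 := (hB _ hzS).1 e heX
      have h2 : (X.card : ℝ)⁻¹ * z e ≤ w e := h1
      rw [← rho_mem en z heX, hzu, inv_mul_le_iff₀ hKpos] at h2
      exact h2
    -- lower bound for the maximum
    have hBd : ε * w e ≤ (1 + M) * mx V s (Pi.single i 1) t := by
      have hxn0 : 0 ≤ x nu := (hB x hxS).2.2
      have hxB : ((1 + M)⁻¹ • rho en x) ∈ Bx V s t := by
        have hr0 : ∀ j, 0 ≤ rho en x j := fun j => hx0 _ (en.symm j).2
        have hsx : s ⬝ᵥ rho en x ≤ (1 + M) * t := by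
          rw [hs _ ⟨x, hxL, rfl⟩, hq', hg x hxL, hsum, ← hnu x hxL]
          have h3 : x q ≤ t := hxS.2.2.2
          have h4 : x nu ≤ 1 := hxS.2.2.1
          nlinarith
        refine ⟨V.smul_mem _ ⟨x, hxL, rfl⟩, fun j => ⟨mul_nonneg (inv_nonneg.2 h1M.le) (hr0 j), ?_⟩⟩
        refine le_cap s t _ j ht0 ?_ ?_
        · show (1 + M)⁻¹ * rho en x j ≤ 1
          rw [inv_mul_le_iff₀ h1M, mul_one]
          have h5 : rho en x j ≤ ∑ k, rho en x k :=
            Finset.single_le_sum (fun k _ => hr0 k) (Finset.mem_univ j)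
          rw [hsum, ← hnu x hxL] at h5
          have h4 : x nu ≤ 1 := hxS.2.2.1
          linarith
        · show s j * ((1 + M)⁻¹ * rho en x j) ≤ t
          have h6 : s j * rho en x j ≤ s ⬝ᵥ rho en x := by
            unfold dotProduct
            exact Finset.single_le_sum (f := fun k => s k * rho en x k)
              (fun k _ => mul_nonneg (hs0 k) (hr0 k)) (Finset.mem_univ j)
          rw [mul_left_comm, inv_mul_le_iff₀ h1M]
          exact h6.trans hsx
      have h7 := hmax _ hxB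
      rw [hsingle] at h7
      have h8 : (1 + M)⁻¹ * x e ≤ mx V s (Pi.single i 1) t := by
        rw [← rho_mem en x heX]
        exact h7
      rw [inv_mul_le_iff₀ h1M] at h8
      exact (hxw e heX).trans h8
    have hmxpos : 0 < mx V s (Pi.single i 1) t := by
      have : 0 < (1 + M) * mx V s (Pi.single i 1) t := lt_of_lt_of_le (mul_pos hε hwe) hBd
      exact pos_of_mul_pos_right this h1M.le
    obtain ⟨hlo, hup⟩ := hF₀ (Real.logb 2 t)
      (Real.logb_le_logb_of_le one_lt_two ht₀ ht) i (by rw [h2y]; exact hmxpos)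
    unfold lmx at hlo hup
    rw [h2y] at hlo hup
    constructor
    · have h9 : Real.logb 2 (mx V s (Pi.single i 1) t) ≤ Real.logb 2 (X.card * w e) :=
        Real.logb_le_logb_of_le one_lt_two hmxpos hA
      rw [Real.logb_mul hKpos.ne' hwe.ne'] at h9
      linarith
    · have h10 : w e ≤ (1 + M) / ε * mx V s (Pi.single i 1) t := by
        rw [div_mul_eq_mul_div, le_div_iff₀ hε, mul_comm]
        exact hBd
      have h11 : Real.logb 2 (w e) ≤ Real.logb 2 ((1 + M) / ε * mx V s (Pi.single i 1) t) :=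
        Real.logb_le_logb_of_le one_lt_two hwe h10
      rw [Real.logb_mul (div_pos h1M hε).ne' hmxpos.ne'] at h11
      have h12 : Real.logb 2 X.card ≤ (X.card : ℝ) := by
        have h13 : Real.logb 2 (X.card : ℝ) ≤ Real.logb 2 ((2 : ℝ) ^ (X.card : ℕ)) := by
          refine Real.logb_le_logb_of_le one_lt_two hKpos ?_
          have : X.card < 2 ^ X.card := Nat.lt_two_pow_self
          exact_mod_cast this.le
        rw [Real.logb_pow, Real.logb_self_eq_one one_lt_two, mul_one] at h13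
        exact h13
      have h14 : ((N + X.card : ℕ) : ℝ) = (N : ℝ) + X.card := by push_cast; ring
      rw [h14]
      linarith

end Pool.Agent.Y648.CS.V
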